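import Mathlib
import Pool.Agent.H63.FEW.BTQ

/-!
# GR, BT: Brun-Titchmarsh for every residue class modulo `q` (after H63.FEW.BTQ, which has the
class of 1)
-/

set_option autoImplicit false

open Finset Real
open scoped ArithmeticFunction.Moebius

namespace Pool.Agent.H81.GR

open Pool.Agent.H86 Pool.FEW.BTQaux

noncomputable section

theorem card_multC (c q N D : ℕ) (hD : 0 < D) (hc : D.Coprime q) :
    |(((Finset.Ioc 0 N).filter (fun m => D ∣ c + q * m)).card : ℝ) - N / D| ≤ 1 := by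
  obtain ⟨s0, hs0⟩ : ∃ s : ℕ, q * s ≡ 1 [MOD D] := by
    rcases Nat.eq_or_lt_of_le (Nat.succ_le_of_lt hD) with h | h
    · exact ⟨0, by rw [← h]; exact Nat.modEq_one⟩
    · obtain ⟨s, -, hs⟩ := Nat.exists_mul_mod_eq_one_of_coprime (Nat.coprime_comm.1 hc) h
      exact ⟨s, by rw [Nat.ModEq, hs, Nat.mod_eq_of_lt h]⟩
  obtain ⟨s, hs⟩ : ∃ s : ℕ, q * s ≡ c [MOD D] := by
    refine ⟨s0 * c, ?_⟩
    rw [← mul_assoc]
    have := Nat.ModEq.mul_right c hs0
    rwa [one_mul] at this
  have key : ∀ m : ℕ, D ∣ c + q * m ↔ D ∣ s + m := by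
    intro m
    have h1 : q * (s + m) ≡ c + q * m [MOD D] := by
      rw [mul_add]
      exact Nat.ModEq.add_right _ hs
    have h2 : D ∣ c + q * m ↔ D ∣ q * (s + m) := by
      rw [← Nat.modEq_zero_iff_dvd, ← Nat.modEq_zero_iff_dvd]
      exact ⟨fun h => h1.trans h, fun h => h1.symm.trans h⟩
    rw [h2]
    exact ⟨fun h => (Nat.Coprime.dvd_mul_left hc).1 h, fun h => Dvd.dvd.mul_left h q⟩
  have h3 : ((Finset.Ioc 0 N).filter (fun m => D ∣ c + q * m)).card =
      ((Finset.Ioc s (s + N)).filter (D ∣ ·)).card := by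
    apply Finset.card_bij (fun m _ => s + m)
    · intro m hm
      rw [Finset.mem_filter, Finset.mem_Ioc] at hm ⊢
      exact ⟨⟨by omega, by omega⟩, (key m).1 hm.2⟩
    · intro a _ b _ h
      omega
    · intro b hb
      rw [Finset.mem_filter, Finset.mem_Ioc] at hb
      refine ⟨b - s, ?_, by omega⟩
      rw [Finset.mem_filter, Finset.mem_Ioc]
      refine ⟨⟨by omega, by omega⟩, (key _).2 ?_⟩
      rw [show s + (b - s) = b by omega]
      exact hb.2
  rw [h3]
  exact BtWeak.card_mult s N D hD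

/-- Selberg's upper bound for the primes `1 + q m`. -/
theorem primes_leC {q R : ℕ} (hq : 1 ≤ q) (hR : 1 ≤ R) (c N : ℕ) :
    (((Finset.Ioc 0 N).filter (fun m => (c + q * m).Prime)).card : ℝ) ≤
      R + N / G q R + (R : ℝ) ^ 4 := by
  classical
  set I := Finset.Ioc 0 N with hI
  have hsplit : (I.filter (fun m => (c + q * m).Prime)).card ≤
      R + (I.filter (fun m => (c + q * m).Prime ∧ R < c + q * m)).card := by
    have e : I.filter (fun m => (c + q * m).Prime) ⊆
        (Finset.Icc 1 R) ∪ I.filter (fun m => (c + q * m).Prime ∧ R < c + q * m) := by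
      intro m hm
      simp only [hI, Finset.mem_filter, Finset.mem_union, Finset.mem_Icc, Finset.mem_Ioc] at hm ⊢
      by_cases hmR : c + q * m ≤ R
      · left
        have : m ≤ q * m := Nat.le_mul_of_pos_left m hq
        exact ⟨by omega, by omega⟩
      · right; exact ⟨hm.1, hm.2, by omega⟩
    calc _ ≤ _ := Finset.card_le_card e
      _ ≤ _ := Finset.card_union_le _ _
      _ = _ := by simp
  have hnn : ∀ m, 0 ≤ (∑ d ∈ (S q R).filter (· ∣ c + q * m), lam q R d) ^ 2 :=
    fun m => sq_nonneg _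
  have h1 : ((I.filter (fun m => (c + q * m).Prime ∧ R < c + q * m)).card : ℝ) ≤
      ∑ m ∈ I, (∑ d ∈ (S q R).filter (· ∣ c + q * m), lam q R d) ^ 2 := by
    rw [Finset.card_eq_sum_ones, Nat.cast_sum]
    calc ∑ m ∈ I.filter (fun m => (c + q * m).Prime ∧ R < c + q * m), ((1 : ℕ) : ℝ)
        ≤ ∑ m ∈ I.filter (fun m => (c + q * m).Prime ∧ R < c + q * m),
            (∑ d ∈ (S q R).filter (· ∣ c + q * m), lam q R d) ^ 2 := by
          apply Finset.sum_le_sum
          intro m hm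
          simp only [Finset.mem_filter] at hm
          have e : (S q R).filter (· ∣ c + q * m) = {1} := by
            ext d
            simp only [Finset.mem_filter, Finset.mem_singleton]
            constructor
            · rintro ⟨hd, hdn⟩
              rcases (Nat.dvd_prime hm.2.1).1 hdn with h | h
              · exact h
              · exfalso
                have := (mem_S.1 hd).1.2
                omega
            · rintro rfl
              exact ⟨one_mem_S hR, one_dvd _⟩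
          rw [e, Finset.sum_singleton, lam_one hR]
          norm_num
      _ ≤ ∑ m ∈ I, (∑ d ∈ (S q R).filter (· ∣ c + q * m), lam q R d) ^ 2 :=
          Finset.sum_le_sum_of_subset_of_nonneg (Finset.filter_subset _ _) (fun n _ _ => hnn n)
  have h2 : ∑ m ∈ I, (∑ d ∈ (S q R).filter (· ∣ c + q * m), lam q R d) ^ 2 =
      ∑ d₁ ∈ S q R, ∑ d₂ ∈ S q R, lam q R d₁ * lam q R d₂ *
        ((I.filter (fun m => Nat.lcm d₁ d₂ ∣ c + q * m)).card : ℝ) := by
    have : ∀ m ∈ I, (∑ d ∈ (S q R).filter (· ∣ c + q * m), lam q R d) ^ 2 =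
        ∑ d₁ ∈ S q R, ∑ d₂ ∈ S q R,
          if Nat.lcm d₁ d₂ ∣ c + q * m then lam q R d₁ * lam q R d₂ else 0 := by
      intro m _
      rw [sq, Finset.sum_mul_sum, Finset.sum_filter]
      refine Finset.sum_congr rfl fun d₁ _ => ?_
      by_cases hd : d₁ ∣ c + q * m
      · simp only [hd, if_true, Nat.lcm_dvd_iff, true_and]
        rw [Finset.sum_filter]
      · simp [hd, Nat.lcm_dvd_iff]
    rw [Finset.sum_congr rfl this, Finset.sum_comm]
    refine Finset.sum_congr rfl fun d₁ _ => ?_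
    rw [Finset.sum_comm]
    refine Finset.sum_congr rfl fun d₂ _ => ?_
    rw [← Finset.sum_filter, Finset.sum_const, nsmul_eq_mul]
    ring
  have h3 : ∑ d₁ ∈ S q R, ∑ d₂ ∈ S q R, lam q R d₁ * lam q R d₂ *
        ((I.filter (fun m => Nat.lcm d₁ d₂ ∣ c + q * m)).card : ℝ) ≤
      ∑ d₁ ∈ S q R, ∑ d₂ ∈ S q R, (N * (lam q R d₁ * lam q R d₂ / (Nat.lcm d₁ d₂ : ℝ)) +
        |lam q R d₁| * |lam q R d₂|) := by
    refine Finset.sum_le_sum fun d₁ hd₁ => Finset.sum_le_sum fun d₂ hd₂ => ?_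
    have hpos : 0 < Nat.lcm d₁ d₂ := Nat.lcm_pos (mem_S.1 hd₁).1.1 (mem_S.1 hd₂).1.1
    have hcop : (Nat.lcm d₁ d₂).Coprime q :=
      Nat.Coprime.coprime_dvd_left (Nat.lcm_dvd_mul d₁ d₂)
        (Nat.Coprime.mul_left (mem_S.1 hd₁).2.2 (mem_S.1 hd₂).2.2)
    have hc := card_multC c q N _ hpos hcop
    have e : lam q R d₁ * lam q R d₂ *
        ((I.filter (fun m => Nat.lcm d₁ d₂ ∣ c + q * m)).card : ℝ) =
        N * (lam q R d₁ * lam q R d₂ / (Nat.lcm d₁ d₂ : ℝ)) +
          (lam q R d₁ * lam q R d₂) *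
            (((I.filter (fun m => Nat.lcm d₁ d₂ ∣ c + q * m)).card : ℝ) -
              N / (Nat.lcm d₁ d₂ : ℝ)) := by
      ring
    rw [e]
    have : (lam q R d₁ * lam q R d₂) *
        (((I.filter (fun m => Nat.lcm d₁ d₂ ∣ c + q * m)).card : ℝ) - N / (Nat.lcm d₁ d₂ : ℝ))
        ≤ |lam q R d₁| * |lam q R d₂| := by
      calc _ ≤ |(lam q R d₁ * lam q R d₂) *
            (((I.filter (fun m => Nat.lcm d₁ d₂ ∣ c + q * m)).card : ℝ) -
              N / (Nat.lcm d₁ d₂ : ℝ))| := le_abs_self _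
        _ = |lam q R d₁| * |lam q R d₂| *
            |(((I.filter (fun m => Nat.lcm d₁ d₂ ∣ c + q * m)).card : ℝ) -
              N / (Nat.lcm d₁ d₂ : ℝ))| := by
            rw [abs_mul, abs_mul]
        _ ≤ |lam q R d₁| * |lam q R d₂| * 1 := by
            gcongr
        _ = _ := mul_one _
    linarith
  have h4 : ∑ d₁ ∈ S q R, ∑ d₂ ∈ S q R, (N * (lam q R d₁ * lam q R d₂ / (Nat.lcm d₁ d₂ : ℝ)) +
        |lam q R d₁| * |lam q R d₂|) =
      N * (1 / G q R) + (∑ d ∈ S q R, |lam q R d|) ^ 2 := by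
    simp_rw [Finset.sum_add_distrib, ← Finset.mul_sum]
    rw [quad hR, sq, Finset.sum_mul]
  have h5 : ∑ d ∈ S q R, |lam q R d| ≤ (R : ℝ) ^ 2 := by
    calc ∑ d ∈ S q R, |lam q R d| ≤ ∑ d ∈ S q R, (R : ℝ) := by
          refine Finset.sum_le_sum fun d hd => (abs_lam_le hR d).trans ?_
          exact_mod_cast (mem_S.1 hd).1.2
      _ = (S q R).card * R := by rw [Finset.sum_const, nsmul_eq_mul]
      _ ≤ R * R := by
          gcongr
          unfold S
          calc _ ≤ _ := Finset.card_filter_le _ _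
            _ = R := by simp
      _ = (R : ℝ) ^ 2 := by ring
  have h6 : (∑ d ∈ S q R, |lam q R d|) ^ 2 ≤ (R : ℝ) ^ 4 := by
    have h0 : 0 ≤ ∑ d ∈ S q R, |lam q R d| := by positivity
    calc (∑ d ∈ S q R, |lam q R d|) ^ 2 ≤ ((R : ℝ) ^ 2) ^ 2 := by gcongr
      _ = _ := by ring
  have h7 : ((I.filter (fun m => (c + q * m).Prime)).card : ℝ) ≤
      R + ((I.filter (fun m => (c + q * m).Prime ∧ R < c + q * m)).card : ℝ) := by
    exact_mod_cast hsplit
  have h8 : (N : ℝ) * (1 / G q R) = N / G q R := by ring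
  linarith

/-- The theorem of Brun and Titchmarsh for a residue class modulo `q`. -/
theorem btc (x : ℝ) (q : ℕ) [NeZero q] (hx : 2 ≤ x) (hqx : (q : ℝ) ^ 2 ≤ x) (z : ZMod q) :
    (((Finset.Ioc q ⌊x⌋₊).filter (fun l : ℕ => l.Prime ∧ (l : ZMod q) = z)).card : ℝ) ≤
      40 * x / (q.totient * Real.log x) := by
  have hq : 1 ≤ q := Nat.one_le_iff_ne_zero.mpr (NeZero.ne q)
  have hx0 : 0 < x := by linarith
  have hx1 : 1 ≤ x := by linarith
  have hlog : 0 < Real.log x := Real.log_pos (by linarith)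
  have hq0 : 0 < q := hq
  have hqR : (0 : ℝ) < q := by exact_mod_cast hq0
  have hφ : 0 < q.totient := Nat.totient_pos.2 hq0
  have hφR : (0 : ℝ) < q.totient := by exact_mod_cast hφ
  have hφq : (q.totient : ℝ) ≤ q := by exact_mod_cast Nat.totient_le q
  set R := ⌊x ^ (1 / 16 : ℝ)⌋₊ with hRdef
  have hR : 1 ≤ R := by
    rw [hRdef, Nat.one_le_floor_iff]
    exact Real.one_le_rpow hx1 (by positivity)
  have hRle : (R : ℝ) ≤ x ^ (1 / 16 : ℝ) := Nat.floor_le (by positivity)
  have hRgt : x ^ (1 / 16 : ℝ) < R + 1 := Nat.lt_floor_add_one _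
  set N := ⌊x / q⌋₊ with hN
  have hNle : (N : ℝ) ≤ x / q := Nat.floor_le (by positivity)
  have hmain := primes_leC hq hR z.val N
  have hG := BtWeak.G_ge hR
  have hG2 := G_cmp (R := R) hq
  have hlogR : 1 / 16 * Real.log x ≤ Real.log (R + 1) := by
    rw [← Real.log_rpow hx0]
    exact Real.log_le_log (by positivity) hRgt.le
  have hGp := G_pos (q := q) hR
  have hG' : (q.totient : ℝ) / q * (Real.log x / 32) ≤ G q R := by
    have h1 : Real.log x / 32 ≤ q / q.totient * G q R := by linarith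
    calc (q.totient : ℝ) / q * (Real.log x / 32) ≤
        (q.totient : ℝ) / q * (q / q.totient * G q R) := by gcongr
      _ = G q R := by field_simp
  -- the number of primes
  have hcard : (((Finset.Ioc q ⌊x⌋₊).filter (fun l : ℕ => l.Prime ∧ (l : ZMod q) = z)).card : ℝ) ≤
      (((Finset.Ioc 0 N).filter (fun m => (z.val + q * m).Prime)).card : ℝ) := by
    have hkey : ∀ l : ℕ, (l : ZMod q) = z → z.val + q * (l / q) = l := by
      intro l hl
      have h1 : l % q = z.val := by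
        rw [← hl, ZMod.val_natCast]
      have h2 := Nat.div_add_mod l q
      omega
    have h1 : ((Finset.Ioc q ⌊x⌋₊).filter (fun l : ℕ => l.Prime ∧ (l : ZMod q) = z)).card ≤
        ((Finset.Ioc 0 N).filter (fun m => (z.val + q * m).Prime)).card := by
      apply Finset.card_le_card_of_injOn (fun l => l / q)
      · intro l hl
        rw [Finset.mem_coe, Finset.mem_filter, Finset.mem_Ioc] at hl
        obtain ⟨⟨h2, h3⟩, h4, h5⟩ := hl
        have h6 := hkey l h5
        rw [Finset.mem_coe, Finset.mem_filter, Finset.mem_Ioc]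
        change (0 < l / q ∧ l / q ≤ N) ∧ (z.val + q * (l / q)).Prime
        rw [h6]
        refine ⟨⟨Nat.div_pos h2.le hq0, ?_⟩, h4⟩
        rw [hN, Nat.le_floor_iff (by positivity), le_div_iff₀ hqR]
        have h7 : (l : ℝ) ≤ x := (Nat.le_floor_iff hx0.le).1 h3
        have h8 : l / q * q ≤ l := Nat.div_mul_le_self l q
        have h9 : ((l / q : ℕ) : ℝ) * q ≤ l := by exact_mod_cast h8
        linarith
      · intro l hl l' hl' h
        rw [Finset.mem_coe, Finset.mem_filter] at hl hl'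
        change l / q = l' / q at h
        have h1 := hkey l hl.2.2
        have h2 := hkey l' hl'.2.2
        rw [← h1, ← h2, h]
    exact_mod_cast h1
  have t1 : (N : ℝ) / G q R ≤ 32 * x / (q.totient * Real.log x) := by
    calc (N : ℝ) / G q R ≤ (x / q) / ((q.totient : ℝ) / q * (Real.log x / 32)) := by
          gcongr
      _ = 32 * x / (q.totient * Real.log x) := by field_simp
  have hR1 : (1 : ℝ) ≤ R := by exact_mod_cast hR
  have t2 : (R : ℝ) ^ 4 ≤ x ^ (1 / 4 : ℝ) := by
    calc (R : ℝ) ^ 4 ≤ (x ^ (1 / 16 : ℝ)) ^ 4 := by gcongr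
      _ = x ^ (1 / 4 : ℝ) := by
          rw [← Real.rpow_natCast, ← Real.rpow_mul hx0.le]
          norm_num
  have t3 : (R : ℝ) ≤ x ^ (1 / 4 : ℝ) := by
    refine le_trans ?_ t2
    calc (R : ℝ) = R ^ 1 := (pow_one _).symm
      _ ≤ R ^ 4 := pow_le_pow_right₀ hR1 (by norm_num)
  have t4 : 2 * x ^ (1 / 4 : ℝ) ≤ 8 * x / (q.totient * Real.log x) := by
    rw [le_div_iff₀ (by positivity)]
    have l1 : Real.log x ≤ x ^ (1 / 4 : ℝ) / (1 / 4) := Real.log_le_rpow_div hx0.le (by positivity)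
    have l2 : (q : ℝ) ≤ x ^ (1 / 2 : ℝ) := by
      rw [← Real.sqrt_eq_rpow]
      exact Real.le_sqrt_of_sq_le hqx
    calc 2 * x ^ (1 / 4 : ℝ) * (q.totient * Real.log x) ≤
        2 * x ^ (1 / 4 : ℝ) * (x ^ (1 / 2 : ℝ) * (x ^ (1 / 4 : ℝ) / (1 / 4))) := by
          have := hφq.trans l2
          gcongr
      _ = 8 * (x ^ (1 / 4 : ℝ) * x ^ (1 / 2 : ℝ) * x ^ (1 / 4 : ℝ)) := by ring
      _ = 8 * x := by
          rw [← Real.rpow_add hx0, ← Real.rpow_add hx0]
          norm_num
  have t5 : 40 * x / (q.totient * Real.log x) = 32 * x / (q.totient * Real.log x) +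
      8 * x / (q.totient * Real.log x) := by
    ring
  rw [t5]
  linarith

end

end Pool.Agent.H81.GR
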