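import Mathlib
import Pool.Agent.H81.ED.Mean

/-!
# GR, Tup: even moments of short prime sums over the characters modulo `q`
-/

set_option autoImplicit false

open Finset

namespace Pool.Agent.H81.GR

open Pool.Agent.H81.ED (orth Cg)

open Classical in
/-- Parseval's inequality for sums over the residue classes. -/
lemma parsevalT {q : ℕ} [NeZero q] (S : ZMod q → ℂ) :
    ∑ ψ : DirichletCharacter ℂ q, ‖∑ c : ZMod q, S c * ψ c‖ ^ 2 =
      ∑ c : ZMod q, (if IsUnit c then (q.totient : ℝ) else 0) * ‖S c‖ ^ 2 := by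
  have horth : ∀ a b : ZMod q, ∑ ψ : DirichletCharacter ℂ q, ψ a * (starRingEnd ℂ) (ψ b) =
      if a = b ∧ IsUnit a then (q.totient : ℂ) else 0 := by
    intro a b
    have h := orth (q := q) a.val b.val
    rw [ZMod.natCast_zmod_val, ZMod.natCast_zmod_val] at h
    rw [h]
    unfold Cg
    rw [ZMod.natCast_zmod_val, ZMod.natCast_zmod_val]
    by_cases hc : a = b ∧ IsUnit a
    · rw [if_pos hc, if_pos hc]
    · rw [if_neg hc, if_neg hc]
  have h1 : ((∑ ψ : DirichletCharacter ℂ q, ‖∑ c : ZMod q, S c * ψ c‖ ^ 2 : ℝ) : ℂ) =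
      ∑ a : ZMod q, ∑ b : ZMod q, S a * (starRingEnd ℂ) (S b) *
        (if a = b ∧ IsUnit a then (q.totient : ℂ) else 0) := by
    push_cast
    have h2 : ∀ ψ : DirichletCharacter ℂ q, (‖∑ c : ZMod q, S c * ψ c‖ : ℂ) ^ 2 =
        ∑ a : ZMod q, ∑ b : ZMod q, S a * (starRingEnd ℂ) (S b) * (ψ a * (starRingEnd ℂ) (ψ b)) := by
      intro ψ
      rw [← Complex.mul_conj', map_sum, Finset.sum_mul_sum]
      apply Finset.sum_congr rfl
      intro a _
      apply Finset.sum_congr rfl
      intro b _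
      rw [map_mul]
      ring
    simp_rw [h2]
    rw [Finset.sum_comm]
    apply Finset.sum_congr rfl
    intro a _
    rw [Finset.sum_comm]
    apply Finset.sum_congr rfl
    intro b _
    rw [← Finset.mul_sum, horth]
  have h3 : ∀ a : ZMod q, ∑ b : ZMod q, S a * (starRingEnd ℂ) (S b) *
        (if a = b ∧ IsUnit a then (q.totient : ℂ) else 0) =
      (((if IsUnit a then (q.totient : ℝ) else 0) * ‖S a‖ ^ 2 : ℝ) : ℂ) := by
    intro a
    rw [Finset.sum_eq_single a]
    · rw [Complex.mul_conj']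
      by_cases ha : IsUnit a
      · rw [if_pos ⟨rfl, ha⟩, if_pos ha]
        push_cast
        ring
      · rw [if_neg (fun h => ha h.2), if_neg ha]
        simp
    · intro b _ hb
      rw [if_neg (fun h => hb h.1.symm), mul_zero]
    · intro h
      exact absurd (Finset.mem_univ a) h
  simp_rw [h3] at h1
  have h4 : ∑ ψ : DirichletCharacter ℂ q, ‖∑ c : ZMod q, S c * ψ c‖ ^ 2 =
      ∑ a : ZMod q, (if IsUnit a then (q.totient : ℝ) else 0) * ‖S a‖ ^ 2 := by
    exact_mod_cast h1
  exact h4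

open Classical in
/-- Parseval's inequality. -/
lemma parsevalU {q : ℕ} [NeZero q] (S : ZMod q → ℂ) :
    ∑ ψ : DirichletCharacter ℂ q, ‖∑ c : ZMod q, S c * ψ c‖ ^ 2 ≤
      (q.totient : ℝ) * ∑ c : ZMod q, ‖S c‖ ^ 2 := by
  rw [parsevalT, Finset.mul_sum]
  apply Finset.sum_le_sum
  intro a _
  apply mul_le_mul_of_nonneg_right _ (by positivity)
  split_ifs
  · exact le_rfl
  · exact Nat.cast_nonneg _

/-- Parseval's inequality with the modulus itself. -/
lemma parseval {q : ℕ} [NeZero q] (S : ZMod q → ℂ) :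
    ∑ ψ : DirichletCharacter ℂ q, ‖∑ c : ZMod q, S c * ψ c‖ ^ 2 ≤
      (q : ℝ) * ∑ c : ZMod q, ‖S c‖ ^ 2 := by
  refine (parsevalU S).trans ?_
  apply mul_le_mul_of_nonneg_right _ (Finset.sum_nonneg fun c _ => by positivity)
  exact_mod_cast Nat.totient_le q

/-- The tuples of primes with a given product. -/
lemma card_fib {k : ℕ} (T : Finset (Fin k → ℕ)) (hT : ∀ f ∈ T, ∀ i, (f i).Prime) (n : ℕ) :
    (T.filter (fun f => ∏ i, f i = n)).card ≤ k.factorial := by
  by_cases hne : (T.filter (fun f => ∏ i, f i = n)).Nonempty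
  · obtain ⟨f0, hf0⟩ := hne
    rw [Finset.mem_filter] at hf0
    have hlen : n.primeFactorsList.length = k := by
      have h1 : (List.ofFn f0).prod = n := by
        rw [List.prod_ofFn]
        exact hf0.2
      have h2 := Nat.primeFactorsList_unique h1 (by
        intro p hp
        rw [List.mem_ofFn] at hp
        obtain ⟨i, rfl⟩ := hp
        exact hT f0 hf0.1 i)
      rw [← h2.length_eq, List.length_ofFn]
    calc (T.filter (fun f => ∏ i, f i = n)).card ≤ (n.primeFactorsList.permutations.toFinset).card := by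
          apply Finset.card_le_card_of_injOn (fun f => List.ofFn f)
          · intro f hf
            rw [Finset.mem_coe, Finset.mem_filter] at hf
            rw [Finset.mem_coe, List.mem_toFinset, List.mem_permutations]
            apply Nat.primeFactorsList_unique
            · rw [List.prod_ofFn]
              exact hf.2
            · intro p hp
              rw [List.mem_ofFn] at hp
              obtain ⟨i, rfl⟩ := hp
              exact hT f hf.1 i
          · intro f _ g _ hfg
            exact List.ofFn_injective hfg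
      _ ≤ n.primeFactorsList.permutations.length := List.toFinset_card_le _
      _ = k.factorial := by rw [List.length_permutations, hlen]
  · rw [Finset.not_nonempty_iff_eq_empty] at hne
    rw [hne]
    exact Nat.zero_le _

/-- The integers in a class. -/
lemma card_class {q : ℕ} [NeZero q] (c : ZMod q) (M : ℕ) :
    ((Finset.range (M + 1)).filter (fun n : ℕ => (n : ZMod q) = c)).card ≤ M / q + 1 := by
  calc ((Finset.range (M + 1)).filter (fun n : ℕ => (n : ZMod q) = c)).card ≤
        (Finset.range (M / q + 1)).card := by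
        apply Finset.card_le_card_of_injOn (fun n => n / q)
        · intro n hn
          rw [Finset.mem_coe, Finset.mem_filter, Finset.mem_range] at hn
          rw [Finset.mem_coe, Finset.mem_range]
          have := Nat.div_le_div_right (c := q) (show n ≤ M by omega)
          simp only
          omega
        · intro n hn m hm hnm
          rw [Finset.mem_coe, Finset.mem_filter] at hn hm
          have h1 : (n : ZMod q) = (m : ZMod q) := hn.2.trans hm.2.symm
          have h2 : n % q = m % q := (ZMod.natCast_eq_natCast_iff' n m q).mp h1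
          have h3 := Nat.div_add_mod n q
          have h4 := Nat.div_add_mod m q
          simp only at hnm
          rw [← h3, ← h4, hnm, h2]
    _ = M / q + 1 := Finset.card_range _

/-- The moment inequality. -/
theorem momentT {q : ℕ} [NeZero q] (k Y : ℕ) (R : Finset ℕ) (hR : ∀ p ∈ R, p.Prime ∧ p ≤ Y)
    (c : ℕ → ℂ) :
    ∑ ψ : DirichletCharacter ℂ q, ‖∑ p ∈ R, c p * ψ (p : ZMod q)‖ ^ (2 * k) ≤
      (q.totient : ℝ) * ((k.factorial * (Y ^ k / q + 1) : ℕ) * (∑ p ∈ R, ‖c p‖ ^ 2) ^ k) := by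
  classical
  set T : Finset (Fin k → ℕ) := Fintype.piFinset (fun _ : Fin k => R) with hT
  set S : ZMod q → ℂ := fun z => ∑ f ∈ T.filter (fun f => ((∏ i, f i : ℕ) : ZMod q) = z),
    ∏ i, c (f i) with hS
  have h1 : ∀ ψ : DirichletCharacter ℂ q, (∑ p ∈ R, c p * ψ (p : ZMod q)) ^ k =
      ∑ z : ZMod q, S z * ψ z := by
    intro ψ
    have e1 : (∑ p ∈ R, c p * ψ (p : ZMod q)) ^ k =
        ∏ _i : Fin k, ∑ p ∈ R, c p * ψ (p : ZMod q) := by simp
    rw [e1, Finset.prod_univ_sum]
    rw [← Finset.sum_fiberwise_of_maps_to (s := T) (t := Finset.univ)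
      (g := fun f => ((∏ i, f i : ℕ) : ZMod q)) (fun _ _ => Finset.mem_univ _)]
    apply Finset.sum_congr rfl
    intro z _
    rw [hS]
    simp only
    rw [Finset.sum_mul]
    apply Finset.sum_congr rfl
    intro f hf
    rw [Finset.mem_filter] at hf
    rw [Finset.prod_mul_distrib]
    congr 1
    rw [← hf.2]
    push_cast
    rw [map_prod]
  have h2 : ∀ ψ : DirichletCharacter ℂ q, ‖∑ p ∈ R, c p * ψ (p : ZMod q)‖ ^ (2 * k) =
      ‖∑ z : ZMod q, S z * ψ z‖ ^ 2 := by
    intro ψ
    rw [← h1 ψ, norm_pow, ← pow_mul, mul_comm k 2]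
  simp_rw [h2]
  refine (parsevalU S).trans ?_
  apply mul_le_mul_of_nonneg_left _ (Nat.cast_nonneg _)
  set W : ℕ := k.factorial * (Y ^ k / q + 1) with hW
  -- the number of tuples in a class
  have hcard : ∀ z : ZMod q, (T.filter (fun f => ((∏ i, f i : ℕ) : ZMod q) = z)).card ≤ W := by
    intro z
    have hTp : ∀ f ∈ T, ∀ i, (f i).Prime := by
      intro f hf i
      exact (hR _ (Fintype.mem_piFinset.mp hf i)).1
    set U : Finset ℕ := (Finset.range (Y ^ k + 1)).filter (fun n : ℕ => (n : ZMod q) = z) with hU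
    have hmaps : ∀ f ∈ T.filter (fun f => ((∏ i, f i : ℕ) : ZMod q) = z), (∏ i, f i) ∈ U := by
      intro f hf
      rw [Finset.mem_filter] at hf
      rw [hU, Finset.mem_filter, Finset.mem_range]
      refine ⟨?_, hf.2⟩
      have h3 : ∏ i, f i ≤ ∏ _i : Fin k, Y :=
        Finset.prod_le_prod' fun i _ => (hR _ (Fintype.mem_piFinset.mp hf.1 i)).2
      simp only [Finset.prod_const, Finset.card_univ, Fintype.card_fin] at h3
      omega
    rw [Finset.card_eq_sum_card_fiberwise hmaps]
    calc ∑ n ∈ U, ((T.filter (fun f => ((∏ i, f i : ℕ) : ZMod q) = z)).filter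
          (fun f => ∏ i, f i = n)).card ≤ ∑ _n ∈ U, k.factorial := by
          apply Finset.sum_le_sum
          intro n _
          apply card_fib
          intro f hf i
          exact hTp f (Finset.mem_filter.mp hf).1 i
      _ = U.card * k.factorial := by rw [Finset.sum_const, smul_eq_mul]
      _ ≤ (Y ^ k / q + 1) * k.factorial := Nat.mul_le_mul_right _ (card_class z _)
      _ = W := by rw [hW, mul_comm]
  have h4 : ∀ z : ZMod q, ‖S z‖ ^ 2 ≤
      (W : ℝ) * ∑ f ∈ T.filter (fun f => ((∏ i, f i : ℕ) : ZMod q) = z), ∏ i, ‖c (f i)‖ ^ 2 := by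
    intro z
    set F := T.filter (fun f => ((∏ i, f i : ℕ) : ZMod q) = z) with hF
    have e1 : ‖S z‖ ≤ ∑ f ∈ F, ‖∏ i, c (f i)‖ := norm_sum_le _ _
    have e2 : ‖S z‖ ^ 2 ≤ (∑ f ∈ F, ‖∏ i, c (f i)‖) ^ 2 := pow_le_pow_left₀ (norm_nonneg _) e1 2
    have e3 := sq_sum_le_card_mul_sum_sq (s := F) (f := fun f => ‖∏ i, c (f i)‖)
    have e4 : ∀ f ∈ F, ‖∏ i, c (f i)‖ ^ 2 = ∏ i, ‖c (f i)‖ ^ 2 := by
      intro f _
      rw [norm_prod, Finset.prod_pow]
    rw [Finset.sum_congr rfl e4] at e3
    refine (e2.trans e3).trans ?_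
    apply mul_le_mul_of_nonneg_right
    · exact_mod_cast hcard z
    · apply Finset.sum_nonneg
      intro f _
      apply Finset.prod_nonneg
      intro i _
      positivity
  calc ∑ z : ZMod q, ‖S z‖ ^ 2 ≤ ∑ z : ZMod q, (W : ℝ) *
        ∑ f ∈ T.filter (fun f => ((∏ i, f i : ℕ) : ZMod q) = z), ∏ i, ‖c (f i)‖ ^ 2 :=
        Finset.sum_le_sum fun z _ => h4 z
    _ = (W : ℝ) * ∑ f ∈ T, ∏ i, ‖c (f i)‖ ^ 2 := by
        rw [← Finset.mul_sum, Finset.sum_fiberwise_of_maps_to (s := T) (t := Finset.univ)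
          (g := fun f => ((∏ i, f i : ℕ) : ZMod q)) (fun _ _ => Finset.mem_univ _)]
    _ = (W : ℝ) * (∑ p ∈ R, ‖c p‖ ^ 2) ^ k := by
        have e1 : (∑ p ∈ R, ‖c p‖ ^ 2) ^ k = ∏ _i : Fin k, ∑ p ∈ R, ‖c p‖ ^ 2 := by simp
        rw [e1, Finset.prod_univ_sum]

/-- The moment inequality with the modulus itself. -/
theorem moment {q : ℕ} [NeZero q] (k Y : ℕ) (R : Finset ℕ) (hR : ∀ p ∈ R, p.Prime ∧ p ≤ Y)
    (c : ℕ → ℂ) :
    ∑ ψ : DirichletCharacter ℂ q, ‖∑ p ∈ R, c p * ψ (p : ZMod q)‖ ^ (2 * k) ≤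
      (q : ℝ) * ((k.factorial * (Y ^ k / q + 1) : ℕ) * (∑ p ∈ R, ‖c p‖ ^ 2) ^ k) := by
  refine (momentT k Y R hR c).trans ?_
  apply mul_le_mul_of_nonneg_right _ (by positivity)
  exact_mod_cast Nat.totient_le q

end Pool.Agent.H81.GR
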