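import Mathlib
import Pool.Agent.H81.GR.Tup
import Pool.Agent.H81.ED.Bound

/-!
# GR, Tail: the second moment of the long prime sum over the characters modulo `q`
-/

set_option autoImplicit false

open Finset
open scoped ENNReal

namespace Pool.Agent.H81.GR

open Pool.Agent.H81.ED (ZZ ZZ_le wt BB inner_le)

/-- The bound for the zeta value. -/
lemma ZZ_le_all {h : ℝ} (hh : 0 < h) : ZZ h ≤ ENNReal.ofReal (2 / min h 1) := by
  rcases le_or_gt h 1 with h1 | h1
  · rw [min_eq_left h1]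
    exact ZZ_le hh h1
  · rw [min_eq_right h1.le]
    refine le_trans ?_ (ZZ_le one_pos le_rfl)
    unfold ZZ
    apply ENNReal.tsum_le_tsum
    intro n
    unfold wt
    apply ENNReal.ofReal_le_ofReal
    apply Real.rpow_le_rpow_of_exponent_le
    · exact_mod_cast n.pos
    · linarith

open Classical in
/-- The sum over a residue class. -/
lemma class_le {q : ℕ} [NeZero q] {h b : ℝ} (hh : 0 < h) (hb : 0 ≤ b) (f : Nat.Primes → ℂ)
    (hf : ∀ p : Nat.Primes, ‖f p‖ ≤ if q < (p : ℕ) then b * ((p : ℕ) : ℝ) ^ (-(1 + h)) else 0)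
    (c : ZMod q) :
    ‖∑' p : Nat.Primes, (if ((p : ℕ) : ZMod q) = c then f p else 0)‖ ≤
      (q : ℝ)⁻¹ * (b * (1 + 2 / min h 1)) := by
  have hq : 0 < q := Nat.pos_of_ne_zero (NeZero.ne q)
  have hq0 : (0 : ℝ) < q := by exact_mod_cast hq
  have hmin : 0 < min h 1 := lt_min hh one_pos
  have h1 : ‖∑' p : Nat.Primes, (if ((p : ℕ) : ZMod q) = c then f p else 0)‖ₑ ≤
      ENNReal.ofReal b * BB q 1 h := by
    refine (enorm_tsum_le_tsum_enorm).trans ?_
    have h2 : ∀ p : Nat.Primes, ‖(if ((p : ℕ) : ZMod q) = c then f p else 0 : ℂ)‖ₑ ≤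
        ENNReal.ofReal b * (fun n : ℕ+ => if ((n : ℕ) : ZMod q) = c ∧ q < (n : ℕ) ^ 1 then
          wt h n else 0) ⟨(p : ℕ), p.2.pos⟩ := by
      intro p
      simp only [PNat.mk_coe, pow_one]
      by_cases hc : ((p : ℕ) : ZMod q) = c
      · rw [if_pos hc]
        have h3 := hf p
        by_cases hqp : q < (p : ℕ)
        · rw [if_pos hqp] at h3
          rw [if_pos ⟨hc, hqp⟩]
          unfold wt
          rw [← ENNReal.ofReal_mul hb, ← ofReal_norm_eq_enorm]
          exact ENNReal.ofReal_le_ofReal h3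
        · rw [if_neg hqp] at h3
          have h4 : f p = 0 := norm_le_zero_iff.mp h3
          rw [h4]
          simp
      · rw [if_neg hc]
        simp
    refine (ENNReal.tsum_le_tsum h2).trans ?_
    rw [ENNReal.tsum_mul_left]
    gcongr
    have hinj : Function.Injective (fun p : Nat.Primes => (⟨(p : ℕ), p.2.pos⟩ : ℕ+)) := by
      intro p r hpr
      apply Subtype.ext
      exact congrArg (fun n : ℕ+ => (n : ℕ)) hpr
    refine (ENNReal.tsum_comp_le_tsum_of_injective hinj (fun n : ℕ+ =>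
      if ((n : ℕ) : ZMod q) = c ∧ q < (n : ℕ) ^ 1 then wt h n else 0)).trans ?_
    exact inner_le hq one_pos hh c
  have h2 : BB q 1 h ≤ ENNReal.ofReal ((q : ℝ)⁻¹ * (1 + 2 / min h 1)) := by
    unfold BB
    have e1 : (q : ℝ) ^ (-(1 / ((1 : ℕ) : ℝ))) = (q : ℝ)⁻¹ := by
      rw [Nat.cast_one, div_one, Real.rpow_neg_one]
    rw [e1, mul_add, mul_one, ENNReal.ofReal_add (by positivity) (by positivity),
      ENNReal.ofReal_mul (p := (q : ℝ)⁻¹) (by positivity)]
    gcongr
    exact ZZ_le_all hh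
  have h3 : ‖∑' p : Nat.Primes, (if ((p : ℕ) : ZMod q) = c then f p else 0)‖ₑ ≤
      ENNReal.ofReal ((q : ℝ)⁻¹ * (b * (1 + 2 / min h 1))) := by
    refine h1.trans ?_
    have e1 : (q : ℝ)⁻¹ * (b * (1 + 2 / min h 1)) = b * ((q : ℝ)⁻¹ * (1 + 2 / min h 1)) := by ring
    rw [e1, ENNReal.ofReal_mul hb]
    gcongr
  rw [← ofReal_norm_eq_enorm] at h3
  exact (ENNReal.ofReal_le_ofReal_iff (by positivity)).mp h3

open Classical in
/-- The second moment of the tail. -/
theorem tail {q : ℕ} [NeZero q] {h b : ℝ} (hh : 0 < h) (hb : 0 ≤ b) (f : Nat.Primes → ℂ)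
    (hf : ∀ p : Nat.Primes, ‖f p‖ ≤ if q < (p : ℕ) then b * ((p : ℕ) : ℝ) ^ (-(1 + h)) else 0) :
    ∑ ψ : DirichletCharacter ℂ q, ‖∑' p : Nat.Primes, f p * ψ ((p : ℕ) : ZMod q)‖ ^ 2 ≤
      (b * (1 + 2 / min h 1)) ^ 2 := by
  have hq : 0 < q := Nat.pos_of_ne_zero (NeZero.ne q)
  have hq0 : (0 : ℝ) < q := by exact_mod_cast hq
  have hmin : 0 < min h 1 := lt_min hh one_pos
  have hsum : Summable fun p : Nat.Primes => b * ((p : ℕ) : ℝ) ^ (-(1 + h)) :=
    (((Real.summable_nat_rpow (p := -(1 + h))).mpr (by linarith)).comp_injective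
      Subtype.coe_injective).mul_left b
  have hfs : Summable f := by
    apply Summable.of_norm_bounded hsum
    intro p
    refine (hf p).trans ?_
    split_ifs
    · exact le_rfl
    · positivity
  set S : ZMod q → ℂ := fun c => ∑' p : Nat.Primes, (if ((p : ℕ) : ZMod q) = c then f p else 0)
    with hS
  have h1 : ∀ ψ : DirichletCharacter ℂ q, ∑' p : Nat.Primes, f p * ψ ((p : ℕ) : ZMod q) =
      ∑ c : ZMod q, S c * ψ c := by
    intro ψ
    have e1 : ∀ p : Nat.Primes, f p * ψ ((p : ℕ) : ZMod q) =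
        ∑ c : ZMod q, (if ((p : ℕ) : ZMod q) = c then f p else 0) * ψ c := by
      intro p
      rw [Finset.sum_eq_single ((p : ℕ) : ZMod q)]
      · rw [if_pos rfl]
      · intro c _ hc
        rw [if_neg (fun h => hc h.symm), zero_mul]
      · intro h
        exact absurd (Finset.mem_univ _) h
    simp_rw [e1]
    rw [Summable.tsum_finsetSum]
    · apply Finset.sum_congr rfl
      intro c _
      rw [hS]
      simp only
      rw [tsum_mul_right]
    · intro c _
      apply Summable.mul_right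
      apply Summable.of_norm_bounded hfs.norm
      intro p
      split_ifs
      · exact le_rfl
      · simp
  simp_rw [h1]
  refine (parseval S).trans ?_
  have h2 : ∀ c : ZMod q, ‖S c‖ ^ 2 ≤ ((q : ℝ)⁻¹ * (b * (1 + 2 / min h 1))) ^ 2 := fun c =>
    pow_le_pow_left₀ (norm_nonneg _) (class_le hh hb f hf c) 2
  calc (q : ℝ) * ∑ c : ZMod q, ‖S c‖ ^ 2 ≤
        (q : ℝ) * ∑ _c : ZMod q, ((q : ℝ)⁻¹ * (b * (1 + 2 / min h 1))) ^ 2 := by
        apply mul_le_mul_of_nonneg_left _ hq0.le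
        exact Finset.sum_le_sum fun c _ => h2 c
    _ = (b * (1 + 2 / min h 1)) ^ 2 := by
        rw [Finset.sum_const, Finset.card_univ, ZMod.card, nsmul_eq_mul]
        field_simp

end Pool.Agent.H81.GR
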