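import Mathlib
import Pool.Agent.H81.GR.Tail
import Pool.Agent.H81.ED.Fin
import Pool.Agent.H91.Edge.Ext1

/-!
# GR, Log: the logarithm of the twisted Euler product: small primes, blocks, tail
-/

set_option autoImplicit false

open Finset Complex

namespace Pool.Agent.H81.GR

open Pool.Agent.H89.EdgeBasic
open Pool.Agent.H91.Edge (zc zc_nonneg summable_zc mertens)
open Pool.Agent.H81.ED (lc norm_lc_le TS EE nu fam_char hasProd_tw EE_nu EE_le)

/-- The primes of a dyadic block. -/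
def RR (a : ℕ) : Finset ℕ := (Finset.Ioc (2 ^ a) (2 ^ (a + 1))).filter Nat.Prime

/-- The prime coefficients. -/
noncomputable def cc (N : ℕ) (P : ℕ → Polynomial ℂ) (s : ℂ) (n : ℕ) : ℂ :=
  if hn : n.Prime then lc N P s (⟨n, hn⟩, 1) else 0

/-- The part of the long sum. -/
noncomputable def ff (N : ℕ) (P : ℕ → Polynomial ℂ) (s : ℂ) (a1 : ℕ) (p : Nat.Primes) : ℂ :=
  if 2 ^ a1 < (p : ℕ) then lc N P s (p, 1) else 0

variable {N i b : ℕ} {P : ℕ → Polynomial ℂ}

lemma zc_one {h : ℝ} (p : Nat.Primes) : zc h (p, 1) = ((p : ℕ) : ℝ) ^ (-(1 + h)) := by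
  unfold zc
  simp

lemma norm_cc_le (H : Hyp N i b P) {s : ℂ} {h : ℝ} (hs : s.re = 1 + (i:ℝ)/2 + h) (n : ℕ) :
    ‖cc N P s n‖ ≤ b * (n : ℝ) ^ (-(1 + h)) := by
  unfold cc
  split_ifs with hn
  · have h1 := norm_lc_le H hs (⟨n, hn⟩, 1)
    refine h1.trans (le_of_eq ?_)
    exact congrArg (fun y => (b:ℝ) * y) (zc_one (h := h) ⟨n, hn⟩)
  · rw [norm_zero]
    positivity

lemma norm_ff_le (H : Hyp N i b P) {s : ℂ} {h : ℝ} (hs : s.re = 1 + (i:ℝ)/2 + h) {q a1 : ℕ}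
    (hq : q ≤ 2 ^ a1) (p : Nat.Primes) :
    ‖ff N P s a1 p‖ ≤ if q < (p : ℕ) then (b:ℝ) * ((p : ℕ) : ℝ) ^ (-(1 + h)) else 0 := by
  unfold ff
  by_cases h1 : 2 ^ a1 < (p : ℕ)
  · rw [if_pos h1, if_pos (by omega)]
    have h2 := norm_lc_le H hs (p, 1)
    rw [zc_one] at h2
    exact h2
  · rw [if_neg h1, norm_zero]
    split_ifs <;> positivity

/-- The higher powers. -/
lemma zc_high {h : ℝ} (hh : 0 < h) (x : Nat.Primes × ℕ) (hx : x.2 ≠ 1) :
    zc h x ≤ (((x.1 : ℕ) : ℝ) ^ (-(2 : ℝ))) * (4 * (1 / 2 : ℝ) ^ x.2) := by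
  unfold zc
  rcases Nat.eq_zero_or_pos x.2 with h0 | h0
  · rw [h0]
    simp only [Nat.cast_zero, div_zero]
    positivity
  · have hp2 : (2 : ℝ) ≤ ((x.1 : ℕ) : ℝ) := by exact_mod_cast x.1.2.two_le
    have hp0 : (0 : ℝ) < ((x.1 : ℕ) : ℝ) := by linarith
    obtain ⟨k, hk⟩ : ∃ k, x.2 = k + 2 := ⟨x.2 - 2, by omega⟩
    rw [hk]
    set r : ℝ := ((x.1 : ℕ) : ℝ) ^ (-(1 + h)) with hr
    have hr0 : 0 ≤ r := by positivity
    have hr1 : r ≤ ((x.1 : ℕ) : ℝ)⁻¹ := by
      rw [← Real.rpow_neg_one]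
      apply Real.rpow_le_rpow_of_exponent_le
      · linarith
      · linarith
    have hr2 : ((x.1 : ℕ) : ℝ)⁻¹ ≤ 1 / 2 := by
      rw [one_div]
      exact inv_anti₀ (by norm_num) hp2
    have e1 : r ^ (k + 2) ≤ (1 / 2 : ℝ) ^ k * (((x.1 : ℕ) : ℝ)⁻¹) ^ 2 := by
      rw [pow_add]
      exact mul_le_mul (pow_le_pow_left₀ hr0 (hr1.trans hr2) k) (pow_le_pow_left₀ hr0 hr1 2)
        (by positivity) (by positivity)
    have e2 : ((x.1 : ℕ) : ℝ) ^ (-(2 : ℝ)) = (((x.1 : ℕ) : ℝ)⁻¹) ^ 2 := by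
      rw [Real.rpow_neg hp0.le, inv_pow]
      congr 1
      exact Real.rpow_natCast _ 2
    rw [e2]
    have e3 : (4 * (1 / 2 : ℝ) ^ (k + 2)) = (1 / 2 : ℝ) ^ k := by
      rw [pow_add]
      ring
    rw [e3]
    have e4 : (1 : ℝ) ≤ ((k + 2 : ℕ) : ℝ) := by exact_mod_cast (by omega : 1 ≤ k + 2)
    have e5 : r ^ (k + 2) / ((k + 2 : ℕ) : ℝ) ≤ r ^ (k + 2) :=
      div_le_self (by positivity) e4
    linarith

/-- The constant of the higher powers. -/
noncomputable def C0 : ℝ := ∑' x : Nat.Primes × ℕ,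
  (((x.1 : ℕ) : ℝ) ^ (-(2 : ℝ))) * (4 * (1 / 2 : ℝ) ^ x.2)

lemma summable_C0 : Summable fun x : Nat.Primes × ℕ =>
    (((x.1 : ℕ) : ℝ) ^ (-(2 : ℝ))) * (4 * (1 / 2 : ℝ) ^ x.2) := by
  apply Summable.mul_of_nonneg (f := fun p : Nat.Primes => (((p : ℕ) : ℝ) ^ (-(2 : ℝ))))
    (g := fun k : ℕ => (4 * (1 / 2 : ℝ) ^ k))
  · exact ((Real.summable_nat_rpow (p := -(2:ℝ))).mpr (by norm_num)).comp_injective
      Subtype.coe_injective
  · exact (summable_geometric_of_lt_one (by norm_num) (by norm_num)).mul_left 4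
  · intro p
    positivity
  · intro k
    positivity

/-- The majorant of the small part. -/
lemma small_le {h : ℝ} (hh : 0 < h) (a0 : ℕ) :
    ∑' x : Nat.Primes × ℕ, (if x.2 = 1 ∧ 2 ^ a0 < (x.1 : ℕ) then 0 else zc h x) ≤
      ∑ p ∈ (Finset.range (2 ^ a0 + 1)).filter Nat.Prime, (p : ℝ)⁻¹ + C0 := by
  set Rs := (Finset.range (2 ^ a0 + 1)).filter Nat.Prime with hRs
  -- the finite part
  set F : Nat.Primes × ℕ → ℝ := fun x => if x.2 = 1 ∧ (x.1 : ℕ) ≤ 2 ^ a0 then zc h x else 0 with hF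
  set G : Nat.Primes × ℕ → ℝ := fun x =>
    (((x.1 : ℕ) : ℝ) ^ (-(2 : ℝ))) * (4 * (1 / 2 : ℝ) ^ x.2) with hG
  have hz := summable_zc hh
  have hFs : Summable F := by
    apply Summable.of_nonneg_of_le _ _ hz
    · intro x
      rw [hF]
      simp only
      split_ifs
      · exact zc_nonneg h x
      · exact le_rfl
    · intro x
      rw [hF]
      simp only
      split_ifs
      · exact le_rfl
      · exact zc_nonneg h x
  have h1 : ∑' x : Nat.Primes × ℕ, (if x.2 = 1 ∧ 2 ^ a0 < (x.1 : ℕ) then 0 else zc h x) ≤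
      ∑' x, (F x + G x) := by
    apply Summable.tsum_le_tsum _ _ (hFs.add summable_C0)
    · intro x
      rw [hF]
      simp only
      by_cases hx : x.2 = 1
      · by_cases hx2 : 2 ^ a0 < (x.1 : ℕ)
        · rw [if_pos ⟨hx, hx2⟩, if_neg (fun h => by omega)]
          positivity
        · rw [if_neg (fun h => hx2 h.2), if_pos ⟨hx, by omega⟩]
          have : 0 ≤ (((x.1 : ℕ) : ℝ) ^ (-(2 : ℝ))) * (4 * (1 / 2 : ℝ) ^ x.2) := by positivity
          linarith
      · rw [if_neg (fun h => hx h.1), if_neg (fun h => hx h.1)]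
        have := zc_high hh x hx
        linarith
    · apply Summable.of_nonneg_of_le _ _ hz
      · intro x
        split_ifs
        · exact le_rfl
        · exact zc_nonneg h x
      · intro x
        split_ifs
        · exact zc_nonneg h x
        · exact le_rfl
  rw [hFs.tsum_add summable_C0] at h1
  have h2 : ∑' x, F x ≤ ∑ p ∈ Rs, (p : ℝ)⁻¹ := by
    set ι : {p // p ∈ Rs} → Nat.Primes × ℕ := fun p => (⟨p.1, (Finset.mem_filter.mp p.2).2⟩, 1) with hι
    have hinj : Function.Injective ι := by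
      intro p r hpr
      apply Subtype.ext
      have := congrArg (fun y : Nat.Primes × ℕ => ((y.1 : Nat.Primes) : ℕ)) hpr
      exact this
    have hsupp : Function.support F ⊆ Set.range ι := by
      intro x hx
      rw [Function.mem_support, hF] at hx
      simp only at hx
      have h3 : x.2 = 1 ∧ (x.1 : ℕ) ≤ 2 ^ a0 := by
        by_contra hcon
        exact hx (if_neg hcon)
      refine ⟨⟨(x.1 : ℕ), ?_⟩, ?_⟩
      · rw [hRs, Finset.mem_filter, Finset.mem_range]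
        exact ⟨by omega, x.1.2⟩
      · rw [hι]
        apply Prod.ext
        · rfl
        · exact h3.1.symm
    rw [← hinj.tsum_eq hsupp, tsum_fintype, ← Finset.sum_coe_sort Rs]
    apply Finset.sum_le_sum
    intro p _
    rw [hF, hι]
    simp only
    have hpp := (Finset.mem_filter.mp p.2).2
    have hp0 : (1:ℝ) ≤ ((p : ℕ) : ℝ) := by exact_mod_cast hpp.one_le
    have e1 : zc h ((⟨(p : ℕ), hpp⟩ : Nat.Primes), 1) ≤ ((p : ℕ) : ℝ)⁻¹ := by
      refine (zc_one (h := h) ⟨(p : ℕ), hpp⟩).le.trans ?_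
      rw [← Real.rpow_neg_one]
      apply Real.rpow_le_rpow_of_exponent_le
      · exact hp0
      · linarith
    split_ifs
    · exact e1
    · positivity
  have h3 : ∑' x, G x = C0 := rfl
  linarith

end Pool.Agent.H81.GR
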