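import Mathlib
import Pool.Agent.H81.GR.Log

/-!
# GR, Dec: decomposition of the logarithm
-/

set_option autoImplicit false

open Finset Complex

namespace Pool.Agent.H81.GR

open Pool.Agent.H89.EdgeBasic
open Pool.Agent.H91.Edge (zc zc_nonneg summable_zc mertens)
open Pool.Agent.H81.ED (lc norm_lc_le TS EE nu fam_char hasProd_tw EE_nu EE_le)

variable {N i b : ℕ} {P : ℕ → Polynomial ℂ}

/-- The logarithm of the twisted product. -/
noncomputable def TT (N : ℕ) (P : ℕ → Polynomial ℂ) (s : ℂ) {q : ℕ} (ψ : DirichletCharacter ℂ q) : ℂ :=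
  TS (fun (ψ : DirichletCharacter ℂ q) (n : ℕ) => ψ n) (lc N P s) nu ψ

lemma summable_g (H : Hyp N i b P) {s : ℂ} {h : ℝ} (hh : 0 < h) (hs : s.re = 1 + (i:ℝ)/2 + h)
    {q : ℕ} (ψ : DirichletCharacter ℂ q) :
    Summable fun p : Nat.Primes => lc N P s (p, 1) * ψ ((p : ℕ) : ZMod q) := by
  have hsum : Summable fun p : Nat.Primes => (b : ℝ) * ((p : ℕ) : ℝ) ^ (-(1 + h)) :=
    (((Real.summable_nat_rpow (p := -(1 + h))).mpr (by linarith)).comp_injective
      Subtype.coe_injective).mul_left (b : ℝ)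
  apply Summable.of_norm_bounded hsum
  intro p
  have h1 := norm_lc_le H hs (p, 1)
  rw [zc_one] at h1
  rw [norm_mul]
  exact (mul_le_of_le_one_right (norm_nonneg _) (ψ.norm_le_one _)).trans h1

/-- One block. -/
lemma block (N : ℕ) (P : ℕ → Polynomial ℂ) (s : ℂ) {q : ℕ} (ψ : DirichletCharacter ℂ q) (a : ℕ) :
    ∑' p : Nat.Primes, (if 2 ^ a < (p : ℕ) ∧ (p : ℕ) ≤ 2 ^ (a + 1) then
      lc N P s (p, 1) * ψ ((p : ℕ) : ZMod q) else 0) =
    ∑ p ∈ RR a, cc N P s p * ψ (p : ZMod q) := by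
  have hpr : ∀ p : {p // p ∈ RR a}, (p : ℕ).Prime := fun p => (Finset.mem_filter.mp p.2).2
  set ι : {p // p ∈ RR a} → Nat.Primes := fun p => ⟨p.1, hpr p⟩ with hι
  have hinj : Function.Injective ι := by
    intro p r hpr
    apply Subtype.ext
    exact congrArg (fun y : Nat.Primes => (y : ℕ)) hpr
  set F : Nat.Primes → ℂ := fun p => (if 2 ^ a < (p : ℕ) ∧ (p : ℕ) ≤ 2 ^ (a + 1) then
      lc N P s (p, 1) * ψ ((p : ℕ) : ZMod q) else 0) with hF
  have hsupp : Function.support F ⊆ Set.range ι := by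
    intro x hx
    rw [Function.mem_support, hF] at hx
    simp only at hx
    have h3 : 2 ^ a < (x : ℕ) ∧ (x : ℕ) ≤ 2 ^ (a + 1) := by
      by_contra hcon
      exact hx (if_neg hcon)
    refine ⟨⟨(x : ℕ), ?_⟩, ?_⟩
    · unfold RR
      rw [Finset.mem_filter, Finset.mem_Ioc]
      exact ⟨h3, x.2⟩
    · rfl
  rw [← hinj.tsum_eq hsupp, tsum_fintype, ← Finset.sum_coe_sort (RR a)]
  apply Finset.sum_congr rfl
  intro p _
  have h3 := Finset.mem_Ioc.mp (Finset.mem_filter.mp p.2).1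
  rw [hF, hι]
  simp only
  rw [if_pos h3]
  unfold cc
  rw [dif_pos (hpr p)]

/-- Summation over the blocks. -/
lemma blocks (H : Hyp N i b P) {s : ℂ} {h : ℝ} (hh : 0 < h) (hs : s.re = 1 + (i:ℝ)/2 + h)
    {q : ℕ} (ψ : DirichletCharacter ℂ q) (a0 a1 : ℕ) (ha : a0 ≤ a1) :
    ∑' p : Nat.Primes, (if 2 ^ a0 < (p : ℕ) then lc N P s (p, 1) * ψ ((p : ℕ) : ZMod q) else 0) =
    ∑ a ∈ Finset.Ico a0 a1, ∑ p ∈ RR a, cc N P s p * ψ (p : ZMod q) +
      ∑' p : Nat.Primes, ff N P s a1 p * ψ ((p : ℕ) : ZMod q) := by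
  have hg := summable_g H hh hs ψ
  induction a1, ha using Nat.le_induction with
  | base =>
    rw [Finset.Ico_self, Finset.sum_empty, zero_add]
    apply tsum_congr
    intro p
    unfold ff
    split_ifs
    · rfl
    · rw [zero_mul]
  | succ m hm ih =>
    rw [ih, Finset.sum_Ico_succ_top hm, add_assoc]
    congr 1
    rw [← block N P s ψ m]
    have e1 : Summable fun p : Nat.Primes => (if 2 ^ m < (p : ℕ) ∧ (p : ℕ) ≤ 2 ^ (m + 1) then
      lc N P s (p, 1) * ψ ((p : ℕ) : ZMod q) else 0) := by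
      apply Summable.of_norm_bounded hg.norm
      intro p
      split_ifs
      · exact le_rfl
      · rw [norm_zero]
        exact norm_nonneg _
    have e2 : Summable fun p : Nat.Primes => ff N P s (m + 1) p * ψ ((p : ℕ) : ZMod q) := by
      apply Summable.of_norm_bounded hg.norm
      intro p
      unfold ff
      split_ifs
      · exact le_rfl
      · rw [zero_mul, norm_zero]
        exact norm_nonneg _
    rw [← e1.tsum_add e2]
    apply tsum_congr
    intro p
    unfold ff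
    have hpow : 2 ^ m < 2 ^ (m + 1) := Nat.pow_lt_pow_right (by norm_num) (by omega)
    by_cases h1 : 2 ^ m < (p : ℕ)
    · by_cases h2 : (p : ℕ) ≤ 2 ^ (m + 1)
      · rw [if_pos h1, if_pos ⟨h1, h2⟩, if_neg (by omega)]
        ring
      · rw [if_pos h1, if_neg (fun h => h2 h.2), if_pos (by omega)]
        ring
    · rw [if_neg h1, if_neg (fun h => h1 h.1), if_neg (by omega)]
      ring

/-- The decomposition. -/
theorem decomp (H : Hyp N i b P) {s : ℂ} {h : ℝ} (hh : 0 < h) (hs : s.re = 1 + (i:ℝ)/2 + h)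
    {q : ℕ} (ψ : DirichletCharacter ℂ q) (a0 a1 : ℕ) (ha : a0 ≤ a1) :
    ‖TT N P s ψ - (∑ a ∈ Finset.Ico a0 a1, ∑ p ∈ RR a, cc N P s p * ψ (p : ZMod q) +
      ∑' p : Nat.Primes, ff N P s a1 p * ψ ((p : ℕ) : ZMod q))‖ ≤
    b * (∑ p ∈ (Finset.range (2 ^ a0 + 1)).filter Nat.Prime, (p : ℝ)⁻¹ + C0) := by
  rw [← blocks H hh hs ψ a0 a1 ha]
  set c : Nat.Primes × ℕ → ℂ := fun x => lc N P s x * EE (fun (ψ : DirichletCharacter ℂ q) (n : ℕ) => ψ n) (nu x) ψ with hc
  have hEE : ∀ x : ℕ × ℕ, ‖EE (fun (ψ : DirichletCharacter ℂ q) (n : ℕ) => ψ n) x ψ‖ ≤ 1 := by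
    intro x
    unfold EE
    rw [norm_mul, RCLike.norm_conj]
    exact mul_le_one₀ (ψ.norm_le_one _) (norm_nonneg _) (ψ.norm_le_one _)
  have hcn : ∀ x, ‖c x‖ ≤ b * zc h x := by
    intro x
    rw [hc]
    simp only
    rw [norm_mul]
    exact (mul_le_of_le_one_right (norm_nonneg _) (hEE _)).trans (norm_lc_le H hs x)
  have hzs : Summable fun x => (b : ℝ) * zc h x := (summable_zc hh).mul_left _
  have hcs : Summable c := Summable.of_norm_bounded hzs hcn
  have hTT : TT N P s ψ = ∑' x, c x := rfl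
  set U : Nat.Primes × ℕ → ℂ := fun x => if x.2 = 1 ∧ 2 ^ a0 < (x.1 : ℕ) then c x else 0 with hU
  set V : Nat.Primes × ℕ → ℂ := fun x => if x.2 = 1 ∧ 2 ^ a0 < (x.1 : ℕ) then 0 else c x with hV
  have hUs : Summable U := by
    apply Summable.of_norm_bounded hcs.norm
    intro x
    rw [hU]
    simp only
    split_ifs
    · exact le_rfl
    · rw [norm_zero]
      exact norm_nonneg _
  have hVs : Summable V := by
    apply Summable.of_norm_bounded hcs.norm
    intro x
    rw [hV]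
    simp only
    split_ifs
    · rw [norm_zero]
      exact norm_nonneg _
    · exact le_rfl
  have h1 : TT N P s ψ = ∑' x, U x + ∑' x, V x := by
    rw [hTT, ← hUs.tsum_add hVs]
    apply tsum_congr
    intro x
    rw [hU, hV]
    simp only
    split_ifs <;> ring
  have h2 : ∑' x, U x = ∑' p : Nat.Primes,
      (if 2 ^ a0 < (p : ℕ) then lc N P s (p, 1) * ψ ((p : ℕ) : ZMod q) else 0) := by
    set ι : Nat.Primes → Nat.Primes × ℕ := fun p => (p, 1) with hι
    have hinj : Function.Injective ι := by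
      intro p r hpr
      exact congrArg Prod.fst hpr
    have hsupp : Function.support U ⊆ Set.range ι := by
      intro x hx
      rw [Function.mem_support, hU] at hx
      simp only at hx
      have h3 : x.2 = 1 ∧ 2 ^ a0 < (x.1 : ℕ) := by
        by_contra hcon
        exact hx (if_neg hcon)
      exact ⟨x.1, Prod.ext rfl h3.1.symm⟩
    rw [← hinj.tsum_eq hsupp]
    apply tsum_congr
    intro p
    rw [hU, hι, hc]
    simp only [true_and]
    split_ifs
    · unfold EE nu
      simp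
    · rfl
  rw [h1, h2, add_sub_cancel_left]
  have h3 : ∀ x, ‖V x‖ ≤ (b : ℝ) * (if x.2 = 1 ∧ 2 ^ a0 < (x.1 : ℕ) then 0 else zc h x) := by
    intro x
    rw [hV]
    simp only
    split_ifs
    · simp
    · exact hcn x
  have hs3 : Summable fun x : Nat.Primes × ℕ =>
      (if x.2 = 1 ∧ 2 ^ a0 < (x.1 : ℕ) then 0 else zc h x) := by
    apply Summable.of_nonneg_of_le _ _ (summable_zc hh)
    · intro x
      split_ifs
      · exact le_rfl
      · exact zc_nonneg h x
    · intro x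
      split_ifs
      · exact zc_nonneg h x
      · exact le_rfl
  refine (tsum_of_norm_bounded (hs3.mul_left (b : ℝ)).hasSum h3).trans ?_
  rw [tsum_mul_left]
  exact mul_le_mul_of_nonneg_left (small_le hh a0) (Nat.cast_nonneg _)

end Pool.Agent.H81.GR
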