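import Mathlib
import Pool.Agent.H81.GR.Dec

/-!
# GR, Cnt: the number of bad characters for one block and for the tail
-/

set_option autoImplicit false

open Finset Complex

namespace Pool.Agent.H81.GR

open Pool.Agent.H89.EdgeBasic
open Pool.Agent.H91.Edge (zc zc_nonneg summable_zc mertens)
open Pool.Agent.H81.ED (lc norm_lc_le TS EE nu fam_char hasProd_tw EE_nu EE_le)

open Classical in
/-- Markov. -/
lemma markov {q : ℕ} [NeZero q] (g : DirichletCharacter ℂ q → ℂ) {τ K : ℝ} (hτ : 0 ≤ τ) (m : ℕ)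
    (h : ∑ ψ : DirichletCharacter ℂ q, ‖g ψ‖ ^ m ≤ K) :
    ((Finset.univ.filter (fun ψ : DirichletCharacter ℂ q => τ < ‖g ψ‖)).card : ℝ) * τ ^ m ≤ K := by
  refine le_trans ?_ h
  rw [← nsmul_eq_mul, ← Finset.sum_const]
  calc ∑ _ψ ∈ Finset.univ.filter (fun ψ : DirichletCharacter ℂ q => τ < ‖g ψ‖), τ ^ m ≤
        ∑ ψ ∈ Finset.univ.filter (fun ψ : DirichletCharacter ℂ q => τ < ‖g ψ‖), ‖g ψ‖ ^ m := by
        apply Finset.sum_le_sum
        intro ψ hψ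
        exact pow_le_pow_left₀ hτ (Finset.mem_filter.mp hψ).2.le m
    _ ≤ ∑ ψ : DirichletCharacter ℂ q, ‖g ψ‖ ^ m :=
        Finset.sum_le_sum_of_subset_of_nonneg (Finset.filter_subset _ _)
          (fun ψ _ _ => by positivity)

variable {N i b : ℕ} {P : ℕ → Polynomial ℂ}

lemma sum_sq_le (H : Hyp N i b P) {s : ℂ} {h : ℝ} (hh : 0 < h) (hs : s.re = 1 + (i:ℝ)/2 + h)
    (a : ℕ) : ∑ p ∈ RR a, ‖cc N P s p‖ ^ 2 ≤ (b : ℝ) ^ 2 * (1 / 2 ^ a) := by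
  have h1 : ∀ p ∈ RR a, ‖cc N P s p‖ ^ 2 ≤ (b : ℝ) ^ 2 * (1 / 2 ^ a) ^ 2 := by
    intro p hp
    have h2 := Finset.mem_Ioc.mp (Finset.mem_filter.mp hp).1
    have hp1 : (2 : ℝ) ^ a ≤ p := by exact_mod_cast h2.1.le
    have hp0 : (1 : ℝ) ≤ p := le_trans (one_le_pow₀ (by norm_num)) hp1
    have h3 : ‖cc N P s p‖ ≤ b * (1 / 2 ^ a) := by
      refine (norm_cc_le H hs p).trans ?_
      apply mul_le_mul_of_nonneg_left _ (Nat.cast_nonneg _)
      calc (p : ℝ) ^ (-(1 + h)) ≤ (p : ℝ) ^ (-1 : ℝ) := by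
            apply Real.rpow_le_rpow_of_exponent_le hp0
            linarith
        _ = (p : ℝ)⁻¹ := Real.rpow_neg_one _
        _ ≤ (2 ^ a)⁻¹ := inv_anti₀ (by positivity) hp1
        _ = 1 / 2 ^ a := by rw [one_div]
    calc ‖cc N P s p‖ ^ 2 ≤ (b * (1 / 2 ^ a)) ^ 2 := pow_le_pow_left₀ (norm_nonneg _) h3 2
      _ = (b : ℝ) ^ 2 * (1 / 2 ^ a) ^ 2 := by rw [mul_pow]
  have hcard : ((RR a).card : ℝ) ≤ 2 ^ a := by
    have : (RR a).card ≤ 2 ^ a := by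
      unfold RR
      refine (Finset.card_filter_le _ _).trans ?_
      rw [Nat.card_Ioc, pow_succ]
      omega
    exact_mod_cast this
  calc ∑ p ∈ RR a, ‖cc N P s p‖ ^ 2 ≤ ∑ _p ∈ RR a, (b : ℝ) ^ 2 * (1 / 2 ^ a) ^ 2 :=
        Finset.sum_le_sum h1
    _ = (RR a).card * ((b : ℝ) ^ 2 * (1 / 2 ^ a) ^ 2) := by rw [Finset.sum_const, nsmul_eq_mul]
    _ ≤ 2 ^ a * ((b : ℝ) ^ 2 * (1 / 2 ^ a) ^ 2) := mul_le_mul_of_nonneg_right hcard (by positivity)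
    _ = (b : ℝ) ^ 2 * (1 / 2 ^ a) := by
        field_simp

/-- The moment of one block. -/
lemma block_moment (H : Hyp N i b P) {s : ℂ} {h : ℝ} (hh : 0 < h) (hs : s.re = 1 + (i:ℝ)/2 + h)
    {q : ℕ} [NeZero q] (a k : ℕ) (hk : q ≤ (2 ^ a) ^ k) :
    ∑ ψ : DirichletCharacter ℂ q, ‖∑ p ∈ RR a, cc N P s p * ψ (p : ZMod q)‖ ^ (2 * k) ≤
      2 * (k.factorial * (2 * (b : ℝ) ^ 2) ^ k) := by
  have hq : 0 < q := Nat.pos_of_ne_zero (NeZero.ne q)
  have hq0 : (0 : ℝ) < q := by exact_mod_cast hq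
  have h1 := moment (q := q) k (2 ^ (a + 1)) (RR a) (by
    intro p hp
    have h2 := Finset.mem_Ioc.mp (Finset.mem_filter.mp hp).1
    exact ⟨(Finset.mem_filter.mp hp).2, h2.2⟩) (cc N P s)
  refine h1.trans ?_
  have hY : q ≤ (2 ^ (a + 1)) ^ k :=
    hk.trans (Nat.pow_le_pow_left (Nat.pow_le_pow_right (by norm_num) (by omega)) k)
  have h2 : ((((2 ^ (a + 1)) ^ k / q + 1 : ℕ)) : ℝ) ≤ 2 * ((2 ^ (a + 1)) ^ k / q) := by
    have e1 : (((2 ^ (a + 1)) ^ k / q : ℕ) : ℝ) ≤ (((2 ^ (a + 1)) ^ k : ℕ) : ℝ) / q := Nat.cast_div_le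
    have e2 : (1 : ℝ) ≤ (((2 ^ (a + 1)) ^ k : ℕ) : ℝ) / q := by
      rw [le_div_iff₀ hq0, one_mul]
      exact_mod_cast hY
    push_cast at e1 e2 ⊢
    linarith
  have h3 : (∑ p ∈ RR a, ‖cc N P s p‖ ^ 2) ^ k ≤ ((b : ℝ) ^ 2 * (1 / 2 ^ a)) ^ k :=
    pow_le_pow_left₀ (Finset.sum_nonneg fun p _ => by positivity) (sum_sq_le H hh hs a) k
  calc (q : ℝ) * (((k.factorial * ((2 ^ (a + 1)) ^ k / q + 1) : ℕ) : ℝ) *
        (∑ p ∈ RR a, ‖cc N P s p‖ ^ 2) ^ k) ≤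
        (q : ℝ) * ((k.factorial * (2 * ((2 ^ (a + 1)) ^ k / q))) *
          ((b : ℝ) ^ 2 * (1 / 2 ^ a)) ^ k) := by
        apply mul_le_mul_of_nonneg_left _ hq0.le
        apply mul_le_mul _ h3 (by positivity) (by positivity)
        rw [Nat.cast_mul]
        exact mul_le_mul_of_nonneg_left h2 (Nat.cast_nonneg _)
    _ = 2 * (k.factorial * (2 * (b : ℝ) ^ 2) ^ k) := by
        have e1 : ((b : ℝ) ^ 2 * (1 / 2 ^ a)) ^ k * (2 ^ (a + 1)) ^ k = (2 * (b : ℝ) ^ 2) ^ k := by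
          rw [← mul_pow]
          congr 1
          have e0 : (2 : ℝ) ^ (a + 1) = 2 * 2 ^ a := by ring
          have e2 : (2 : ℝ) ^ a ≠ 0 := by positivity
          rw [e0]
          field_simp
        calc (q : ℝ) * ((k.factorial * (2 * ((2 ^ (a + 1)) ^ k / q))) *
              ((b : ℝ) ^ 2 * (1 / 2 ^ a)) ^ k) =
              2 * (k.factorial * (((b : ℝ) ^ 2 * (1 / 2 ^ a)) ^ k * (2 ^ (a + 1)) ^ k)) := by
              field_simp
          _ = _ := by rw [e1]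

open Classical in
/-- The bad characters of one block. -/
lemma block_bad (H : Hyp N i b P) {s : ℂ} {h : ℝ} (hh : 0 < h) (hs : s.re = 1 + (i:ℝ)/2 + h)
    {q B : ℕ} [NeZero q] (hbB : b ≤ B) {ε A : ℝ} (hε : 0 < ε) (hA : 16 / ε + 2 ≤ A) {a : ℕ}
    (hq1 : 1 ≤ Real.log (Real.log q)) (hq2 : 2 * ((B : ℝ) + 1) ^ 2 ≤ Real.log q)
    (_hq3 : A * Real.log (Real.log q) ≤ Real.log q)
    (ha0 : A * Real.log (Real.log q) ≤ a * Real.log 2) (ha1 : a * Real.log 2 ≤ Real.log q) :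
    ((Finset.univ.filter (fun ψ : DirichletCharacter ℂ q =>
      Real.exp (-(ε / 16 * (a * Real.log 2))) < ‖∑ p ∈ RR a, cc N P s p * ψ (p : ZMod q)‖)).card : ℝ)
      ≤ 2 * (q : ℝ) ^ (ε / 2) := by
  set L := Real.log (q : ℝ) with hL
  set ℓ := Real.log L with hℓ
  have hq : 0 < q := Nat.pos_of_ne_zero (NeZero.ne q)
  have hq0 : (0 : ℝ) < q := by exact_mod_cast hq
  have hl2 : 0 < Real.log 2 := Real.log_pos (by norm_num)
  have h16 : 0 < 16 / ε := by positivity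
  have hA2 : 2 ≤ A := by linarith
  have hB0 : (0 : ℝ) ≤ B := Nat.cast_nonneg B
  have hL2 : 2 ≤ L := by nlinarith
  have hL0 : 0 < L := by linarith
  have hAl : 2 ≤ A * ℓ := by nlinarith
  have ha : 0 < (a : ℝ) * Real.log 2 := by linarith
  set x : ℝ := L / (a * Real.log 2) with hx
  have hx1 : 1 ≤ x := by
    rw [hx, le_div_iff₀ ha]
    linarith
  set k : ℕ := ⌈x⌉₊ with hk
  have hk1 : x ≤ k := Nat.le_ceil x
  have hk2 : (k : ℝ) < x + 1 := Nat.ceil_lt_add_one (by linarith)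
  have hk0 : 1 ≤ (k : ℝ) := hx1.trans hk1
  have hxa : x * (a * Real.log 2) = L := by
    rw [hx]
    exact div_mul_cancel₀ L ha.ne'
  have hka1 : L ≤ k * (a * Real.log 2) := by
    rw [← hxa]
    exact mul_le_mul_of_nonneg_right hk1 ha.le
  have hka2 : k * (a * Real.log 2) ≤ 2 * L := by
    have h1 : k * (a * Real.log 2) ≤ (x + 1) * (a * Real.log 2) :=
      mul_le_mul_of_nonneg_right hk2.le ha.le
    rw [add_mul, hxa, one_mul] at h1
    linarith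
  have hpow : q ≤ (2 ^ a) ^ k := by
    have h1 : Real.log (q : ℝ) ≤ Real.log (((2 : ℝ) ^ a) ^ k) := by
      rw [Real.log_pow, Real.log_pow]
      exact hka1
    have h2 := (Real.log_le_log_iff hq0 (by positivity)).mp h1
    exact_mod_cast h2
  have hm := markov (q := q) (fun ψ => ∑ p ∈ RR a, cc N P s p * ψ (p : ZMod q))
    (τ := Real.exp (-(ε / 16 * (a * Real.log 2)))) (Real.exp_pos _).le (2 * k)
    (block_moment H hh hs a k hpow)
  set cd : ℝ := ((Finset.univ.filter (fun ψ : DirichletCharacter ℂ q =>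
      Real.exp (-(ε / 16 * (a * Real.log 2))) <
        ‖∑ p ∈ RR a, cc N P s p * ψ (p : ZMod q)‖)).card : ℝ) with hcd
  have hcd0 : 0 ≤ cd := Nat.cast_nonneg _
  have h1 : Real.exp (-(ε / 4 * L)) ≤ Real.exp (-(ε / 16 * (a * Real.log 2))) ^ (2 * k) := by
    rw [← Real.exp_nat_mul]
    apply Real.exp_le_exp.mpr
    push_cast
    nlinarith
  -- the factorial
  have hkx : (k : ℝ) ≤ 2 * x := by linarith
  have hxA : x * (A * ℓ) ≤ L := by
    rw [← hxa]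
    exact mul_le_mul_of_nonneg_left ha0 (by linarith)
  have hkL : (k : ℝ) ≤ L := by
    have : 2 * x ≤ x * (A * ℓ) := by nlinarith
    linarith
  have hDk : 2 * ((B : ℝ) + 1) ^ 2 * k ≤ L ^ 2 := by
    rw [sq L]
    exact mul_le_mul hq2 hkL (by linarith) hL0.le
  have hDk0 : 0 < 2 * ((B : ℝ) + 1) ^ 2 * k := by positivity
  have hlog : Real.log (2 * ((B : ℝ) + 1) ^ 2 * k) ≤ 2 * ℓ := by
    have := Real.log_le_log hDk0 hDk
    rw [Real.log_pow] at this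
    exact_mod_cast this
  have hbB' : (b : ℝ) ≤ B := by exact_mod_cast hbB
  have hfac : (k.factorial : ℝ) * (2 * (b : ℝ) ^ 2) ^ k ≤ (2 * ((B : ℝ) + 1) ^ 2 * k) ^ k := by
    have e1 : (k.factorial : ℝ) ≤ (k : ℝ) ^ k := by exact_mod_cast Nat.factorial_le_pow k
    have e2 : (2 * (b : ℝ) ^ 2) ^ k ≤ (2 * ((B : ℝ) + 1) ^ 2) ^ k := by
      apply pow_le_pow_left₀ (by positivity)
      have : (b : ℝ) ^ 2 ≤ ((B : ℝ) + 1) ^ 2 := pow_le_pow_left₀ (Nat.cast_nonneg b) (by linarith) 2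
      linarith
    calc (k.factorial : ℝ) * (2 * (b : ℝ) ^ 2) ^ k ≤ (k : ℝ) ^ k * (2 * ((B : ℝ) + 1) ^ 2) ^ k :=
          mul_le_mul e1 e2 (by positivity) (by positivity)
      _ = _ := by rw [← mul_pow, mul_comm]
  have hexp : (2 * ((B : ℝ) + 1) ^ 2 * k) ^ k ≤ Real.exp (ε / 4 * L) := by
    have e1 : (2 * ((B : ℝ) + 1) ^ 2 * k) ^ k =
        Real.exp (k * Real.log (2 * ((B : ℝ) + 1) ^ 2 * k)) := by
      rw [Real.exp_nat_mul, Real.exp_log hDk0]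
    rw [e1]
    apply Real.exp_le_exp.mpr
    have e2 : (k : ℝ) * Real.log (2 * ((B : ℝ) + 1) ^ 2 * k) ≤ k * (2 * ℓ) :=
      mul_le_mul_of_nonneg_left hlog (by linarith)
    have e3 : (k : ℝ) * (2 * ℓ) ≤ 4 * (x * ℓ) := by nlinarith
    have e4 : x * ℓ * A ≤ L := by
      have : x * ℓ * A = x * (A * ℓ) := by ring
      rw [this]
      exact hxA
    have hxl : 0 ≤ x * ℓ := by positivity
    have e5 : 16 / ε * (x * ℓ) ≤ L := by nlinarith
    have e6 : 4 * (x * ℓ) = ε / 4 * (16 / ε * (x * ℓ)) := by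
      field_simp
      norm_num
    have e7 : ε / 4 * (16 / ε * (x * ℓ)) ≤ ε / 4 * L := mul_le_mul_of_nonneg_left e5 (by positivity)
    linarith
  have h2 : cd * Real.exp (-(ε / 4 * L)) ≤ 2 * Real.exp (ε / 4 * L) := by
    calc cd * Real.exp (-(ε / 4 * L)) ≤
          cd * Real.exp (-(ε / 16 * (a * Real.log 2))) ^ (2 * k) := mul_le_mul_of_nonneg_left h1 hcd0
      _ ≤ 2 * (k.factorial * (2 * (b : ℝ) ^ 2) ^ k) := hm
      _ ≤ 2 * Real.exp (ε / 4 * L) := by linarith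
  have h3 : cd = cd * Real.exp (-(ε / 4 * L)) * Real.exp (ε / 4 * L) := by
    rw [mul_assoc, ← Real.exp_add]
    simp
  have h4 : (q : ℝ) ^ (ε / 2) = Real.exp (ε / 4 * L) * Real.exp (ε / 4 * L) := by
    rw [← Real.exp_add, Real.rpow_def_of_pos hq0]
    congr 1
    ring
  rw [h3, h4, ← mul_assoc]
  exact mul_le_mul_of_nonneg_right h2 (Real.exp_pos _).le

open Classical in
/-- The bad characters of the tail. -/
lemma tail_bad (H : Hyp N i b P) {s : ℂ} {h : ℝ} (hh : 0 < h) (hs : s.re = 1 + (i:ℝ)/2 + h)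
    {q B a1 : ℕ} [NeZero q] (hbB : b ≤ B) {ε : ℝ} (hε : 0 < ε) (ha1 : q ≤ 2 ^ a1)
    (hh2 : (q : ℝ) ^ (-(ε / 4)) ≤ h) :
    ((Finset.univ.filter (fun ψ : DirichletCharacter ℂ q =>
      1 < ‖∑' p : Nat.Primes, ff N P s a1 p * ψ ((p : ℕ) : ZMod q)‖)).card : ℝ)
      ≤ 9 * (B : ℝ) ^ 2 * (q : ℝ) ^ (ε / 2) := by
  have hq : 0 < q := Nat.pos_of_ne_zero (NeZero.ne q)
  have hq0 : (0 : ℝ) < q := by exact_mod_cast hq
  have hq1 : (1 : ℝ) ≤ q := by exact_mod_cast hq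
  have h1 := tail (q := q) hh (Nat.cast_nonneg b) (ff N P s a1) (norm_ff_le H hs ha1)
  have h2 := markov (q := q) (fun ψ => ∑' p : Nat.Primes, ff N P s a1 p * ψ ((p : ℕ) : ZMod q))
    (τ := 1) zero_le_one 2 h1
  rw [one_pow, mul_one] at h2
  refine h2.trans ?_
  set y : ℝ := (q : ℝ) ^ (ε / 4) with hy
  have hy0 : 0 < y := by positivity
  have hy1 : 1 ≤ y := Real.one_le_rpow hq1 (by positivity)
  have e1 : (q : ℝ) ^ (-(ε / 4)) = y⁻¹ := Real.rpow_neg hq0.le _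
  rw [e1] at hh2
  have e2 : y⁻¹ ≤ min h 1 := le_min hh2 (inv_le_one_of_one_le₀ hy1)
  have e3 : 2 / min h 1 ≤ 2 * y := by
    rw [div_le_iff₀ (lt_min hh one_pos)]
    have := mul_le_mul_of_nonneg_left e2 (show 0 ≤ 2 * y by positivity)
    have e4 : 2 * y * y⁻¹ = 2 := by field_simp
    linarith
  have hbB' : (b : ℝ) ≤ B := by exact_mod_cast hbB
  have hmin : 0 < min h 1 := lt_min hh one_pos
  have e5 : (b : ℝ) * (1 + 2 / min h 1) ≤ B * (3 * y) :=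
    mul_le_mul hbB' (by linarith) (by positivity) (Nat.cast_nonneg B)
  have e6 : (q : ℝ) ^ (ε / 2) = y ^ 2 := by
    rw [hy, ← Real.rpow_natCast, ← Real.rpow_mul hq0.le]
    congr 1
    push_cast
    ring
  calc ((b : ℝ) * (1 + 2 / min h 1)) ^ 2 ≤ (B * (3 * y)) ^ 2 := pow_le_pow_left₀ (by positivity) e5 2
    _ = 9 * (B : ℝ) ^ 2 * (q : ℝ) ^ (ε / 2) := by
        rw [e6]
        ring

end Pool.Agent.H81.GR
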