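import Mathlib
import Pool.Agent.H81.GR.Tup

/-!
# GR, Exp: moments of exponentials of short prime sums over the characters modulo `q`
-/

set_option autoImplicit false

open Finset Complex

namespace Pool.Agent.H81.GR

/-- The tail of the exponential series. -/
lemma exp_tail {y : ℝ} (hy : 0 ≤ y) {n : ℕ} (hn : 4 * y ≤ n) :
    Real.exp y - ∑ m ∈ Finset.range n, y ^ m / (m.factorial : ℝ) ≤ 1 := by
  have hs : ∀ x : ℝ, HasSum (fun m : ℕ => x ^ m / (m.factorial : ℝ)) (Real.exp x) := by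
    intro x
    rw [Real.exp_eq_exp_ℝ]
    exact NormedSpace.expSeries_div_hasSum_exp x
  have h1 : HasSum (fun m : ℕ => if m ∈ Finset.range n then y ^ m / (m.factorial : ℝ) else 0)
      (∑ m ∈ Finset.range n, y ^ m / (m.factorial : ℝ)) := by
    have h : HasSum (fun m : ℕ => if m ∈ Finset.range n then y ^ m / (m.factorial : ℝ) else 0)
        (∑ m ∈ Finset.range n, (if m ∈ Finset.range n then y ^ m / (m.factorial : ℝ) else 0)) :=
      hasSum_sum_of_ne_finset_zero (fun m hm => if_neg hm)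
    have e : ∑ m ∈ Finset.range n, (if m ∈ Finset.range n then y ^ m / (m.factorial : ℝ) else 0) =
        ∑ m ∈ Finset.range n, y ^ m / (m.factorial : ℝ) :=
      Finset.sum_congr rfl fun m hm => if_pos hm
    rw [e] at h
    exact h
  have h2 := (hs y).sub h1
  have h3 := (hs (8 * y)).mul_left (((8 : ℝ) ^ n)⁻¹)
  have h4 : Real.exp y - ∑ m ∈ Finset.range n, y ^ m / (m.factorial : ℝ) ≤
      ((8 : ℝ) ^ n)⁻¹ * Real.exp (8 * y) := by
    apply hasSum_le _ h2 h3
    intro m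
    by_cases hm : m ∈ Finset.range n
    · rw [if_pos hm, sub_self]
      positivity
    · rw [if_neg hm, sub_zero, mul_pow]
      rw [Finset.mem_range, not_lt] at hm
      have e1 : (1 : ℝ) ≤ ((8 : ℝ) ^ n)⁻¹ * 8 ^ m := by
        rw [inv_mul_eq_div, one_le_div (by positivity)]
        exact pow_le_pow_right₀ (by norm_num) hm
      have e2 : 0 ≤ y ^ m / (m.factorial : ℝ) := by positivity
      calc y ^ m / (m.factorial : ℝ) = 1 * (y ^ m / (m.factorial : ℝ)) := (one_mul _).symm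
        _ ≤ (((8 : ℝ) ^ n)⁻¹ * 8 ^ m) * (y ^ m / (m.factorial : ℝ)) :=
            mul_le_mul_of_nonneg_right e1 e2
        _ = _ := by ring
  refine h4.trans ?_
  rw [inv_mul_eq_div, div_le_one (by positivity)]
  have h5 : (8 : ℝ) ^ n = Real.exp (n * Real.log 8) := by
    rw [Real.exp_nat_mul, Real.exp_log (by norm_num)]
  rw [h5, Real.exp_le_exp]
  have h6 : (2 : ℝ) ≤ Real.log 8 := by
    have e : Real.log 8 = 3 * Real.log 2 := by
      rw [show (8 : ℝ) = 2 ^ 3 by norm_num, Real.log_pow]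
      norm_num
    have := Real.log_two_gt_d9
    rw [e]
    linarith
  have h7 : (n : ℝ) * 2 ≤ n * Real.log 8 := mul_le_mul_of_nonneg_left h6 (Nat.cast_nonneg _)
  linarith

/-- Taylor's polynomial. -/
lemma taylor {x : ℂ} {W : ℝ} (hx : ‖x‖ ≤ W) {n : ℕ} (hn : 4 * W ≤ n) :
    ‖cexp x‖ ^ 2 ≤ 4 * ∑ m ∈ Finset.range n, (2 : ℝ) ^ m * ‖x‖ ^ (2 * m) / (m.factorial : ℝ) ^ 2 + 2 := by
  have h1 := (Complex.norm_exp_sub_sum_le_exp_norm_sub_sum x n).trans
    (exp_tail (norm_nonneg x) (by linarith))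
  set T : ℂ := ∑ m ∈ Finset.range n, x ^ m / (m.factorial : ℂ) with hT
  have h2 : ‖cexp x‖ ≤ ‖T‖ + 1 := by
    calc ‖cexp x‖ = ‖T + (cexp x - T)‖ := by rw [add_sub_cancel]
      _ ≤ ‖T‖ + ‖cexp x - T‖ := norm_add_le _ _
      _ ≤ ‖T‖ + 1 := by linarith
  have h3 : ‖cexp x‖ ^ 2 ≤ 2 * ‖T‖ ^ 2 + 2 := by
    have := pow_le_pow_left₀ (norm_nonneg _) h2 2
    nlinarith [sq_nonneg (‖T‖ - 1)]
  have h4 : ‖T‖ ^ 2 ≤ 2 * ∑ m ∈ Finset.range n, (2 : ℝ) ^ m * ‖x‖ ^ (2 * m) / (m.factorial : ℝ) ^ 2 := by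
    have e1 : ‖T‖ ≤ ∑ m ∈ Finset.range n, ‖x‖ ^ m / (m.factorial : ℝ) := by
      refine (norm_sum_le _ _).trans (le_of_eq ?_)
      apply Finset.sum_congr rfl
      intro m _
      rw [norm_div, norm_pow, Complex.norm_natCast]
    have e2 := pow_le_pow_left₀ (norm_nonneg T) e1 2
    have e3 : (∑ m ∈ Finset.range n, ‖x‖ ^ m / (m.factorial : ℝ)) ^ 2 ≤
        (∑ m ∈ Finset.range n, ((1 / 2 : ℝ)) ^ m) *
          ∑ m ∈ Finset.range n, (2 : ℝ) ^ m * ‖x‖ ^ (2 * m) / (m.factorial : ℝ) ^ 2 := by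
      apply Finset.sum_sq_le_sum_mul_sum_of_sq_le_mul
      · intro m _
        positivity
      · intro m _
        positivity
      · intro m _
        apply le_of_eq
        have h22 : (1 / 2 : ℝ) ^ m * 2 ^ m = 1 := by
          rw [← mul_pow]
          norm_num
        rw [div_pow, ← pow_mul, mul_comm m 2]
        calc ‖x‖ ^ (2 * m) / (m.factorial : ℝ) ^ 2 =
              ((1 / 2 : ℝ) ^ m * 2 ^ m) * (‖x‖ ^ (2 * m) / (m.factorial : ℝ) ^ 2) := by
              rw [h22, one_mul]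
          _ = _ := by ring
    have e4 : ∑ m ∈ Finset.range n, ((1 / 2 : ℝ)) ^ m ≤ 2 := by
      refine ((summable_geometric_two).sum_le_tsum _ (fun m _ => by positivity)).trans ?_
      rw [tsum_geometric_two]
    refine (e2.trans e3).trans ?_
    apply mul_le_mul_of_nonneg_right e4
    apply Finset.sum_nonneg
    intro m _
    positivity
  linarith

/-- Moments of the exponential. -/
theorem exp_moment {q : ℕ} [NeZero q] (Y J : ℕ) (R : Finset ℕ) (hR : ∀ p ∈ R, p.Prime ∧ p ≤ Y)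
    (c : ℕ → ℂ) (hY : 0 < Y) (hJ : Y ^ J ≤ q) (hW : 4 * ∑ p ∈ R, ‖c p‖ ≤ J) :
    ∑ ψ : DirichletCharacter ℂ q, ‖cexp (∑ p ∈ R, c p * ψ (p : ZMod q))‖ ^ 2 ≤
      (q.totient : ℝ) * (8 * Real.exp (2 * ∑ p ∈ R, ‖c p‖ ^ 2) + 2) := by
  set V : ℝ := ∑ p ∈ R, ‖c p‖ ^ 2 with hV
  have hV0 : 0 ≤ V := Finset.sum_nonneg fun p _ => by positivity
  have hw : ∀ ψ : DirichletCharacter ℂ q, ‖∑ p ∈ R, c p * ψ (p : ZMod q)‖ ≤ ∑ p ∈ R, ‖c p‖ := by
    intro ψ
    refine (norm_sum_le _ _).trans ?_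
    apply Finset.sum_le_sum
    intro p _
    rw [norm_mul]
    exact mul_le_of_le_one_right (norm_nonneg _) (ψ.norm_le_one _)
  have hcardψ : (Fintype.card (DirichletCharacter ℂ q) : ℝ) = q.totient := by
    rw [← Nat.card_eq_fintype_card,
      DirichletCharacter.card_eq_totient_of_hasEnoughRootsOfUnity ℂ q]
  have hm : ∀ m ∈ Finset.range J, ∑ ψ : DirichletCharacter ℂ q,
      ‖∑ p ∈ R, c p * ψ (p : ZMod q)‖ ^ (2 * m) ≤ (q.totient : ℝ) * (2 * m.factorial * V ^ m) := by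
    intro m hm
    rw [Finset.mem_range] at hm
    refine (momentT m Y R hR c).trans ?_
    apply mul_le_mul_of_nonneg_left _ (Nat.cast_nonneg _)
    apply mul_le_mul_of_nonneg_right _ (by positivity)
    have e1 : Y ^ m ≤ q := (Nat.pow_le_pow_right hY hm.le).trans hJ
    have e2 : Y ^ m / q ≤ 1 := by
      refine (Nat.div_le_div_right e1).trans ?_
      exact (Nat.div_self (Nat.pos_of_ne_zero (NeZero.ne q))).le
    have e3 : m.factorial * (Y ^ m / q + 1) ≤ 2 * m.factorial := by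
      rw [mul_comm]
      exact Nat.mul_le_mul_right _ (by omega)
    exact_mod_cast e3
  calc ∑ ψ : DirichletCharacter ℂ q, ‖cexp (∑ p ∈ R, c p * ψ (p : ZMod q))‖ ^ 2 ≤
        ∑ ψ : DirichletCharacter ℂ q, (4 * ∑ m ∈ Finset.range J,
          (2 : ℝ) ^ m * ‖∑ p ∈ R, c p * ψ (p : ZMod q)‖ ^ (2 * m) / (m.factorial : ℝ) ^ 2 + 2) :=
        Finset.sum_le_sum fun ψ _ => taylor (hw ψ) hW
    _ = 4 * ∑ m ∈ Finset.range J, ((2 : ℝ) ^ m / (m.factorial : ℝ) ^ 2) *
          ∑ ψ : DirichletCharacter ℂ q, ‖∑ p ∈ R, c p * ψ (p : ZMod q)‖ ^ (2 * m) +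
          (q.totient : ℝ) * 2 := by
        rw [Finset.sum_add_distrib, ← Finset.mul_sum, Finset.sum_comm, Finset.sum_const,
          nsmul_eq_mul, Finset.card_univ, hcardψ]
        congr 2
        apply Finset.sum_congr rfl
        intro m _
        rw [Finset.mul_sum]
        apply Finset.sum_congr rfl
        intro ψ _
        ring
    _ ≤ 4 * ∑ m ∈ Finset.range J, ((2 : ℝ) ^ m / (m.factorial : ℝ) ^ 2) *
          ((q.totient : ℝ) * (2 * m.factorial * V ^ m)) + (q.totient : ℝ) * 2 := by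
        have := Finset.sum_le_sum (s := Finset.range J)
          (f := fun m => ((2 : ℝ) ^ m / (m.factorial : ℝ) ^ 2) *
            ∑ ψ : DirichletCharacter ℂ q, ‖∑ p ∈ R, c p * ψ (p : ZMod q)‖ ^ (2 * m))
          (g := fun m => ((2 : ℝ) ^ m / (m.factorial : ℝ) ^ 2) *
            ((q.totient : ℝ) * (2 * m.factorial * V ^ m)))
          (fun m hmm => mul_le_mul_of_nonneg_left (hm m hmm) (by positivity))
        linarith
    _ = (q.totient : ℝ) * (8 * (∑ m ∈ Finset.range J, (2 * V) ^ m / (m.factorial : ℝ)) + 2) := by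
        rw [Finset.mul_sum, mul_add, Finset.mul_sum, Finset.mul_sum]
        congr 1
        apply Finset.sum_congr rfl
        intro m _
        have hf : (m.factorial : ℝ) ≠ 0 := by exact_mod_cast m.factorial_ne_zero
        rw [mul_pow]
        field_simp
        ring
    _ ≤ (q.totient : ℝ) * (8 * Real.exp (2 * V) + 2) := by
        apply mul_le_mul_of_nonneg_left _ (Nat.cast_nonneg _)
        have := Real.sum_le_exp_of_nonneg (show 0 ≤ 2 * V by linarith) J
        linarith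

end Pool.Agent.H81.GR
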