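import Mathlib
import Pool.Agent.H81.GR.BT
import Pool.Agent.H81.GR.Tail

/-!
# GR, TailT: the second moment of the long prime sum over the characters modulo `q`, with the
theorem of Brun and Titchmarsh
-/

set_option autoImplicit false

open Finset

namespace Pool.Agent.H81.GR

/-- The logarithmic series. -/
lemma log_series {h : ℝ} (hh : 0 < h) : HasSum (fun a : ℕ => ((2 : ℝ) ^ (-h)) ^ a / ((a : ℝ) + 1))
    (-Real.log (1 - (2 : ℝ) ^ (-h)) / (2 : ℝ) ^ (-h)) := by
  set r : ℝ := (2 : ℝ) ^ (-h) with hr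
  have hr0 : 0 < r := by positivity
  have hr1 : r < 1 := Real.rpow_lt_one_of_one_lt_of_neg (by norm_num) (by linarith)
  have h1 := Real.hasSum_pow_div_log_of_abs_lt_one (x := r) (by rw [abs_of_pos hr0]; exact hr1)
  have h2 := h1.div_const r
  have e : (fun a : ℕ => r ^ a / ((a : ℝ) + 1)) = fun n : ℕ => r ^ (n + 1) / ((n : ℝ) + 1) / r := by
    funext n
    rw [pow_succ]
    field_simp
  rw [e]
  exact h2

lemma log_series_le {h : ℝ} (hh : 0 < h) :
    -Real.log (1 - (2 : ℝ) ^ (-h)) / (2 : ℝ) ^ (-h) ≤ 4 * Real.log (2 + 1 / h) := by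
  set r : ℝ := (2 : ℝ) ^ (-h) with hr
  have hr0 : 0 < r := by positivity
  have hr1 : r < 1 := Real.rpow_lt_one_of_one_lt_of_neg (by norm_num) (by linarith)
  have hl2 : Real.log 2 ≤ Real.log (2 + 1 / h) := by
    apply Real.log_le_log (by norm_num)
    have : 0 < 1 / h := by positivity
    linarith
  have hl2g := Real.log_two_gt_d9
  rcases le_or_gt h 1 with h1 | h1
  · -- small shift
    have hb : h / 2 ≤ 1 - r := by
      have hc : r ≤ (1 - h) * 1 + h * (1 / 2 : ℝ) := by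
        have hconv := (convexOn_rpow_left (b := (2 : ℝ)) (by norm_num)).2 (Set.mem_univ (0 : ℝ))
          (Set.mem_univ (-1 : ℝ)) (show 0 ≤ 1 - h by linarith) hh.le (by ring)
        simp only [smul_eq_mul, mul_zero, zero_add, Real.rpow_zero, Real.rpow_neg_one] at hconv
        rw [hr]
        have e : h * (-1 : ℝ) = -h := by ring
        rw [e] at hconv
        linarith
      linarith
    have e1 : -Real.log (1 - r) ≤ Real.log 2 + Real.log (1 / h) := by
      rw [← Real.log_mul (by norm_num) (by positivity), ← Real.log_inv]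
      apply Real.log_le_log (by
        have : 0 < 1 - r := by linarith
        positivity)
      calc (1 - r)⁻¹ ≤ (h / 2)⁻¹ := inv_anti₀ (by positivity) hb
        _ = 2 * (1 / h) := by
            field_simp
    have e2 : Real.log (1 / h) ≤ Real.log (2 + 1 / h) := by
      apply Real.log_le_log (by positivity)
      linarith
    have e3 : (1 / 2 : ℝ) ≤ r := by
      calc (1 / 2 : ℝ) = (2 : ℝ) ^ (-1 : ℝ) := by
            rw [Real.rpow_neg_one]
            norm_num
        _ ≤ (2 : ℝ) ^ (-h) := Real.rpow_le_rpow_of_exponent_le (by norm_num) (by linarith)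
    rw [div_le_iff₀ hr0]
    have e4 : 0 ≤ 4 * Real.log (2 + 1 / h) := by linarith
    have e5 := mul_le_mul_of_nonneg_left e3 e4
    linarith
  · have e1 : r ≤ 1 / 2 := by
      calc (2 : ℝ) ^ (-h) ≤ (2 : ℝ) ^ (-1 : ℝ) :=
            Real.rpow_le_rpow_of_exponent_le (by norm_num) (by linarith)
        _ = 1 / 2 := by
            rw [Real.rpow_neg_one]
            norm_num
    have hpos : 0 < 1 - r := by linarith
    have e2 : -Real.log (1 - r) ≤ 2 * r := by
      rw [← Real.log_inv]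
      refine (Real.log_le_sub_one_of_pos (inv_pos.mpr hpos)).trans ?_
      rw [sub_le_iff_le_add, inv_le_iff_one_le_mul₀ hpos]
      nlinarith
    rw [div_le_iff₀ hr0]
    have e3 : (2 : ℝ) ≤ 4 * Real.log (2 + 1 / h) := by linarith
    have e4 := mul_le_mul_of_nonneg_right e3 hr0.le
    linarith

open Classical in
/-- The primes of one dyadic block in a class. -/
lemma block_class {q : ℕ} [NeZero q] {h : ℝ} (hh : 0 < h) {a : ℕ} (ha : q ^ 2 ≤ 2 ^ a)
    (c : ZMod q) :
    ∑ p ∈ (Finset.Ioc (2 ^ a) (2 ^ (a + 1))).filter (fun l : ℕ => l.Prime ∧ (l : ZMod q) = c),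
      (p : ℝ) ^ (-(1 + h)) ≤ 120 / (q.totient : ℝ) * (((2 : ℝ) ^ (-h)) ^ a / ((a : ℝ) + 1)) := by
  have hq : 0 < q := Nat.pos_of_ne_zero (NeZero.ne q)
  have hφ : (0 : ℝ) < q.totient := by exact_mod_cast Nat.totient_pos.2 hq
  have hqle : q ≤ 2 ^ a := by
    refine le_trans ?_ ha
    rw [pow_two]
    exact Nat.le_mul_of_pos_left q hq
  set D := (Finset.Ioc (2 ^ a) (2 ^ (a + 1))).filter (fun l : ℕ => l.Prime ∧ (l : ZMod q) = c) with hD
  have hcard : (D.card : ℝ) ≤ 40 * (2 : ℝ) ^ (a + 1) / (q.totient * Real.log ((2 : ℝ) ^ (a + 1))) := by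
    have h1 := btc ((2 : ℝ) ^ (a + 1)) q (by
      calc (2 : ℝ) = 2 ^ 1 := by norm_num
        _ ≤ 2 ^ (a + 1) := pow_le_pow_right₀ (by norm_num) (by omega)) (by
      have h2 : (q : ℝ) ^ 2 ≤ 2 ^ a := by exact_mod_cast ha
      refine h2.trans (pow_le_pow_right₀ (by norm_num) (by omega))) c
    refine le_trans ?_ h1
    have h2 : D ⊆ (Finset.Ioc q ⌊(2 : ℝ) ^ (a + 1)⌋₊).filter
        (fun l : ℕ => l.Prime ∧ (l : ZMod q) = c) := by
      intro p hp
      rw [hD, Finset.mem_filter, Finset.mem_Ioc] at hp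
      rw [Finset.mem_filter, Finset.mem_Ioc]
      refine ⟨⟨by omega, ?_⟩, hp.2⟩
      rw [Nat.le_floor_iff (by positivity)]
      exact_mod_cast hp.1.2
    exact_mod_cast Finset.card_le_card h2
  have hl2g := Real.log_two_gt_d9
  have hterm : ∀ p ∈ D, (p : ℝ) ^ (-(1 + h)) ≤ (2 : ℝ) ^ (-(a : ℝ)) * ((2 : ℝ) ^ (-h)) ^ a := by
    intro p hp
    rw [hD, Finset.mem_filter, Finset.mem_Ioc] at hp
    have h1 : (2 : ℝ) ^ a ≤ p := by exact_mod_cast hp.1.1.le
    calc (p : ℝ) ^ (-(1 + h)) ≤ ((2 : ℝ) ^ a) ^ (-(1 + h)) :=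
          Real.rpow_le_rpow_of_nonpos (by positivity) h1 (by linarith)
      _ = (2 : ℝ) ^ (-(a : ℝ)) * ((2 : ℝ) ^ (-h)) ^ a := by
          rw [← Real.rpow_natCast 2 a, ← Real.rpow_mul (by norm_num), ← Real.rpow_natCast _ a,
            ← Real.rpow_mul (by norm_num), ← Real.rpow_add (by norm_num)]
          congr 1
          ring
  calc ∑ p ∈ D, (p : ℝ) ^ (-(1 + h)) ≤ ∑ _p ∈ D, (2 : ℝ) ^ (-(a : ℝ)) * ((2 : ℝ) ^ (-h)) ^ a :=
        Finset.sum_le_sum hterm
    _ = D.card * ((2 : ℝ) ^ (-(a : ℝ)) * ((2 : ℝ) ^ (-h)) ^ a) := by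
        rw [Finset.sum_const, nsmul_eq_mul]
    _ ≤ (40 * (2 : ℝ) ^ (a + 1) / (q.totient * Real.log ((2 : ℝ) ^ (a + 1)))) *
          ((2 : ℝ) ^ (-(a : ℝ)) * ((2 : ℝ) ^ (-h)) ^ a) :=
        mul_le_mul_of_nonneg_right hcard (by positivity)
    _ = 80 / Real.log 2 / (q.totient : ℝ) * (((2 : ℝ) ^ (-h)) ^ a / ((a : ℝ) + 1)) := by
        rw [Real.log_pow, Real.rpow_neg (by norm_num), Real.rpow_natCast]
        have e : (2 : ℝ) ^ (a + 1) = 2 * 2 ^ a := by ring
        rw [e]
        push_cast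
        field_simp
        ring
    _ ≤ 120 / (q.totient : ℝ) * (((2 : ℝ) ^ (-h)) ^ a / ((a : ℝ) + 1)) := by
        apply mul_le_mul_of_nonneg_right _ (by positivity)
        apply div_le_div_of_nonneg_right _ hφ.le
        rw [div_le_iff₀ (by linarith)]
        linarith

open Classical in
/-- All blocks. -/
lemma blocks_class {q : ℕ} [NeZero q] {h : ℝ} (hh : 0 < h) {a1 : ℕ} (ha : q ^ 2 ≤ 2 ^ a1)
    (c : ZMod q) (A : ℕ) (hA : a1 ≤ A) :
    ∑ p ∈ (Finset.Ioc (2 ^ a1) (2 ^ A)).filter (fun l : ℕ => l.Prime ∧ (l : ZMod q) = c),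
      (p : ℝ) ^ (-(1 + h)) ≤
      120 / (q.totient : ℝ) * ∑ a ∈ Finset.Ico a1 A, ((2 : ℝ) ^ (-h)) ^ a / ((a : ℝ) + 1) := by
  induction A, hA using Nat.le_induction with
  | base =>
    rw [Finset.Ioc_self, Finset.filter_empty, Finset.sum_empty, Finset.Ico_self, Finset.sum_empty,
      mul_zero]
  | succ m hm ih =>
    rw [Finset.sum_Ico_succ_top hm, mul_add]
    have h1 : ∑ p ∈ (Finset.Ioc (2 ^ a1) (2 ^ (m + 1))).filter
          (fun l : ℕ => l.Prime ∧ (l : ZMod q) = c), (p : ℝ) ^ (-(1 + h)) =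
        ∑ p ∈ (Finset.Ioc (2 ^ a1) (2 ^ m)).filter
          (fun l : ℕ => l.Prime ∧ (l : ZMod q) = c), (p : ℝ) ^ (-(1 + h)) +
        ∑ p ∈ (Finset.Ioc (2 ^ m) (2 ^ (m + 1))).filter
          (fun l : ℕ => l.Prime ∧ (l : ZMod q) = c), (p : ℝ) ^ (-(1 + h)) := by
      rw [Finset.sum_filter, Finset.sum_filter, Finset.sum_filter]
      exact (Finset.sum_Ioc_consecutive _ (Nat.pow_le_pow_right (by norm_num) hm)
        (Nat.pow_le_pow_right (by norm_num) (by omega))).symm
    rw [h1]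
    apply add_le_add ih
    exact block_class hh (ha.trans (Nat.pow_le_pow_right (by norm_num) hm)) c

open Classical in
/-- The sum over a residue class. -/
lemma class_leT {q : ℕ} [NeZero q] {h b : ℝ} (hh : 0 < h) (hb : 0 ≤ b) (f : Nat.Primes → ℂ)
    {a1 : ℕ} (ha : q ^ 2 ≤ 2 ^ a1)
    (hf : ∀ p : Nat.Primes, ‖f p‖ ≤ if 2 ^ a1 < (p : ℕ) then b * ((p : ℕ) : ℝ) ^ (-(1 + h)) else 0)
    (c : ZMod q) :
    ‖∑' p : Nat.Primes, (if ((p : ℕ) : ZMod q) = c then f p else 0)‖ ≤
      480 * b * Real.log (2 + 1 / h) / (q.totient : ℝ) := by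
  have hq : 0 < q := Nat.pos_of_ne_zero (NeZero.ne q)
  have hφ : (0 : ℝ) < q.totient := by exact_mod_cast Nat.totient_pos.2 hq
  set g : Nat.Primes → ℂ := fun p => (if ((p : ℕ) : ZMod q) = c then f p else 0) with hg
  have hser := log_series hh
  have hbound : ∀ s : Finset Nat.Primes, ∑ p ∈ s, ‖g p‖ ≤
      480 * b * Real.log (2 + 1 / h) / (q.totient : ℝ) := by
    intro s
    obtain ⟨A, hA1, hA⟩ : ∃ A : ℕ, a1 ≤ A ∧ ∀ p ∈ s, (p : ℕ) ≤ 2 ^ A := by
      refine ⟨max a1 (s.sup fun p : Nat.Primes => (p : ℕ)), le_max_left _ _, fun p hp => ?_⟩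
      have h1 : (p : ℕ) ≤ s.sup fun p : Nat.Primes => (p : ℕ) := Finset.le_sup (f := fun p : Nat.Primes => (p : ℕ)) hp
      have h2 : (p : ℕ) < 2 ^ (p : ℕ) := Nat.lt_two_pow_self
      exact h2.le.trans (Nat.pow_le_pow_right (by norm_num) (h1.trans (le_max_right _ _)))
    set D := (Finset.Ioc (2 ^ a1) (2 ^ A)).filter (fun l : ℕ => l.Prime ∧ (l : ZMod q) = c) with hD
    set F : ℕ → ℝ := fun p => if p ∈ D then b * (p : ℝ) ^ (-(1 + h)) else 0 with hF
    have h1 : ∀ p ∈ s, ‖g p‖ ≤ F (p : ℕ) := by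
      intro p hp
      rw [hg, hF]
      simp only
      by_cases hc : ((p : ℕ) : ZMod q) = c
      · rw [if_pos hc]
        by_cases hlt : 2 ^ a1 < (p : ℕ)
        · have h3 := hf p
          rw [if_pos hlt] at h3
          rw [if_pos]
          · exact h3
          · rw [hD, Finset.mem_filter, Finset.mem_Ioc]
            exact ⟨⟨hlt, hA p hp⟩, p.2, hc⟩
        · have h3 := hf p
          rw [if_neg hlt] at h3
          refine h3.trans ?_
          split_ifs <;> positivity
      · rw [if_neg hc, norm_zero]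
        split_ifs <;> positivity
    have h2 : ∑ p ∈ s, F (p : ℕ) ≤ ∑ p ∈ D, b * (p : ℝ) ^ (-(1 + h)) := by
      have e1 : ∑ p ∈ s, F (p : ℕ) = ∑ n ∈ s.image (fun p : Nat.Primes => (p : ℕ)), F n := by
        rw [Finset.sum_image]
        intro x _ y _ hxy
        exact Subtype.ext hxy
      have e2 : ∑ p ∈ D, b * (p : ℝ) ^ (-(1 + h)) = ∑ p ∈ D, F p := by
        apply Finset.sum_congr rfl
        intro p hp
        rw [hF]
        simp only
        rw [if_pos hp]
      rw [e1, e2]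
      have e3 : ∑ n ∈ s.image (fun p : Nat.Primes => (p : ℕ)), F n =
          ∑ n ∈ (s.image (fun p : Nat.Primes => (p : ℕ))).filter (· ∈ D), F n := by
        rw [Finset.sum_filter]
        apply Finset.sum_congr rfl
        intro n _
        rw [hF]
        simp only
        split_ifs <;> rfl
      rw [e3]
      apply Finset.sum_le_sum_of_subset_of_nonneg
      · intro n hn
        exact (Finset.mem_filter.mp hn).2
      · intro n _ _
        rw [hF]
        simp only
        split_ifs <;> positivity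
    have h3 := blocks_class hh ha c A hA1
    have h4 : ∑ a ∈ Finset.Ico a1 A, ((2 : ℝ) ^ (-h)) ^ a / ((a : ℝ) + 1) ≤
        4 * Real.log (2 + 1 / h) := by
      refine le_trans (sum_le_hasSum _ (fun a _ => by positivity) hser) (log_series_le hh)
    calc ∑ p ∈ s, ‖g p‖ ≤ ∑ p ∈ s, F (p : ℕ) := Finset.sum_le_sum h1
      _ ≤ ∑ p ∈ D, b * (p : ℝ) ^ (-(1 + h)) := h2
      _ = b * ∑ p ∈ D, (p : ℝ) ^ (-(1 + h)) := by rw [Finset.mul_sum]
      _ ≤ b * (120 / (q.totient : ℝ) * (4 * Real.log (2 + 1 / h))) := by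
          apply mul_le_mul_of_nonneg_left _ hb
          exact h3.trans (mul_le_mul_of_nonneg_left h4 (by positivity))
      _ = _ := by ring
  have hs : Summable fun p => ‖g p‖ :=
    summable_of_sum_le (fun p => norm_nonneg _) hbound
  exact (norm_tsum_le_tsum_norm hs).trans (hs.tsum_le_of_sum_le hbound)

open Classical in
/-- The second moment of the tail. -/
theorem tailT {q : ℕ} [NeZero q] {h b : ℝ} (hh : 0 < h) (hb : 0 ≤ b) (f : Nat.Primes → ℂ)
    {a1 : ℕ} (ha : q ^ 2 ≤ 2 ^ a1)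
    (hf : ∀ p : Nat.Primes, ‖f p‖ ≤ if 2 ^ a1 < (p : ℕ) then b * ((p : ℕ) : ℝ) ^ (-(1 + h)) else 0) :
    ∑ ψ : DirichletCharacter ℂ q, ‖∑' p : Nat.Primes, f p * ψ ((p : ℕ) : ZMod q)‖ ^ 2 ≤
      (480 * b * Real.log (2 + 1 / h)) ^ 2 := by
  have hq : 0 < q := Nat.pos_of_ne_zero (NeZero.ne q)
  have hφ : (0 : ℝ) < q.totient := by exact_mod_cast Nat.totient_pos.2 hq
  have hsum : Summable fun p : Nat.Primes => b * ((p : ℕ) : ℝ) ^ (-(1 + h)) :=
    (((Real.summable_nat_rpow (p := -(1 + h))).mpr (by linarith)).comp_injective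
      Subtype.coe_injective).mul_left b
  have hfs : Summable f := by
    apply Summable.of_norm_bounded hsum
    intro p
    refine (hf p).trans ?_
    split_ifs
    · exact le_rfl
    · positivity
  set S : ZMod q → ℂ := fun c => ∑' p : Nat.Primes, (if ((p : ℕ) : ZMod q) = c then f p else 0)
    with hS
  have h1 : ∀ ψ : DirichletCharacter ℂ q, ∑' p : Nat.Primes, f p * ψ ((p : ℕ) : ZMod q) =
      ∑ c : ZMod q, S c * ψ c := by
    intro ψ
    have e1 : ∀ p : Nat.Primes, f p * ψ ((p : ℕ) : ZMod q) =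
        ∑ c : ZMod q, (if ((p : ℕ) : ZMod q) = c then f p else 0) * ψ c := by
      intro p
      rw [Finset.sum_eq_single ((p : ℕ) : ZMod q)]
      · rw [if_pos rfl]
      · intro c _ hc
        rw [if_neg (fun h => hc h.symm), zero_mul]
      · intro h
        exact absurd (Finset.mem_univ _) h
    simp_rw [e1]
    rw [Summable.tsum_finsetSum]
    · apply Finset.sum_congr rfl
      intro c _
      rw [hS]
      simp only
      rw [tsum_mul_right]
    · intro c _
      apply Summable.mul_right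
      apply Summable.of_norm_bounded hfs.norm
      intro p
      split_ifs
      · exact le_rfl
      · simp
  simp_rw [h1]
  rw [parsevalT S]
  set M : ℝ := 480 * b * Real.log (2 + 1 / h) / (q.totient : ℝ) with hM
  have h2 : ∀ c : ZMod q, ‖S c‖ ^ 2 ≤ M ^ 2 := fun c =>
    pow_le_pow_left₀ (norm_nonneg _) (class_leT hh hb f ha hf c) 2
  have hunits : ((Finset.univ.filter (fun c : ZMod q => IsUnit c)).card : ℝ) ≤ q.totient := by
    have e1 : Finset.univ.filter (fun c : ZMod q => IsUnit c) ⊆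
        (Finset.univ : Finset (ZMod q)ˣ).image (fun u : (ZMod q)ˣ => (u : ZMod q)) := by
      intro c hc
      obtain ⟨u, hu⟩ := (Finset.mem_filter.mp hc).2
      exact Finset.mem_image.mpr ⟨u, Finset.mem_univ _, hu⟩
    have e2 := (Finset.card_le_card e1).trans Finset.card_image_le
    rw [Finset.card_univ, ZMod.card_units_eq_totient] at e2
    exact_mod_cast e2
  calc ∑ c : ZMod q, (if IsUnit c then (q.totient : ℝ) else 0) * ‖S c‖ ^ 2 =
        ∑ c ∈ Finset.univ.filter (fun c : ZMod q => IsUnit c), (q.totient : ℝ) * ‖S c‖ ^ 2 := by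
        rw [Finset.sum_filter]
        apply Finset.sum_congr rfl
        intro c _
        split_ifs <;> simp
    _ ≤ ∑ _c ∈ Finset.univ.filter (fun c : ZMod q => IsUnit c), (q.totient : ℝ) * M ^ 2 :=
        Finset.sum_le_sum fun c _ => mul_le_mul_of_nonneg_left (h2 c) hφ.le
    _ = (Finset.univ.filter (fun c : ZMod q => IsUnit c)).card * ((q.totient : ℝ) * M ^ 2) := by
        rw [Finset.sum_const, nsmul_eq_mul]
    _ ≤ (q.totient : ℝ) * ((q.totient : ℝ) * M ^ 2) :=
        mul_le_mul_of_nonneg_right hunits (by positivity)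
    _ = (480 * b * Real.log (2 + 1 / h)) ^ 2 := by
        rw [hM]
        field_simp

end Pool.Agent.H81.GR
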