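import Mathlib
import Pool.Agent.H81.GR.Cnt
import Pool.Agent.H81.GR.TailT
import Pool.Agent.H81.ED.TailL

/-!
# GR, SetV: the logarithm of the twisted Euler product is a short prime sum for most characters
-/

set_option autoImplicit false

open Finset Complex

namespace Pool.Agent.H81.GR

open Pool.Agent.H89.EdgeBasic
open Pool.Agent.H91.Edge (zc zc_nonneg summable_zc mertens)
open Pool.Agent.H81.ED (lc norm_lc_le TS EE nu fam_char hasProd_tw EE_nu EE_le LP)

variable {N i b : ℕ} {P : ℕ → Polynomial ℂ}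

lemma C0_nonneg : 0 ≤ C0 := tsum_nonneg fun x => by positivity

/-- The product is the exponential of `TT`. -/
lemma LP_eq_exp (H : Hyp N i b P) {s : ℂ} {h : ℝ} (hh : 0 < h) (hs : s.re = 1 + (i:ℝ)/2 + h)
    {q : ℕ} [NeZero q] (ψ : DirichletCharacter ℂ q) : LP N P s ψ = cexp (TT N P s ψ) := by
  let _ : MeasurableSpace (DirichletCharacter ℂ q) := ⊤
  exact (hasProd_tw (fam_char q) H hh hs ψ).tprod_eq

lemma TT_zero (H : Hyp N i 0 P) {s : ℂ} {h : ℝ} (hs : s.re = 1 + (i:ℝ)/2 + h)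
    {q : ℕ} (ψ : DirichletCharacter ℂ q) : TT N P s ψ = 0 := by
  unfold TT TS
  have h1 : ∀ x : Nat.Primes × ℕ, lc N P s x = 0 := by
    intro x
    have := norm_lc_le H hs x
    rw [Nat.cast_zero, zero_mul] at this
    exact norm_le_zero_iff.mp this
  simp [h1]

/-- Summation over the small blocks. -/
lemma small_sum {α : Type} [AddCommMonoid α] (f : ℕ → α) (a0 : ℕ) :
    ∑ a ∈ Finset.Ico 0 a0, ∑ p ∈ RR a, f p =
      ∑ p ∈ (Finset.range (2 ^ a0 + 1)).filter Nat.Prime, f p := by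
  induction a0 with
  | zero =>
    rw [Finset.Ico_self, Finset.sum_empty]
    symm
    apply Finset.sum_eq_zero
    intro p hp
    rw [Finset.mem_filter, Finset.mem_range] at hp
    have := hp.2.two_le
    have h0 : p < 2 := by simpa using hp.1
    omega
  | succ n ih =>
    rw [Finset.sum_Ico_succ_top (Nat.zero_le n), ih]
    have hdis : Disjoint ((Finset.range (2 ^ n + 1)).filter Nat.Prime) (RR n) := by
      rw [Finset.disjoint_left]
      intro p hp hp2
      rw [Finset.mem_filter, Finset.mem_range] at hp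
      have := (Finset.mem_Ioc.mp (Finset.mem_filter.mp hp2).1).1
      omega
    rw [← Finset.sum_union hdis]
    apply Finset.sum_congr _ (fun _ _ => rfl)
    ext p
    unfold RR
    rw [Finset.mem_union, Finset.mem_filter, Finset.mem_filter, Finset.mem_filter,
      Finset.mem_range, Finset.mem_range, Finset.mem_Ioc]
    have hpow : 2 ^ n ≤ 2 ^ (n + 1) := Nat.pow_le_pow_right (by norm_num) (by omega)
    constructor
    · rintro (⟨h1, h2⟩ | ⟨⟨h1, h2⟩, h3⟩)
      · exact ⟨by omega, h2⟩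
      · exact ⟨by omega, h3⟩
    · rintro ⟨h1, h2⟩
      by_cases h3 : p ≤ 2 ^ n
      · exact Or.inl ⟨by omega, h2⟩
      · exact Or.inr ⟨⟨by omega, by omega⟩, h2⟩

/-- Mertens for the sum. -/
lemma sum_inv_le {A1 : ℝ} (hm : ∀ (x : ℝ), 3 ≤ x → ∀ S : Finset ℕ, (∀ p ∈ S, p.Prime ∧ (p:ℝ) ≤ x) →
    ∏ p ∈ S, (1 - (p:ℝ)⁻¹)⁻¹ ≤ A1 * Real.log x) {a0 : ℕ} (ha0 : 2 ≤ a0) :
    ∑ p ∈ (Finset.range (2 ^ a0 + 1)).filter Nat.Prime, (p : ℝ)⁻¹ ≤
      Real.log (A1 * (a0 * Real.log 2)) := by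
  set S := (Finset.range (2 ^ a0 + 1)).filter Nat.Prime with hS
  have h4 : (4 : ℝ) ≤ 2 ^ a0 := by
    calc (4 : ℝ) = 2 ^ 2 := by norm_num
      _ ≤ 2 ^ a0 := pow_le_pow_right₀ (by norm_num) ha0
  have h1 := hm (2 ^ a0) (by linarith) S (by
    intro p hp
    rw [hS, Finset.mem_filter, Finset.mem_range] at hp
    refine ⟨hp.2, ?_⟩
    exact_mod_cast (by omega : p ≤ 2 ^ a0))
  rw [Real.log_pow] at h1
  have hpos : ∀ p ∈ S, 0 < (1 - (p:ℝ)⁻¹) := by
    intro p hp
    have hp2 : (2 : ℝ) ≤ p := by exact_mod_cast (Finset.mem_filter.mp hp).2.two_le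
    have : (p:ℝ)⁻¹ ≤ 2⁻¹ := inv_anti₀ (by norm_num) hp2
    norm_num at this ⊢
    linarith
  have h2 : ∑ p ∈ S, (p : ℝ)⁻¹ ≤ Real.log (∏ p ∈ S, (1 - (p:ℝ)⁻¹)⁻¹) := by
    rw [Real.log_prod (fun p hp => (inv_pos.mpr (hpos p hp)).ne')]
    apply Finset.sum_le_sum
    intro p hp
    rw [Real.log_inv]
    have := Real.log_le_sub_one_of_pos (hpos p hp)
    linarith
  refine h2.trans ?_
  apply Real.log_le_log _ h1
  exact Finset.prod_pos fun p hp => inv_pos.mpr (hpos p hp)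

/-- The coefficients of the primes. -/
lemma norm_cc_inv (H : Hyp N i b P) {s : ℂ} {h : ℝ} (hh : 0 < h) (hs : s.re = 1 + (i:ℝ)/2 + h)
    {p : ℕ} (hp : p.Prime) : ‖cc N P s p‖ ≤ b * (p : ℝ)⁻¹ := by
  refine (norm_cc_le H hs p).trans ?_
  apply mul_le_mul_of_nonneg_left _ (Nat.cast_nonneg _)
  rw [← Real.rpow_neg_one]
  apply Real.rpow_le_rpow_of_exponent_le
  · exact_mod_cast hp.one_le
  · linarith

lemma sum_norm_cc_le (H : Hyp N i b P) {s : ℂ} {h : ℝ} (hh : 0 < h)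
    (hs : s.re = 1 + (i:ℝ)/2 + h) (n : ℕ) :
    ∑ p ∈ (Finset.range n).filter Nat.Prime, ‖cc N P s p‖ ≤
      b * ∑ p ∈ (Finset.range n).filter Nat.Prime, (p : ℝ)⁻¹ := by
  rw [Finset.mul_sum]
  apply Finset.sum_le_sum
  intro p hp
  exact norm_cc_inv H hh hs (Finset.mem_filter.mp hp).2

open Classical in
/-- The bad characters of one block. -/
lemma block_badV (H : Hyp N i b P) {s : ℂ} {h : ℝ} (hh : 0 < h) (hs : s.re = 1 + (i:ℝ)/2 + h)
    {q B : ℕ} [NeZero q] (hbB : b ≤ B) {a : ℕ} {L ℓ Y : ℝ} (hL : L = Real.log q)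
    (hℓ : ℓ = Real.log L) (hℓ1 : 1 ≤ ℓ) (hB : 2 * ((B : ℝ) + 1) ^ 2 ≤ L) (hY2 : 2 ≤ Y)
    (hYL : Y ≤ L) (ha0 : Y ≤ a * Real.log 2) (ha1 : a * Real.log 2 ≤ 3 * L) :
    ((Finset.univ.filter (fun ψ : DirichletCharacter ℂ q =>
      Real.exp (-(2 * ℓ / Y * (a * Real.log 2))) <
        ‖∑ p ∈ RR a, cc N P s p * ψ (p : ZMod q)‖)).card : ℝ) ≤
      2 * Real.exp (20 * (ℓ * L / Y)) := by
  have hq : 0 < q := Nat.pos_of_ne_zero (NeZero.ne q)
  have hq0 : (0 : ℝ) < q := by exact_mod_cast hq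
  have hB0 : (0 : ℝ) ≤ B := Nat.cast_nonneg B
  have hL2 : 2 ≤ L := by nlinarith
  have hL0 : 0 < L := by linarith
  have hY0 : 0 < Y := by linarith
  set x : ℝ := a * Real.log 2 with hx
  have hx0 : 0 < x := by linarith
  obtain ⟨k, hk⟩ : ∃ k : ℕ, k = ⌈L / x⌉₊ := ⟨_, rfl⟩
  have hk1 : L ≤ k * x := by
    have := Nat.le_ceil (L / x)
    rw [div_le_iff₀ hx0, ← hk] at this
    exact this
  have hk2 : (k : ℝ) < L / x + 1 := by
    rw [hk]
    exact Nat.ceil_lt_add_one (by positivity)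
  have hk3 : (k : ℝ) * x ≤ 4 * L := by
    have h1 := mul_lt_mul_of_pos_right hk2 hx0
    have h2 : (L / x + 1) * x = L + x := by
      field_simp
    linarith
  have hk4 : (k : ℝ) ≤ L / Y + 1 := by
    have : L / x ≤ L / Y := div_le_div_of_nonneg_left hL0.le hY0 ha0
    linarith
  have hk5 : (k : ℝ) ≤ L := by
    have : L / Y ≤ L / 2 := div_le_div_of_nonneg_left hL0.le (by norm_num) hY2
    linarith
  have hLexp : L = Real.exp ℓ := by rw [hℓ, Real.exp_log hL0]
  have hqk : q ≤ (2 ^ a) ^ k := by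
    have h3 : Real.log (q : ℝ) ≤ Real.log (((2 : ℝ) ^ a) ^ k) := by
      rw [Real.log_pow, Real.log_pow, ← hL]
      exact hk1
    have h4 := (Real.log_le_log_iff hq0 (by positivity)).mp h3
    exact_mod_cast h4
  have hmom := block_moment H hh hs a k hqk
  set τ : ℝ := Real.exp (-(2 * ℓ / Y * x)) with hτ
  have hτ0 : 0 < τ := Real.exp_pos _
  have hmk := markov (q := q) (fun ψ => ∑ p ∈ RR a, cc N P s p * ψ (p : ZMod q)) hτ0.le (2 * k) hmom
  set Nn : ℝ := ((Finset.univ.filter (fun ψ : DirichletCharacter ℂ q =>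
      τ < ‖∑ p ∈ RR a, cc N P s p * ψ (p : ZMod q)‖)).card : ℝ) with hNn
  -- the right-hand side
  have hfac : ((k.factorial : ℕ) : ℝ) ≤ Real.exp (k * ℓ) := by
    calc ((k.factorial : ℕ) : ℝ) ≤ ((k ^ k : ℕ) : ℝ) := by exact_mod_cast Nat.factorial_le_pow k
      _ = (k : ℝ) ^ k := by push_cast; ring
      _ ≤ L ^ k := pow_le_pow_left₀ (Nat.cast_nonneg _) hk5 k
      _ = Real.exp (k * ℓ) := by rw [Real.exp_nat_mul, ← hLexp]
  have hbb : (2 * (b : ℝ) ^ 2) ^ k ≤ Real.exp (k * ℓ) := by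
    have hbB' : (b : ℝ) ≤ B := by exact_mod_cast hbB
    have hb0 : (0 : ℝ) ≤ b := Nat.cast_nonneg b
    calc (2 * (b : ℝ) ^ 2) ^ k ≤ L ^ k := by
          apply pow_le_pow_left₀ (by positivity)
          nlinarith
      _ = Real.exp (k * ℓ) := by rw [Real.exp_nat_mul, ← hLexp]
  have hτk : τ ^ (2 * k) = Real.exp (-(4 * ℓ / Y * (k * x))) := by
    rw [hτ, ← Real.exp_nat_mul]
    congr 1
    push_cast
    ring
  rw [hτk] at hmk
  have hfin : Nn ≤ 2 * (Real.exp (k * ℓ) * Real.exp (k * ℓ)) * Real.exp (4 * ℓ / Y * (k * x)) := by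
    have h1 : Nn * Real.exp (-(4 * ℓ / Y * (k * x))) ≤ 2 * (Real.exp (k * ℓ) * Real.exp (k * ℓ)) := by
      refine hmk.trans ?_
      apply mul_le_mul_of_nonneg_left _ (by norm_num)
      exact mul_le_mul hfac hbb (by positivity) (Real.exp_pos _).le
    have h2 := mul_le_mul_of_nonneg_right h1 (Real.exp_pos (4 * ℓ / Y * (k * x))).le
    rw [mul_assoc, ← Real.exp_add, neg_add_cancel, Real.exp_zero, mul_one] at h2
    exact h2
  refine hfin.trans ?_
  rw [mul_assoc, ← Real.exp_add, ← Real.exp_add]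
  apply mul_le_mul_of_nonneg_left _ (by norm_num)
  apply Real.exp_le_exp.mpr
  have hLY : 1 ≤ L / Y := by
    rw [le_div_iff₀ hY0]
    linarith
  have e1 : (k : ℝ) * ℓ ≤ 2 * (ℓ * L / Y) := by
    calc (k : ℝ) * ℓ ≤ (L / Y + 1) * ℓ := mul_le_mul_of_nonneg_right hk4 (by linarith)
      _ ≤ (L / Y + L / Y) * ℓ := mul_le_mul_of_nonneg_right (by linarith) (by linarith)
      _ = 2 * (ℓ * L / Y) := by ring
  have e2 : 4 * ℓ / Y * (k * x) ≤ 16 * (ℓ * L / Y) := by
    calc 4 * ℓ / Y * (k * x) ≤ 4 * ℓ / Y * (4 * L) :=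
          mul_le_mul_of_nonneg_left hk3 (by positivity)
      _ = 16 * (ℓ * L / Y) := by ring
  linarith

lemma norm_ff_leT (H : Hyp N i b P) {s : ℂ} {h : ℝ} (hs : s.re = 1 + (i:ℝ)/2 + h) (a1 : ℕ)
    (p : Nat.Primes) :
    ‖ff N P s a1 p‖ ≤ if 2 ^ a1 < (p : ℕ) then (b:ℝ) * ((p : ℕ) : ℝ) ^ (-(1 + h)) else 0 := by
  unfold ff
  split_ifs with h1
  · have h2 := norm_lc_le H hs (p, 1)
    rw [zc_one] at h2
    exact h2
  · rw [norm_zero]

open Classical in
/-- The bad characters of the tail. -/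
lemma tail_badT (H : Hyp N i b P) {s : ℂ} {h : ℝ} (hh : 0 < h) (hs : s.re = 1 + (i:ℝ)/2 + h)
    {q a1 : ℕ} [NeZero q] (ha1 : q ^ 2 ≤ 2 ^ a1) {η : ℝ} (hη : 0 < η) :
    ((Finset.univ.filter (fun ψ : DirichletCharacter ℂ q =>
      η < ‖∑' p : Nat.Primes, ff N P s a1 p * ψ ((p : ℕ) : ZMod q)‖)).card : ℝ)
      ≤ (480 * b * Real.log (2 + 1 / h) / η) ^ 2 := by
  have h1 := tailT (q := q) hh (Nat.cast_nonneg b) (ff N P s a1) ha1 (norm_ff_leT H hs a1)
  have h2 := markov (q := q) (fun ψ => ∑' p : Nat.Primes, ff N P s a1 p * ψ ((p : ℕ) : ZMod q))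
    hη.le 2 h1
  rw [div_pow, le_div_iff₀ (by positivity)]
  exact h2

open Classical in
/-- The logarithm of the L-function is a short prime sum, up to a bounded quantity, for most
characters. -/
theorem setupV (H : Hyp N i b P) {s : ℂ} {h : ℝ} (hh : 0 < h) (hs : s.re = 1 + (i:ℝ)/2 + h)
    {q B : ℕ} [NeZero q] (hbB : b ≤ B) {a0 : ℕ} {L ℓ Y η : ℝ} (hL : L = Real.log q)
    (hℓ : ℓ = Real.log L) (hY : Y = a0 * Real.log 2) (hL8 : 8 ≤ L)
    (hB : 2 * ((B : ℝ) + 1) ^ 2 ≤ L) (hY2 : 2 ≤ Y) (hYL : Y ≤ L) (hη : 0 < η) :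
    ∃ U : Finset (DirichletCharacter ℂ q),
      (U.card : ℝ) ≤ Real.exp (22 * (ℓ * L / Y)) + (480 * b * Real.log (2 + 1 / h) / η) ^ 2 ∧
      ∀ ψ : DirichletCharacter ℂ q, ψ ∉ U →
        ‖TT N P s ψ - ∑ p ∈ (Finset.range (2 ^ a0 + 1)).filter Nat.Prime,
          cc N P s p * ψ (p : ZMod q)‖ ≤ b * C0 + (1 / 2 + η) := by
  have hq : 0 < q := Nat.pos_of_ne_zero (NeZero.ne q)
  have hq0 : (0 : ℝ) < q := by exact_mod_cast hq
  have hL0 : 0 < L := by linarith
  have hY0 : 0 < Y := by linarith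
  have hl2 : 0 < Real.log 2 := Real.log_pos (by norm_num)
  have hl2g := Real.log_two_gt_d9
  have hLexp : L = Real.exp ℓ := by rw [hℓ, Real.exp_log hL0]
  have hℓ1 : 1 ≤ ℓ := by
    rw [hℓ, Real.le_log_iff_exp_le hL0]
    have := Real.exp_one_lt_d9
    linarith
  obtain ⟨a1, ha1⟩ : ∃ a1 : ℕ, a1 = ⌈2 * L / Real.log 2⌉₊ := ⟨_, rfl⟩
  have h1le : 2 * L ≤ a1 * Real.log 2 := by
    have := Nat.le_ceil (2 * L / Real.log 2)
    rw [div_le_iff₀ hl2, ← ha1] at this
    exact this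
  have h1lt : (a1 : ℝ) ≤ 4 * L := by
    have h1 : (a1 : ℝ) < 2 * L / Real.log 2 + 1 := by
      rw [ha1]
      exact Nat.ceil_lt_add_one (by positivity)
    have h2 : 2 * L / Real.log 2 ≤ 3 * L := by
      rw [div_le_iff₀ hl2]
      nlinarith
    linarith
  have ha01 : a0 ≤ a1 := by
    have h3 : (a0 : ℝ) * Real.log 2 ≤ a1 * Real.log 2 := by linarith
    have h4 : (a0 : ℝ) ≤ a1 := le_of_mul_le_mul_right h3 hl2
    exact_mod_cast h4
  have hqa1 : q ^ 2 ≤ 2 ^ a1 := by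
    have h3 : Real.log ((q : ℝ) ^ 2) ≤ Real.log ((2 : ℝ) ^ a1) := by
      rw [Real.log_pow, Real.log_pow, ← hL]
      push_cast
      linarith
    have h4 := (Real.log_le_log_iff (by positivity) (by positivity)).mp h3
    exact_mod_cast h4
  set bad : ℕ → Finset (DirichletCharacter ℂ q) := fun a => Finset.univ.filter (fun ψ =>
      Real.exp (-(2 * ℓ / Y * (a * Real.log 2))) <
        ‖∑ p ∈ RR a, cc N P s p * ψ (p : ZMod q)‖) with hbad
  set badT : Finset (DirichletCharacter ℂ q) := Finset.univ.filter (fun ψ =>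
      η < ‖∑' p : Nat.Primes, ff N P s a1 p * ψ ((p : ℕ) : ZMod q)‖) with hbadT
  have hcardI : ((Finset.Ico a0 a1).card : ℝ) ≤ 4 * L := by
    have e1 : ((Finset.Ico a0 a1).card : ℝ) ≤ a1 := by
      rw [Nat.card_Ico]
      exact_mod_cast Nat.sub_le _ _
    linarith
  refine ⟨(Finset.Ico a0 a1).biUnion bad ∪ badT, ?_, ?_⟩
  · have hc3 : (((Finset.Ico a0 a1).biUnion bad ∪ badT).card : ℝ) ≤
        ∑ a ∈ Finset.Ico a0 a1, ((bad a).card : ℝ) + badT.card := by
      have e1 := Finset.card_union_le ((Finset.Ico a0 a1).biUnion bad) badT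
      have e2 : ((Finset.Ico a0 a1).biUnion bad).card ≤ ∑ a ∈ Finset.Ico a0 a1, (bad a).card :=
        Finset.card_biUnion_le
      have e3 := e1.trans (Nat.add_le_add_right e2 _)
      exact_mod_cast e3
    refine hc3.trans (add_le_add ?_ (tail_badT H hh hs hqa1 hη))
    calc ∑ a ∈ Finset.Ico a0 a1, ((bad a).card : ℝ) ≤
          ∑ _a ∈ Finset.Ico a0 a1, 2 * Real.exp (20 * (ℓ * L / Y)) := by
          apply Finset.sum_le_sum
          intro a ha
          rw [Finset.mem_Ico] at ha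
          apply block_badV H hh hs hbB hL hℓ hℓ1 hB hY2 hYL
          · rw [hY]
            apply mul_le_mul_of_nonneg_right _ hl2.le
            exact_mod_cast ha.1
          · have h3 : a < ⌈2 * L / Real.log 2⌉₊ := by
              rw [← ha1]
              exact ha.2
            have h4 := Nat.lt_ceil.mp h3
            rw [lt_div_iff₀ hl2] at h4
            linarith
      _ = (Finset.Ico a0 a1).card * (2 * Real.exp (20 * (ℓ * L / Y))) := by
          rw [Finset.sum_const, nsmul_eq_mul]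
      _ ≤ 4 * L * (2 * Real.exp (20 * (ℓ * L / Y))) :=
          mul_le_mul_of_nonneg_right hcardI (by positivity)
      _ = 8 * L * Real.exp (20 * (ℓ * L / Y)) := by ring
      _ ≤ Real.exp (2 * (ℓ * L / Y)) * Real.exp (20 * (ℓ * L / Y)) := by
          apply mul_le_mul_of_nonneg_right _ (Real.exp_pos _).le
          have e1 : 8 * L ≤ L * L := by nlinarith
          have e2 : L * L = Real.exp (2 * ℓ) := by
            rw [two_mul, Real.exp_add, ← hLexp]
          have e3 : Real.exp (2 * ℓ) ≤ Real.exp (2 * (ℓ * L / Y)) := by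
            apply Real.exp_le_exp.mpr
            have : 1 ≤ L / Y := by
              rw [le_div_iff₀ hY0]
              linarith
            have e4 : ℓ * 1 ≤ ℓ * (L / Y) := mul_le_mul_of_nonneg_left this (by linarith)
            have e5 : ℓ * (L / Y) = ℓ * L / Y := by ring
            linarith
          linarith
      _ = Real.exp (22 * (ℓ * L / Y)) := by
          rw [← Real.exp_add]
          congr 1
          ring
  · intro ψ hψ
    rw [Finset.mem_union, Finset.mem_biUnion] at hψ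
    push Not at hψ
    obtain ⟨hc1, hc2⟩ := hψ
    have hg1 : ∀ a ∈ Finset.Ico a0 a1, ‖∑ p ∈ RR a, cc N P s p * ψ (p : ZMod q)‖ ≤
        Real.exp (-(2 * ℓ / Y * (a * Real.log 2))) := by
      intro a ha
      have := hc1 a ha
      rw [hbad] at this
      simp only [Finset.mem_filter, Finset.mem_univ, true_and, not_lt] at this
      exact this
    have hg2 : ‖∑' p : Nat.Primes, ff N P s a1 p * ψ ((p : ℕ) : ZMod q)‖ ≤ η := by
      rw [hbadT] at hc2
      simp only [Finset.mem_filter, Finset.mem_univ, true_and, not_lt] at hc2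
      exact hc2
    have hd := decomp H hh hs ψ 0 a1 (Nat.zero_le _)
    have hz : ∑ p ∈ (Finset.range (2 ^ 0 + 1)).filter Nat.Prime, (p : ℝ)⁻¹ = 0 := by
      apply Finset.sum_eq_zero
      intro p hp
      rw [Finset.mem_filter, Finset.mem_range] at hp
      have := hp.2.two_le
      have h0 : p < 2 := by simpa using hp.1
      omega
    rw [hz, zero_add, ← Finset.sum_Ico_consecutive _ (Nat.zero_le a0) ha01, small_sum] at hd
    have h3 : ‖∑ a ∈ Finset.Ico a0 a1, ∑ p ∈ RR a, cc N P s p * ψ (p : ZMod q)‖ ≤ 1 / 2 := by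
      calc ‖∑ a ∈ Finset.Ico a0 a1, ∑ p ∈ RR a, cc N P s p * ψ (p : ZMod q)‖ ≤
            ∑ a ∈ Finset.Ico a0 a1, ‖∑ p ∈ RR a, cc N P s p * ψ (p : ZMod q)‖ := norm_sum_le _ _
        _ ≤ ∑ _a ∈ Finset.Ico a0 a1, Real.exp (-(2 * ℓ)) := by
            apply Finset.sum_le_sum
            intro a ha
            refine (hg1 a ha).trans ?_
            apply Real.exp_le_exp.mpr
            have e1 : Y ≤ a * Real.log 2 := by
              rw [hY]
              apply mul_le_mul_of_nonneg_right _ hl2.le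
              exact_mod_cast (Finset.mem_Ico.mp ha).1
            have e2 : 2 * ℓ / Y * Y ≤ 2 * ℓ / Y * (a * Real.log 2) :=
              mul_le_mul_of_nonneg_left e1 (by positivity)
            have e3 : 2 * ℓ / Y * Y = 2 * ℓ := by
              field_simp
            linarith
        _ = (Finset.Ico a0 a1).card * Real.exp (-(2 * ℓ)) := by
            rw [Finset.sum_const, nsmul_eq_mul]
        _ ≤ 4 * L * Real.exp (-(2 * ℓ)) := mul_le_mul_of_nonneg_right hcardI (Real.exp_pos _).le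
        _ = 4 / L := by
            have e2 : Real.exp (-(2 * ℓ)) = (L * L)⁻¹ := by
              rw [Real.exp_neg, two_mul, Real.exp_add, ← hLexp]
            rw [e2]
            field_simp
        _ ≤ 1 / 2 := by
            rw [div_le_iff₀ hL0]
            linarith
    set W := ∑ p ∈ (Finset.range (2 ^ a0 + 1)).filter Nat.Prime, cc N P s p * ψ (p : ZMod q)
    set X := ∑ a ∈ Finset.Ico a0 a1, ∑ p ∈ RR a, cc N P s p * ψ (p : ZMod q)
    set T := ∑' p : Nat.Primes, ff N P s a1 p * ψ ((p : ℕ) : ZMod q)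
    have h4 : ‖TT N P s ψ - W‖ ≤ ‖TT N P s ψ - (W + X + T)‖ + (‖X‖ + ‖T‖) := by
      calc ‖TT N P s ψ - W‖ = ‖(TT N P s ψ - (W + X + T)) + (X + T)‖ := by
            congr 1
            ring
        _ ≤ ‖TT N P s ψ - (W + X + T)‖ + ‖X + T‖ := norm_add_le _ _
        _ ≤ _ := by
            gcongr
            exact norm_add_le _ _
    linarith

end Pool.Agent.H81.GR
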