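import Mathlib
import Pool.Agent.H81.GR.SetV

/-!
# GR, Main: large values of L-functions over the characters modulo `q`
-/

set_option autoImplicit false

open Finset Complex Filter Topology

namespace Pool.Agent.H81.GR

open Pool.Agent.H89.EdgeBasic
open Pool.Agent.H91.Edge (mertens)
open Pool.Agent.H81.ED (LP)

lemma card_le_q {q : ℕ} [NeZero q] (S : Finset (DirichletCharacter ℂ q)) : (S.card : ℝ) ≤ q := by
  have h1 : (S.card : ℝ) ≤ (Fintype.card (DirichletCharacter ℂ q) : ℝ) := by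
    exact_mod_cast Finset.card_le_univ S
  have h2 : (Fintype.card (DirichletCharacter ℂ q) : ℝ) = q.totient := by
    rw [← Nat.card_eq_fintype_card,
      DirichletCharacter.card_eq_totient_of_hasEnoughRootsOfUnity ℂ q]
  have h3 : (q.totient : ℝ) ≤ q := by exact_mod_cast Nat.totient_le q
  linarith

open Classical in
/-- The number of the Dirichlet characters modulo `q` with a large or a small value of the
L-function at a point to the right of the edge of absolute convergence. -/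
theorem q_bound (B : ℕ) : ∃ C : ℝ, 1 ≤ C ∧
    ∀ (N i b : ℕ) (P : ℕ → Polynomial ℂ), Hyp N i b P → b ≤ B → ∀ (q : ℕ) [NeZero q], C ≤ q →
      ∀ h t V : ℝ, 0 < h → 0 < V → V ≤ Real.log q →
        ((Finset.univ.filter (fun ψ : DirichletCharacter ℂ q =>
          ¬ ((V ^ b)⁻¹ ≤ ‖∏' p : {p : ℕ // p.Prime ∧ ¬ p ∣ N}, ((P p).eval (ψ (p : ℕ) *
                ((p : ℕ) : ℂ) ^ (-(1 + (i:ℂ)/2 + h + t * I))))⁻¹‖ ∧
            ‖∏' p : {p : ℕ // p.Prime ∧ ¬ p ∣ N}, ((P p).eval (ψ (p : ℕ) *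
                ((p : ℕ) : ℂ) ^ (-(1 + (i:ℂ)/2 + h + t * I))))⁻¹‖ ≤ V ^ b))).card : ℝ) ≤
          (q : ℝ) ^ (C * Real.log (Real.log q) / V) + C * Real.log (2 + 1 / h) ^ 2 := by
  obtain ⟨A1, hA1, hm⟩ := mertens
  have hl2 : 0 < Real.log 2 := Real.log_pos (by norm_num)
  have hl2g := Real.log_two_gt_d9
  have hl2l := Real.log_two_lt_d9
  have hC00 := C0_nonneg
  obtain ⟨K, hK⟩ : ∃ K : ℝ, K = A1 * Real.exp (C0 + 2) := ⟨_, rfl⟩
  have hK0 : 0 < K := by
    rw [hK]
    positivity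
  have hK1 : 1 ≤ K := by
    rw [hK]
    have : 1 ≤ Real.exp (C0 + 2) := Real.one_le_exp (by linarith)
    nlinarith
  obtain ⟨C, hC⟩ : ∃ C : ℝ, C = Real.exp (8 + 2 * ((B : ℝ) + 1) ^ 2) + 44 * K +
    (480 * (B : ℝ)) ^ 2 := ⟨_, rfl⟩
  have hCe : Real.exp (8 + 2 * ((B : ℝ) + 1) ^ 2) ≤ C := by
    rw [hC]
    have : 0 ≤ (480 * (B : ℝ)) ^ 2 := by positivity
    linarith
  have hCK : 44 * K ≤ C := by
    rw [hC]
    have := Real.exp_pos (8 + 2 * ((B : ℝ) + 1) ^ 2)
    have : 0 ≤ (480 * (B : ℝ)) ^ 2 := by positivity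
    linarith
  have hCB : (480 * (B : ℝ)) ^ 2 ≤ C := by
    rw [hC]
    have := Real.exp_pos (8 + 2 * ((B : ℝ) + 1) ^ 2)
    linarith
  have hC1 : 1 ≤ C := by linarith
  refine ⟨C, hC1, ?_⟩
  intro N i b P H hbB q _ hCq h t V hh hV0 hVL
  have hq : 0 < q := Nat.pos_of_ne_zero (NeZero.ne q)
  have hq0 : (0 : ℝ) < q := by exact_mod_cast hq
  have hLlow : 8 + 2 * ((B : ℝ) + 1) ^ 2 ≤ Real.log q := by
    rw [Real.le_log_iff_exp_le hq0]
    linarith
  obtain ⟨L, hL⟩ : ∃ L : ℝ, L = Real.log q := ⟨_, rfl⟩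
  rw [← hL] at hLlow hVL ⊢
  obtain ⟨ℓ, hℓ⟩ : ∃ ℓ : ℝ, ℓ = Real.log L := ⟨_, rfl⟩
  rw [← hℓ]
  have hL8 : 8 ≤ L := by
    have : 0 ≤ 2 * ((B : ℝ) + 1) ^ 2 := by positivity
    linarith
  have hB : 2 * ((B : ℝ) + 1) ^ 2 ≤ L := by linarith
  have hL0 : 0 < L := by linarith
  have hℓ1 : 1 ≤ ℓ := by
    rw [hℓ, Real.le_log_iff_exp_le hL0]
    have := Real.exp_one_lt_d9
    linarith
  have hlog0 : 0 ≤ Real.log (2 + 1 / h) := by
    apply Real.log_nonneg
    have : 0 < 1 / h := by positivity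
    linarith
  have htail0 : 0 ≤ C * Real.log (2 + 1 / h) ^ 2 := by positivity
  -- the cut
  obtain ⟨a0, ha0⟩ : ∃ a0 : ℕ, a0 = ⌊V / (K * Real.log 2)⌋₊ := ⟨_, rfl⟩
  have hKl : 0 < K * Real.log 2 := by positivity
  have ha0le : (a0 : ℝ) * (K * Real.log 2) ≤ V := by
    have := Nat.floor_le (show 0 ≤ V / (K * Real.log 2) by positivity)
    rw [← ha0, le_div_iff₀ hKl] at this
    exact this
  have ha0lt : V < ((a0 : ℝ) + 1) * (K * Real.log 2) := by
    have := Nat.lt_floor_add_one (V / (K * Real.log 2))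
    rw [← ha0, div_lt_iff₀ hKl] at this
    exact this
  rcases Nat.lt_or_ge a0 3 with hsmall | hbig
  · -- the trivial bound
    have h1 : V < 3 * (K * Real.log 2) := by
      refine ha0lt.trans_le ?_
      apply mul_le_mul_of_nonneg_right _ hKl.le
      have : (a0 : ℝ) ≤ 2 := by exact_mod_cast (by omega : a0 ≤ 2)
      linarith
    have h2 : 1 ≤ C * ℓ / V := by
      rw [le_div_iff₀ hV0, one_mul]
      have h3 : 3 * (K * Real.log 2) ≤ C := by nlinarith
      have h4 : C * 1 ≤ C * ℓ := mul_le_mul_of_nonneg_left hℓ1 (by linarith)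
      linarith
    have hq1 : (1 : ℝ) ≤ q := by exact_mod_cast hq
    have h3 : (q : ℝ) ≤ (q : ℝ) ^ (C * ℓ / V) := by
      calc (q : ℝ) = (q : ℝ) ^ (1 : ℝ) := (Real.rpow_one _).symm
        _ ≤ _ := Real.rpow_le_rpow_of_exponent_le hq1 h2
    have h4 := card_le_q (Finset.univ.filter (fun ψ : DirichletCharacter ℂ q =>
          ¬ ((V ^ b)⁻¹ ≤ ‖∏' p : {p : ℕ // p.Prime ∧ ¬ p ∣ N}, ((P p).eval (ψ (p : ℕ) *
                ((p : ℕ) : ℂ) ^ (-(1 + (i:ℂ)/2 + h + t * I))))⁻¹‖ ∧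
            ‖∏' p : {p : ℕ // p.Prime ∧ ¬ p ∣ N}, ((P p).eval (ψ (p : ℕ) *
                ((p : ℕ) : ℂ) ^ (-(1 + (i:ℂ)/2 + h + t * I))))⁻¹‖ ≤ V ^ b)))
    linarith
  · have ha3 : (3 : ℝ) ≤ a0 := by exact_mod_cast hbig
    obtain ⟨Y, hY⟩ : ∃ Y : ℝ, Y = a0 * Real.log 2 := ⟨_, rfl⟩
    have hKY : K * Y ≤ V := by
      rw [hY]
      linarith
    have hY0 : 0 < Y := by
      rw [hY]
      positivity
    have hY2 : 2 ≤ Y := by
      rw [hY]
      nlinarith
    have hYL : Y ≤ L := by nlinarith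
    have hYV : V ≤ 2 * K * Y := by
      rw [hY]
      nlinarith
    set s : ℂ := 1 + (i:ℂ)/2 + h + t * I with hs
    have hsre : s.re = 1 + (i:ℝ)/2 + h := by
      rw [hs]
      simp
    obtain ⟨U, hU, hUb⟩ := setupV (a0 := a0) (η := 1) H hh hsre hbB hL hℓ hY hL8 hB hY2 hYL one_pos
    have hcardU : (U.card : ℝ) ≤ (q : ℝ) ^ (C * ℓ / V) + C * Real.log (2 + 1 / h) ^ 2 := by
      refine hU.trans (add_le_add ?_ ?_)
      · rw [Real.rpow_def_of_pos hq0, ← hL]
        apply Real.exp_le_exp.mpr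
        have e1 : ℓ * L / Y ≤ 2 * K * (ℓ * L) / V := by
          rw [div_le_div_iff₀ hY0 hV0]
          have : 0 ≤ ℓ * L := by positivity
          nlinarith
        calc 22 * (ℓ * L / Y) ≤ 22 * (2 * K * (ℓ * L) / V) :=
              mul_le_mul_of_nonneg_left e1 (by norm_num)
          _ = 44 * K * (ℓ * L / V) := by ring
          _ ≤ C * (ℓ * L / V) := mul_le_mul_of_nonneg_right hCK (by positivity)
          _ = L * (C * ℓ / V) := by ring
      · rw [div_one, mul_pow]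
        apply mul_le_mul_of_nonneg_right _ (by positivity)
        refine le_trans ?_ hCB
        have hbB' : (b : ℝ) ≤ B := by exact_mod_cast hbB
        exact pow_le_pow_left₀ (by positivity) (mul_le_mul_of_nonneg_left hbB' (by norm_num)) 2
    refine le_trans ?_ hcardU
    have hsub : Finset.univ.filter (fun ψ : DirichletCharacter ℂ q =>
          ¬ ((V ^ b)⁻¹ ≤ ‖LP N P s ψ‖ ∧ ‖LP N P s ψ‖ ≤ V ^ b)) ⊆ U := by
      intro ψ hψ
      rw [Finset.mem_filter] at hψ
      by_contra hcon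
      apply hψ.2
      have hg := hUb ψ hcon
      have hLP : LP N P s ψ = cexp (TT N P s ψ) := LP_eq_exp H hh hsre ψ
      set W := ∑ p ∈ (Finset.range (2 ^ a0 + 1)).filter Nat.Prime, cc N P s p * ψ (p : ZMod q)
        with hW
      have hsum := sum_inv_le hm (show 2 ≤ a0 by omega)
      rw [← hY] at hsum
      have hWn : ‖W‖ ≤ b * Real.log (A1 * Y) := by
        refine (norm_sum_le _ _).trans ?_
        refine le_trans ?_ ((sum_norm_cc_le H hh hsre _).trans
          (mul_le_mul_of_nonneg_left hsum (Nat.cast_nonneg _)))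
        apply Finset.sum_le_sum
        intro p _
        rw [norm_mul]
        exact mul_le_of_le_one_right (norm_nonneg _) (ψ.norm_le_one _)
      have hT : ‖TT N P s ψ‖ ≤ b * Real.log V := by
        by_cases hb : b = 0
        · subst hb
          rw [TT_zero H hsre ψ]
          simp
        · have hb1 : (1 : ℝ) ≤ b := by exact_mod_cast Nat.one_le_iff_ne_zero.mpr hb
          have e0 : ‖TT N P s ψ‖ ≤ ‖TT N P s ψ - W‖ + ‖W‖ := by
            calc ‖TT N P s ψ‖ = ‖(TT N P s ψ - W) + W‖ := by rw [sub_add_cancel]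
              _ ≤ _ := norm_add_le _ _
          have e3 : Real.log (A1 * Y) + (C0 + 2) = Real.log (K * Y) := by
            rw [hK, Real.log_mul (by positivity) (by positivity),
              Real.log_mul (x := A1 * Real.exp (C0 + 2)) (by positivity) (by positivity),
              Real.log_mul (by positivity) (Real.exp_pos _).ne', Real.log_exp]
            ring
          have e4 : Real.log (K * Y) ≤ Real.log V := Real.log_le_log (by positivity) hKY
          have e6 : (b : ℝ) * (Real.log (A1 * Y) + (C0 + 2)) ≤ b * Real.log V :=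
            mul_le_mul_of_nonneg_left (by linarith) (by linarith)
          nlinarith
      rw [hLP, Complex.norm_exp]
      have hre := abs_le.mp ((Complex.abs_re_le_norm (TT N P s ψ)).trans hT)
      have hpw : V ^ b = Real.exp (b * Real.log V) := by
        rw [Real.exp_nat_mul, Real.exp_log hV0]
      rw [hpw, ← Real.exp_neg]
      exact ⟨Real.exp_le_exp.mpr (by linarith [hre.1]), Real.exp_le_exp.mpr hre.2⟩
    exact_mod_cast Finset.card_le_card hsub

open Classical in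
/-- The same at distance at least `1/q` from the edge. -/
theorem q_bound' (B : ℕ) : ∃ C : ℝ, 1 ≤ C ∧
    ∀ (N i b : ℕ) (P : ℕ → Polynomial ℂ), Hyp N i b P → b ≤ B → ∀ (q : ℕ) [NeZero q], C ≤ q →
      ∀ h t V : ℝ, 1 / (q : ℝ) ≤ h → 0 < V → V ≤ Real.log q →
        ((Finset.univ.filter (fun ψ : DirichletCharacter ℂ q =>
          ¬ ((V ^ b)⁻¹ ≤ ‖∏' p : {p : ℕ // p.Prime ∧ ¬ p ∣ N}, ((P p).eval (ψ (p : ℕ) *
                ((p : ℕ) : ℂ) ^ (-(1 + (i:ℂ)/2 + h + t * I))))⁻¹‖ ∧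
            ‖∏' p : {p : ℕ // p.Prime ∧ ¬ p ∣ N}, ((P p).eval (ψ (p : ℕ) *
                ((p : ℕ) : ℂ) ^ (-(1 + (i:ℂ)/2 + h + t * I))))⁻¹‖ ≤ V ^ b))).card : ℝ) ≤
          (q : ℝ) ^ (C * Real.log (Real.log q) / V) := by
  obtain ⟨C, hC1, hC⟩ := q_bound B
  refine ⟨Real.exp (8 * C) + (C + 4), by
    have := Real.exp_pos (8 * C)
    linarith, ?_⟩
  intro N i b P H hbB q _ hCq h t V hh2 hV0 hVL
  have hep := Real.exp_pos (8 * C)
  have hq : 0 < q := Nat.pos_of_ne_zero (NeZero.ne q)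
  have hq0 : (0 : ℝ) < q := by exact_mod_cast hq
  have hh : 0 < h := lt_of_lt_of_le (by positivity) hh2
  refine (hC N i b P H hbB q (by linarith) h t V hh hV0 hVL).trans ?_
  have hLlow : 8 * C ≤ Real.log q := by
    rw [Real.le_log_iff_exp_le hq0]
    linarith
  obtain ⟨L, hL⟩ : ∃ L : ℝ, L = Real.log q := ⟨_, rfl⟩
  rw [← hL] at hLlow hVL ⊢
  obtain ⟨ℓ, hℓ⟩ : ∃ ℓ : ℝ, ℓ = Real.log L := ⟨_, rfl⟩
  rw [← hℓ]
  have hL0 : 0 < L := by linarith
  have hℓ1 : 1 ≤ ℓ := by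
    rw [hℓ, Real.le_log_iff_exp_le hL0]
    have := Real.exp_one_lt_d9
    linarith
  have hLexp : L = Real.exp ℓ := by rw [hℓ, Real.exp_log hL0]
  have e1 : Real.log (2 + 1 / h) ≤ 2 * L := by
    have e2 : 2 + 1 / h ≤ (q : ℝ) * q := by
      have e3 : 1 / h ≤ q := by
        rw [div_le_iff₀ hh]
        have := mul_le_mul_of_nonneg_left hh2 hq0.le
        rw [mul_one_div_cancel hq0.ne'] at this
        exact this
      have e4 : (4 : ℝ) ≤ q := by linarith
      nlinarith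
    have h0 : 0 < 1 / h := by positivity
    calc Real.log (2 + 1 / h) ≤ Real.log ((q : ℝ) * q) := Real.log_le_log (by linarith) e2
      _ = 2 * L := by
          rw [Real.log_mul hq0.ne' hq0.ne', ← hL]
          ring
  have hlog0 : 0 ≤ Real.log (2 + 1 / h) := by
    apply Real.log_nonneg
    have : 0 < 1 / h := by positivity
    linarith
  have e5 : C * Real.log (2 + 1 / h) ^ 2 ≤ L ^ 3 := by
    calc C * Real.log (2 + 1 / h) ^ 2 ≤ C * (2 * L) ^ 2 := by gcongr
      _ = 4 * C * L ^ 2 := by ring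
      _ ≤ L * L ^ 2 := mul_le_mul_of_nonneg_right (by linarith) (by positivity)
      _ = L ^ 3 := by ring
  have hLV : 1 ≤ L / V := by
    rw [le_div_iff₀ hV0]
    linarith
  have e6 : L ^ 3 = Real.exp (3 * ℓ) := by
    rw [show (3 : ℝ) * ℓ = ((3 : ℕ) : ℝ) * ℓ by norm_num, Real.exp_nat_mul, ← hLexp]
  have e7 : (q : ℝ) ^ (C * ℓ / V) = Real.exp (C * (ℓ * (L / V))) := by
    rw [Real.rpow_def_of_pos hq0, ← hL]
    congr 1
    ring
  have e8 : (q : ℝ) ^ ((Real.exp (8 * C) + (C + 4)) * ℓ / V) =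
      Real.exp ((Real.exp (8 * C) + (C + 4)) * (ℓ * (L / V))) := by
    rw [Real.rpow_def_of_pos hq0, ← hL]
    congr 1
    ring
  rw [e7, e8]
  obtain ⟨x, hx⟩ : ∃ x : ℝ, x = ℓ * (L / V) := ⟨_, rfl⟩
  rw [← hx]
  have hxℓ : ℓ ≤ x := by
    rw [hx]
    have := mul_le_mul_of_nonneg_left hLV (show 0 ≤ ℓ by linarith)
    linarith
  have e9 : C * Real.log (2 + 1 / h) ^ 2 ≤ Real.exp (3 * x) := by
    refine e5.trans ?_
    rw [e6]
    exact Real.exp_le_exp.mpr (by linarith)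
  have e10 : Real.exp (C * x) ≤ Real.exp ((C + 3) * x) := by
    apply Real.exp_le_exp.mpr
    nlinarith
  have e11 : Real.exp (3 * x) ≤ Real.exp ((C + 3) * x) := by
    apply Real.exp_le_exp.mpr
    nlinarith
  have e12 : 2 * Real.exp ((C + 3) * x) ≤ Real.exp ((C + 4) * x) := by
    have e13 : Real.exp ((C + 4) * x) = Real.exp ((C + 3) * x) * Real.exp x := by
      rw [← Real.exp_add]
      congr 1
      ring
    rw [e13]
    have e14 : (2 : ℝ) ≤ Real.exp x := by
      have := Real.add_one_le_exp x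
      linarith
    nlinarith [Real.exp_pos ((C + 3) * x)]
  have e15 : Real.exp ((C + 4) * x) ≤ Real.exp ((Real.exp (8 * C) + (C + 4)) * x) := by
    apply Real.exp_le_exp.mpr
    nlinarith
  linarith

end Pool.Agent.H81.GR
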