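import Mathlib
import Pool.Agent.H81.GR.Main
import Pool.Agent.H81.GR.Exp

/-!
# GR, Mom: moments over all characters modulo `q`
-/

set_option autoImplicit false

open Finset Complex Filter Topology

namespace Pool.Agent.H81.GR

open Pool.Agent.H89.EdgeBasic
open Pool.Agent.H91.Edge (mertens zc zc_nonneg summable_zc zeta_real_le)
open Pool.Agent.H81.ED (LP lc norm_lc_le TS EE nu)

variable {N i b : ℕ} {P : ℕ → Polynomial ℂ}

/-- The exponential dominates squares. -/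
lemma poly_exp (C : ℝ) {θ : ℝ} (hθ : 0 < θ) : ∀ᶠ x : ℝ in atTop, C * (1 + x) ^ 2 ≤ Real.exp (θ * x) := by
  have h1 := (isLittleO_pow_exp_pos_mul_atTop 2 hθ).bound (show (0:ℝ) < 1 / (4 * (|C| + 1)) by positivity)
  filter_upwards [h1, eventually_ge_atTop 1] with x hx hx1
  rw [Real.norm_of_nonneg (by positivity), Real.norm_of_nonneg (Real.exp_pos _).le,
    div_mul_eq_mul_div, one_mul, le_div_iff₀ (by positivity)] at hx
  have h2 : (1 + x) ^ 2 ≤ 4 * x ^ 2 := by nlinarith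
  have h3 : C ≤ |C| + 1 := by
    have := le_abs_self C
    linarith
  calc C * (1 + x) ^ 2 ≤ (|C| + 1) * (1 + x) ^ 2 := mul_le_mul_of_nonneg_right h3 (by positivity)
    _ ≤ (|C| + 1) * (4 * x ^ 2) := mul_le_mul_of_nonneg_left h2 (by positivity)
    _ = x ^ 2 * (4 * (|C| + 1)) := by ring
    _ ≤ _ := hx

/-- The trivial bound for the logarithm. -/
lemma norm_TT_le (H : Hyp N i b P) {s : ℂ} {h : ℝ} (hh : 0 < h) (h1 : h ≤ 1)
    (hs : s.re = 1 + (i:ℝ)/2 + h) {q : ℕ} (ψ : DirichletCharacter ℂ q) :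
    ‖TT N P s ψ‖ ≤ b * Real.log (10 / h) := by
  unfold TT TS
  have hzs : Summable fun x => (b : ℝ) * zc h x := (summable_zc hh).mul_left _
  refine (tsum_of_norm_bounded hzs.hasSum (fun x => ?_)).trans ?_
  · rw [norm_mul]
    have hEE : ‖EE (fun (ψ : DirichletCharacter ℂ q) (n : ℕ) => ψ n) (nu x) ψ‖ ≤ 1 := by
      unfold EE
      rw [norm_mul, RCLike.norm_conj]
      exact mul_le_one₀ (ψ.norm_le_one _) (norm_nonneg _) (ψ.norm_le_one _)
    exact (mul_le_of_le_one_right (norm_nonneg _) hEE).trans (norm_lc_le H hs x)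
  · rw [tsum_mul_left]
    exact mul_le_mul_of_nonneg_left (zeta_real_le hh h1) (Nat.cast_nonneg _)

/-- The sum of the inverse squares. -/
noncomputable def Z2 : ℝ := ∑' n : ℕ, ((n : ℝ)⁻¹) ^ 2

lemma summable_Z2 : Summable fun n : ℕ => ((n : ℝ)⁻¹) ^ 2 := by
  simp_rw [inv_pow]
  exact (Real.summable_nat_pow_inv (p := 2)).mpr (by norm_num)

lemma sum_cc_sq_le (H : Hyp N i b P) {s : ℂ} {h : ℝ} (hh : 0 < h) (hs : s.re = 1 + (i:ℝ)/2 + h)
    (n : ℕ) : ∑ p ∈ (Finset.range n).filter Nat.Prime, ‖cc N P s p‖ ^ 2 ≤ (b : ℝ) ^ 2 * Z2 := by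
  calc ∑ p ∈ (Finset.range n).filter Nat.Prime, ‖cc N P s p‖ ^ 2 ≤
        ∑ p ∈ (Finset.range n).filter Nat.Prime, (b : ℝ) ^ 2 * ((p : ℝ)⁻¹) ^ 2 := by
        apply Finset.sum_le_sum
        intro p hp
        rw [← mul_pow]
        exact pow_le_pow_left₀ (norm_nonneg _) (norm_cc_inv H hh hs (Finset.mem_filter.mp hp).2) 2
    _ = (b : ℝ) ^ 2 * ∑ p ∈ (Finset.range n).filter Nat.Prime, ((p : ℝ)⁻¹) ^ 2 := by
        rw [Finset.mul_sum]
    _ ≤ (b : ℝ) ^ 2 * Z2 := by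
        apply mul_le_mul_of_nonneg_left _ (by positivity)
        exact summable_Z2.sum_le_tsum _ (fun n _ => by positivity)

/-- Mertens' lower bound for the totient. -/
lemma totient_ge {A1 : ℝ} (hm : ∀ (x : ℝ), 3 ≤ x → ∀ S : Finset ℕ, (∀ p ∈ S, p.Prime ∧ (p:ℝ) ≤ x) →
    ∏ p ∈ S, (1 - (p:ℝ)⁻¹)⁻¹ ≤ A1 * Real.log x) {q : ℕ} (hq : 3 ≤ q) :
    (q : ℝ) ≤ q.totient * (A1 * Real.log q) := by
  have h1 := hm q (by exact_mod_cast hq) q.primeFactors (by
    intro p hp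
    refine ⟨Nat.prime_of_mem_primeFactors hp, ?_⟩
    exact_mod_cast Nat.le_of_mem_primeFactors hp)
  have h2 : (q.totient : ℝ) = q * ∏ p ∈ q.primeFactors, (1 - (p : ℝ)⁻¹) := by
    have h := Nat.totient_eq_mul_prod_factors q
    have h2 : ((q.totient : ℚ) : ℝ) = ((q * ∏ p ∈ q.primeFactors, (1 - (p : ℚ)⁻¹) : ℚ) : ℝ) := by
      rw [h]
    push_cast at h2
    exact h2
  have hpos : 0 < ∏ p ∈ q.primeFactors, (1 - (p : ℝ)⁻¹) := by
    apply Finset.prod_pos
    intro p hp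
    have hp2 : (2 : ℝ) ≤ p := by exact_mod_cast (Nat.prime_of_mem_primeFactors hp).two_le
    have : (p:ℝ)⁻¹ ≤ 2⁻¹ := inv_anti₀ (by norm_num) hp2
    norm_num at this ⊢
    linarith
  rw [Finset.prod_inv_distrib] at h1
  have h3 : (q.totient : ℝ) * (∏ p ∈ q.primeFactors, (1 - (p : ℝ)⁻¹))⁻¹ = q := by
    rw [h2, mul_assoc, mul_inv_cancel₀ hpos.ne', mul_one]
  calc (q : ℝ) = (q.totient : ℝ) * (∏ p ∈ q.primeFactors, (1 - (p : ℝ)⁻¹))⁻¹ := h3.symm
    _ ≤ q.totient * (A1 * Real.log q) := mul_le_mul_of_nonneg_left h1 (Nat.cast_nonneg _)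

lemma log_h_le {q : ℕ} (hq : 1 ≤ q) {d h : ℝ} (hd : 0 ≤ d) (hh : (q : ℝ) ^ (-d) ≤ h) :
    Real.log (2 + 1 / h) ≤ 2 + d * Real.log q := by
  have hq0 : (0 : ℝ) < q := by exact_mod_cast hq
  have hq1 : (1 : ℝ) ≤ q := by exact_mod_cast hq
  have hqd : 0 < (q : ℝ) ^ (-d) := by positivity
  have hh0 : 0 < h := lt_of_lt_of_le hqd hh
  have e1 : 1 / h ≤ (q : ℝ) ^ d := by
    rw [div_le_iff₀ hh0]
    have := mul_le_mul_of_nonneg_left hh (show 0 ≤ (q : ℝ) ^ d by positivity)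
    rw [← Real.rpow_add hq0, add_neg_cancel, Real.rpow_zero] at this
    exact this
  have e2 : 1 ≤ (q : ℝ) ^ d := Real.one_le_rpow hq1 hd
  have h0 : 0 < 1 / h := by positivity
  calc Real.log (2 + 1 / h) ≤ Real.log (3 * (q : ℝ) ^ d) :=
        Real.log_le_log (by linarith) (by linarith)
    _ = Real.log 3 + d * Real.log q := by
        rw [Real.log_mul (by norm_num) (by positivity), Real.log_rpow hq0]
    _ ≤ 2 + d * Real.log q := by
        have : Real.log 3 ≤ 2 := by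
          have := Real.log_le_sub_one_of_pos (show (0:ℝ) < 3 by norm_num)
          linarith
        linarith

/-- The thresholds for the moments. -/
lemma thr (b : ℕ) {l d A A1 θ : ℝ} (hl : 0 ≤ l) (hd : 0 ≤ d) (hA : 0 < A) (hA1 : 0 < A1)
    (hθ : 0 < θ) : ∀ᶠ L : ℝ in atTop, 8 ≤ L ∧ 2 * ((b : ℝ) + 1) ^ 2 ≤ L ∧
      (A + 1) * Real.log L ≤ L ∧
      (480 * b * (2 + d * L)) ^ 2 ≤ Real.exp (θ * L) ∧
      4 * (10 : ℝ) ^ (b * l) * A1 * L ≤ Real.exp (θ * L) ∧
      (2 * l * b * Real.log (A1 * ((A + 1) * Real.log L)) + 1) * ((A + 1) * Real.log L) ≤ L := by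
  have h0 : Tendsto Real.log atTop atTop := Real.tendsto_log_atTop
  have g1 : ∀ᶠ u : ℝ in atTop, (A + 1) * u ≤ Real.exp u := by
    filter_upwards [poly_exp (A + 1) one_pos, eventually_ge_atTop 0] with u hu hu0
    rw [one_mul] at hu
    refine le_trans ?_ hu
    apply mul_le_mul_of_nonneg_left _ (by linarith)
    nlinarith
  have g2 : ∀ᶠ u : ℝ in atTop,
      (2 * l * b * Real.log (A1 * ((A + 1) * u)) + 1) * ((A + 1) * u) ≤ Real.exp u := by
    filter_upwards [poly_exp ((2 * l * b * (A1 * (A + 1)) + 1) * (A + 1)) one_pos,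
      eventually_ge_atTop 1] with u hu hu0
    rw [one_mul] at hu
    refine le_trans ?_ hu
    have e1 : Real.log (A1 * ((A + 1) * u)) ≤ A1 * ((A + 1) * u) := by
      have := Real.log_le_sub_one_of_pos (show 0 < A1 * ((A + 1) * u) by positivity)
      linarith
    have e2 : 2 * l * b * Real.log (A1 * ((A + 1) * u)) + 1 ≤
        (2 * l * b * (A1 * (A + 1)) + 1) * (1 + u) := by
      have hlb : 0 ≤ 2 * l * (b : ℝ) := by positivity
      have e3 := mul_le_mul_of_nonneg_left e1 hlb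
      have e4 : 0 ≤ 2 * l * b * (A1 * (A + 1)) := by positivity
      nlinarith
    have e5 : (A + 1) * u ≤ (A + 1) * (1 + u) := mul_le_mul_of_nonneg_left (by linarith) (by linarith)
    calc (2 * l * b * Real.log (A1 * ((A + 1) * u)) + 1) * ((A + 1) * u) ≤
          ((2 * l * b * (A1 * (A + 1)) + 1) * (1 + u)) * ((A + 1) * u) :=
          mul_le_mul_of_nonneg_right e2 (by positivity)
      _ ≤ ((2 * l * b * (A1 * (A + 1)) + 1) * (1 + u)) * ((A + 1) * (1 + u)) :=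
          mul_le_mul_of_nonneg_left e5 (by positivity)
      _ = _ := by ring
  have g1' := h0.eventually g1
  have g2' := h0.eventually g2
  have g3 := poly_exp ((480 * b * (2 + d)) ^ 2) hθ
  have g4 := poly_exp (4 * (10 : ℝ) ^ (b * l) * A1) hθ
  filter_upwards [g1', g2', g3, g4, eventually_ge_atTop 8, eventually_ge_atTop (2 * ((b : ℝ) + 1) ^ 2)]
    with L k1 k2 k3 k4 k5 k6
  have hL0 : 0 < L := by linarith
  rw [Real.exp_log hL0] at k1 k2
  refine ⟨k5, k6, k1, ?_, ?_, k2⟩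
  · refine le_trans ?_ k3
    rw [← mul_pow]
    apply pow_le_pow_left₀ (by positivity)
    have : 2 + d * L ≤ (2 + d) * (1 + L) := by nlinarith
    have h480 : (0 : ℝ) ≤ 480 * b := by positivity
    nlinarith
  · refine le_trans ?_ k4
    apply mul_le_mul_of_nonneg_left _ (by positivity)
    nlinarith

open Classical in
/-- Moments over all characters modulo `q`, at a distance `h ≥ q^(-d)` from the edge. -/
theorem mom (b : ℕ) {l d : ℝ} (hl : 0 ≤ l) (hd : 0 ≤ d) (hbl : d * (b * l) < 1) :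
    ∃ M q0 : ℝ, 0 ≤ M ∧ ∀ (q : ℕ) [NeZero q], q0 ≤ q → ∀ (N i : ℕ) (P : ℕ → Polynomial ℂ),
      Hyp N i b P → ∀ (s : ℂ) (h : ℝ), s.re = 1 + (i:ℝ)/2 + h → (q : ℝ) ^ (-d) ≤ h → h ≤ 1 →
        ∑ ψ : DirichletCharacter ℂ q, (‖LP N P s ψ‖ ^ l + ‖LP N P s ψ‖ ^ (-l)) ≤
          M * q.totient := by
  obtain ⟨A1, hA1, hm⟩ := mertens
  have hA10 : 0 < A1 := by linarith
  obtain ⟨θ, hθ⟩ : ∃ θ : ℝ, θ = (1 - d * (b * l)) / 2 := ⟨_, rfl⟩
  have hθ0 : 0 < θ := by
    rw [hθ]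
    linarith
  have hθ1 : θ ≤ 1 / 2 := by
    have : 0 ≤ d * (b * l) := by positivity
    rw [hθ]
    linarith
  obtain ⟨A, hA⟩ : ∃ A : ℝ, A = 22 / θ := ⟨_, rfl⟩
  have hA44 : 44 ≤ A := by
    rw [hA, le_div_iff₀ hθ0]
    linarith
  have hθA : 22 = θ * A := by
    rw [hA]
    field_simp
  have hl2 : 0 < Real.log 2 := Real.log_pos (by norm_num)
  have hl2l := Real.log_two_lt_d9
  obtain ⟨L0, hL0⟩ := eventually_atTop.mp (thr b (A := A) (A1 := A1) hl hd (by linarith) hA10 hθ0)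
  obtain ⟨K, hK⟩ : ∃ K : ℝ, K = b * C0 + (1 / 2 + 1) := ⟨_, rfl⟩
  have hK0 : 0 ≤ K := by
    have := C0_nonneg
    rw [hK]
    positivity
  refine ⟨1 + 2 * (Real.exp (l * K) * (8 * Real.exp (2 * ((l / 2) ^ 2 * ((b : ℝ) ^ 2 * Z2))) + 2)),
    Real.exp L0 + 3, by positivity, ?_⟩
  intro q _ hqq N i P H s h hs hlow h1
  have hq : 0 < q := Nat.pos_of_ne_zero (NeZero.ne q)
  have hq0 : (0 : ℝ) < q := by exact_mod_cast hq
  have hqd : 0 < (q : ℝ) ^ (-d) := by positivity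
  have hh : 0 < h := lt_of_lt_of_le hqd hlow
  have hq3 : 3 ≤ q := by
    have : (3 : ℝ) ≤ q := by
      have := Real.exp_pos L0
      linarith
    exact_mod_cast this
  obtain ⟨L, hL⟩ : ∃ L : ℝ, L = Real.log q := ⟨_, rfl⟩
  have hLlow : L0 ≤ L := by
    rw [hL, Real.le_log_iff_exp_le hq0]
    linarith
  obtain ⟨t1, t2, t3, t4, t5, t6⟩ := hL0 L hLlow
  obtain ⟨ℓ, hℓ⟩ : ∃ ℓ : ℝ, ℓ = Real.log L := ⟨_, rfl⟩
  rw [← hℓ] at t3 t6
  have hLp : 0 < L := by linarith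
  have hℓ1 : 1 ≤ ℓ := by
    rw [hℓ, Real.le_log_iff_exp_le hLp]
    have := Real.exp_one_lt_d9
    linarith
  obtain ⟨a0, ha0⟩ : ∃ a0 : ℕ, a0 = ⌈A * ℓ / Real.log 2⌉₊ := ⟨_, rfl⟩
  obtain ⟨Y, hY⟩ : ∃ Y : ℝ, Y = a0 * Real.log 2 := ⟨_, rfl⟩
  have hYlow : A * ℓ ≤ Y := by
    have := Nat.le_ceil (A * ℓ / Real.log 2)
    rw [div_le_iff₀ hl2, ← ha0] at this
    rw [hY]
    exact this
  have hYup : Y ≤ (A + 1) * ℓ := by
    have h2 : (a0 : ℝ) < A * ℓ / Real.log 2 + 1 := by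
      rw [ha0]
      exact Nat.ceil_lt_add_one (by positivity)
    have h3 := mul_lt_mul_of_pos_right h2 hl2
    have e : (A * ℓ / Real.log 2 + 1) * Real.log 2 = A * ℓ + Real.log 2 := by
      have e1 : A * ℓ / Real.log 2 * Real.log 2 = A * ℓ := div_mul_cancel₀ _ hl2.ne'
      linear_combination e1
    rw [e, ← hY] at h3
    nlinarith
  have hY44 : 44 ≤ Y := by nlinarith
  have hY0 : 0 < Y := by linarith
  have hYL : Y ≤ L := hYup.trans t3
  have ha02 : 2 ≤ a0 := by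
    have h2 : (1 : ℝ) < a0 := by
      by_contra hcon
      push Not at hcon
      have : Y ≤ 1 * 1 := by
        rw [hY]
        exact mul_le_mul hcon (by linarith) hl2.le zero_le_one
      linarith
    exact_mod_cast h2
  obtain ⟨U, hU, hUb⟩ := setupV (a0 := a0) (η := 1) (B := b) H hh hs le_rfl hL hℓ hY t1 t2
    (by linarith) hYL one_pos
  rw [← hK] at hUb
  set R := (Finset.range (2 ^ a0 + 1)).filter Nat.Prime with hR
  have hLPe : ∀ ψ : DirichletCharacter ℂ q, LP N P s ψ = cexp (TT N P s ψ) := fun ψ =>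
    LP_eq_exp H hh hs ψ
  -- the exponential moments of the short sum
  have hexp : ∀ ε : ℝ, |ε| = l / 2 → ∑ ψ : DirichletCharacter ℂ q,
      ‖cexp (∑ p ∈ R, ((ε : ℂ) * cc N P s p) * ψ (p : ZMod q))‖ ^ 2 ≤
      (q.totient : ℝ) * (8 * Real.exp (2 * ((l / 2) ^ 2 * ((b : ℝ) ^ 2 * Z2))) + 2) := by
    intro ε hε
    obtain ⟨J, hJ⟩ : ∃ J : ℕ, J = ⌊L / Y⌋₊ := ⟨_, rfl⟩
    have hJ1 : (J : ℝ) * Y ≤ L := by
      have := Nat.floor_le (show 0 ≤ L / Y by positivity)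
      rw [← hJ, le_div_iff₀ hY0] at this
      exact this
    have hJ2 : L / Y < J + 1 := by
      rw [hJ]
      exact Nat.lt_floor_add_one _
    have hn : ∀ p, ‖(ε : ℂ) * cc N P s p‖ = l / 2 * ‖cc N P s p‖ := by
      intro p
      rw [norm_mul, Complex.norm_real, Real.norm_eq_abs, hε]
    have h2 := exp_moment (q := q) (2 ^ a0) J R (by
      intro p hp
      rw [hR, Finset.mem_filter, Finset.mem_range] at hp
      exact ⟨hp.2, by omega⟩) (fun p => (ε : ℂ) * cc N P s p) (by positivity) (by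
      have h3 : Real.log (((2 : ℝ) ^ a0) ^ J) ≤ Real.log (q : ℝ) := by
        rw [Real.log_pow, Real.log_pow, ← hL, ← hY]
        exact hJ1
      have h4 := (Real.log_le_log_iff (by positivity) hq0).mp h3
      exact_mod_cast h4) (by
      simp_rw [hn]
      rw [← Finset.mul_sum]
      have h3 := (sum_norm_cc_le H hh hs (2 ^ a0 + 1)).trans
        (mul_le_mul_of_nonneg_left (sum_inv_le hm ha02) (Nat.cast_nonneg _))
      rw [← hY] at h3
      have h4 : Real.log (A1 * Y) ≤ Real.log (A1 * ((A + 1) * ℓ)) :=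
        Real.log_le_log (by positivity) (mul_le_mul_of_nonneg_left hYup hA10.le)
      have h5 : 4 * (l / 2 * ∑ p ∈ R, ‖cc N P s p‖) ≤
          2 * l * b * Real.log (A1 * ((A + 1) * ℓ)) := by
        have h6 : ∑ p ∈ R, ‖cc N P s p‖ ≤ b * Real.log (A1 * ((A + 1) * ℓ)) :=
          h3.trans (mul_le_mul_of_nonneg_left h4 (Nat.cast_nonneg _))
        have h7 := mul_le_mul_of_nonneg_left h6 (show 0 ≤ 2 * l by positivity)
        linarith
      have h8 : 2 * l * b * Real.log (A1 * ((A + 1) * ℓ)) + 1 ≤ L / Y := by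
        have h9 : 2 * l * b * Real.log (A1 * ((A + 1) * ℓ)) + 1 ≤ L / ((A + 1) * ℓ) := by
          rw [le_div_iff₀ (by positivity)]
          exact t6
        exact h9.trans (div_le_div_of_nonneg_left hLp.le hY0 hYup)
      linarith)
    refine h2.trans ?_
    apply mul_le_mul_of_nonneg_left _ (Nat.cast_nonneg _)
    have h3 : ∑ p ∈ R, ‖(ε : ℂ) * cc N P s p‖ ^ 2 ≤ (l / 2) ^ 2 * ((b : ℝ) ^ 2 * Z2) := by
      simp_rw [hn, mul_pow]
      rw [← Finset.mul_sum]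
      exact mul_le_mul_of_nonneg_left (sum_cc_sq_le H hh hs _) (by positivity)
    have h4 := Real.exp_le_exp.mpr (show 2 * ∑ p ∈ R, ‖(ε : ℂ) * cc N P s p‖ ^ 2 ≤
      2 * ((l / 2) ^ 2 * ((b : ℝ) ^ 2 * Z2)) by linarith)
    linarith
  have hgood : ∀ ε : ℝ, |ε| = l / 2 → ∀ ψ : DirichletCharacter ℂ q, ψ ∉ U →
      ‖LP N P s ψ‖ ^ (2 * ε) ≤ Real.exp (l * K) *
        ‖cexp (∑ p ∈ R, ((ε : ℂ) * cc N P s p) * ψ (p : ZMod q))‖ ^ 2 := by
    intro ε hε ψ hψ
    have h2 := hUb ψ hψ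
    set W := ∑ p ∈ R, cc N P s p * ψ (p : ZMod q) with hW
    have e1 : ∑ p ∈ R, ((ε : ℂ) * cc N P s p) * ψ (p : ZMod q) = (ε : ℂ) * W := by
      rw [hW, Finset.mul_sum]
      apply Finset.sum_congr rfl
      intro p _
      ring
    rw [e1, hLPe ψ, Complex.norm_exp, Complex.norm_exp, ← Real.exp_mul, ← Real.exp_nat_mul,
      ← Real.exp_add]
    apply Real.exp_le_exp.mpr
    rw [Complex.re_ofReal_mul]
    have h3 : |(TT N P s ψ).re - W.re| ≤ K := by
      rw [← Complex.sub_re]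
      exact (Complex.abs_re_le_norm _).trans h2
    have h4 : ((TT N P s ψ).re - W.re) * (2 * ε) ≤ l * K := by
      calc ((TT N P s ψ).re - W.re) * (2 * ε) ≤ |((TT N P s ψ).re - W.re) * (2 * ε)| := le_abs_self _
        _ = |(TT N P s ψ).re - W.re| * (2 * |ε|) := by
            rw [abs_mul, abs_mul, abs_of_pos (show (0:ℝ) < 2 by norm_num)]
        _ ≤ K * (2 * |ε|) := mul_le_mul_of_nonneg_right h3 (by positivity)
        _ = l * K := by
            rw [hε]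
            ring
    push_cast
    nlinarith
  have hbad : ∀ ε : ℝ, |ε| = l / 2 → ∀ ψ : DirichletCharacter ℂ q,
      ‖LP N P s ψ‖ ^ (2 * ε) ≤ (10 : ℝ) ^ (b * l) * Real.exp (d * (b * l) * L) := by
    intro ε hε ψ
    have h2 := norm_TT_le H hh h1 hs ψ
    rw [hLPe ψ, Complex.norm_exp, ← Real.exp_mul]
    have h3 : (TT N P s ψ).re * (2 * ε) ≤ b * Real.log (10 / h) * l := by
      calc (TT N P s ψ).re * (2 * ε) ≤ |(TT N P s ψ).re * (2 * ε)| := le_abs_self _
        _ = |(TT N P s ψ).re| * (2 * |ε|) := by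
            rw [abs_mul, abs_mul, abs_of_pos (show (0:ℝ) < 2 by norm_num)]
        _ ≤ (b * Real.log (10 / h)) * (2 * |ε|) :=
            mul_le_mul_of_nonneg_right ((Complex.abs_re_le_norm _).trans h2) (by positivity)
        _ = b * Real.log (10 / h) * l := by
            rw [hε]
            ring
    have h4 : Real.log (10 / h) ≤ Real.log 10 + d * L := by
      rw [Real.log_div (by norm_num) hh.ne']
      have h5 := Real.log_le_log hqd hlow
      rw [Real.log_rpow hq0, ← hL] at h5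
      linarith
    have h5 : (10 : ℝ) ^ (b * l) = Real.exp (Real.log 10 * (b * l)) := Real.rpow_def_of_pos (by norm_num) _
    rw [h5, ← Real.exp_add]
    apply Real.exp_le_exp.mpr
    have h6 : (b : ℝ) * Real.log (10 / h) * l ≤ (b : ℝ) * (Real.log 10 + d * L) * l := by
      apply mul_le_mul_of_nonneg_right _ hl
      exact mul_le_mul_of_nonneg_left h4 (Nat.cast_nonneg _)
    nlinarith
  -- the contribution of the exceptional characters
  have hUc : (U.card : ℝ) * (2 * ((10 : ℝ) ^ (b * l) * Real.exp (d * (b * l) * L))) ≤ q.totient := by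
    have h2 : Real.log (2 + 1 / h) ≤ 2 + d * L := by
      rw [hL]
      exact log_h_le hq hd hlow
    have hlog0 : 0 ≤ Real.log (2 + 1 / h) := by
      apply Real.log_nonneg
      have : 0 < 1 / h := by positivity
      linarith
    have h3 : (480 * b * Real.log (2 + 1 / h) / 1) ^ 2 ≤ Real.exp (θ * L) := by
      refine le_trans ?_ t4
      rw [div_one]
      apply pow_le_pow_left₀ (by positivity)
      exact mul_le_mul_of_nonneg_left h2 (by positivity)
    have h4 : Real.exp (22 * (ℓ * L / Y)) ≤ Real.exp (θ * L) := by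
      apply Real.exp_le_exp.mpr
      have e1 : 22 * (ℓ * L / Y) = 22 * ℓ / Y * L := by ring
      rw [e1]
      apply mul_le_mul_of_nonneg_right _ hLp.le
      rw [div_le_iff₀ hY0]
      nlinarith
    have h5 : (U.card : ℝ) ≤ 2 * Real.exp (θ * L) := by linarith
    have hqe : (q : ℝ) = Real.exp L := by rw [hL, Real.exp_log hq0]
    have h6 := totient_ge hm hq3
    rw [← hL] at h6
    have hAL : 0 < A1 * L := by positivity
    have h7 : (U.card : ℝ) * (2 * ((10 : ℝ) ^ (b * l) * Real.exp (d * (b * l) * L))) * (A1 * L) ≤ q := by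
      calc (U.card : ℝ) * (2 * ((10 : ℝ) ^ (b * l) * Real.exp (d * (b * l) * L))) * (A1 * L) ≤
            (2 * Real.exp (θ * L)) * (2 * ((10 : ℝ) ^ (b * l) * Real.exp (d * (b * l) * L))) *
              (A1 * L) := by gcongr
        _ = Real.exp (θ * L) * Real.exp (d * (b * l) * L) * (4 * (10 : ℝ) ^ (b * l) * A1 * L) := by
            ring
        _ ≤ Real.exp (θ * L) * Real.exp (d * (b * l) * L) * Real.exp (θ * L) :=
            mul_le_mul_of_nonneg_left t5 (by positivity)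
        _ = q := by
            rw [hqe, ← Real.exp_add, ← Real.exp_add]
            congr 1
            rw [hθ]
            ring
    have h8 := h7.trans h6
    exact le_of_mul_le_mul_right h8 hAL
  have hl2' : |l / 2| = l / 2 := abs_of_nonneg (by positivity)
  have hl2'' : |-(l / 2)| = l / 2 := by rw [abs_neg, hl2']
  have he1 : 2 * (l / 2) = l := by ring
  have he2 : 2 * -(l / 2) = -l := by ring
  have hsplit : ∑ ψ : DirichletCharacter ℂ q, (‖LP N P s ψ‖ ^ l + ‖LP N P s ψ‖ ^ (-l)) =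
      ∑ ψ ∈ U, (‖LP N P s ψ‖ ^ l + ‖LP N P s ψ‖ ^ (-l)) +
      ∑ ψ ∈ Uᶜ, (‖LP N P s ψ‖ ^ l + ‖LP N P s ψ‖ ^ (-l)) := (Finset.sum_add_sum_compl U _).symm
  rw [hsplit]
  have hpartU : ∑ ψ ∈ U, (‖LP N P s ψ‖ ^ l + ‖LP N P s ψ‖ ^ (-l)) ≤ q.totient := by
    refine le_trans ?_ hUc
    rw [← nsmul_eq_mul, ← Finset.sum_const]
    apply Finset.sum_le_sum
    intro ψ _
    have h2 := hbad (l / 2) hl2' ψ
    have h3 := hbad (-(l / 2)) hl2'' ψ
    rw [he1] at h2
    rw [he2] at h3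
    linarith
  have hpartG : ∑ ψ ∈ Uᶜ, (‖LP N P s ψ‖ ^ l + ‖LP N P s ψ‖ ^ (-l)) ≤
      2 * (Real.exp (l * K) * ((q.totient : ℝ) *
        (8 * Real.exp (2 * ((l / 2) ^ 2 * ((b : ℝ) ^ 2 * Z2))) + 2))) := by
    have hpart : ∀ ε : ℝ, |ε| = l / 2 → ∑ ψ ∈ Uᶜ, ‖LP N P s ψ‖ ^ (2 * ε) ≤
        Real.exp (l * K) * ((q.totient : ℝ) *
        (8 * Real.exp (2 * ((l / 2) ^ 2 * ((b : ℝ) ^ 2 * Z2))) + 2)) := by
      intro ε hε
      calc ∑ ψ ∈ Uᶜ, ‖LP N P s ψ‖ ^ (2 * ε) ≤ ∑ ψ ∈ Uᶜ, Real.exp (l * K) *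
            ‖cexp (∑ p ∈ R, ((ε : ℂ) * cc N P s p) * ψ (p : ZMod q))‖ ^ 2 := by
            apply Finset.sum_le_sum
            intro ψ hψ
            exact hgood ε hε ψ (Finset.mem_compl.mp hψ)
        _ = Real.exp (l * K) * ∑ ψ ∈ Uᶜ,
            ‖cexp (∑ p ∈ R, ((ε : ℂ) * cc N P s p) * ψ (p : ZMod q))‖ ^ 2 := by
            rw [Finset.mul_sum]
        _ ≤ Real.exp (l * K) * ∑ ψ : DirichletCharacter ℂ q,
            ‖cexp (∑ p ∈ R, ((ε : ℂ) * cc N P s p) * ψ (p : ZMod q))‖ ^ 2 := by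
            apply mul_le_mul_of_nonneg_left _ (Real.exp_pos _).le
            exact Finset.sum_le_sum_of_subset_of_nonneg (Finset.subset_univ _)
              (fun ψ _ _ => by positivity)
        _ ≤ _ := mul_le_mul_of_nonneg_left (hexp ε hε) (Real.exp_pos _).le
    have h2 := hpart (l / 2) hl2'
    have h3 := hpart (-(l / 2)) hl2''
    rw [he1] at h2
    rw [he2] at h3
    rw [Finset.sum_add_distrib]
    linarith
  calc _ ≤ (q.totient : ℝ) + 2 * (Real.exp (l * K) * ((q.totient : ℝ) *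
        (8 * Real.exp (2 * ((l / 2) ^ 2 * ((b : ℝ) ^ 2 * Z2))) + 2))) := add_le_add hpartU hpartG
    _ = _ := by ring

end Pool.Agent.H81.GR
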