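import Mathlib
import Pool.Agent.H81.GR.Mom
import Pool.Agent.H81.ED.Equi

/-!
# GR, Dbl: the doubly exponential decay of large values over the characters modulo `q`
-/

set_option autoImplicit false

open Finset Complex Filter Topology

namespace Pool.Agent.H81.GR

open Pool.Agent.H89.EdgeBasic
open Pool.Agent.H91.Edge (mertens)
open Pool.Agent.H81.ED (LP card_char tot_pos)

variable {N i b : ℕ} {P : ℕ → Polynomial ℂ}

/-- The primes between two powers of two. -/
lemma mid_sq (H : Hyp N i b P) {s : ℂ} {h : ℝ} (hh : 0 < h) (hs : s.re = 1 + (i:ℝ)/2 + h)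
    {a c : ℕ} (hac : a ≤ c) :
    ∑ p ∈ (Finset.Ioc (2 ^ a) (2 ^ c)).filter Nat.Prime, ‖cc N P s p‖ ^ 2 ≤
      (b : ℝ) ^ 2 / 2 ^ a := by
  have hle : 2 ^ a ≤ 2 ^ c := Nat.pow_le_pow_right (by norm_num) hac
  calc ∑ p ∈ (Finset.Ioc (2 ^ a) (2 ^ c)).filter Nat.Prime, ‖cc N P s p‖ ^ 2 ≤
        ∑ p ∈ (Finset.Ioc (2 ^ a) (2 ^ c)).filter Nat.Prime, (b : ℝ) ^ 2 * ((p : ℝ) ^ 2)⁻¹ := by
        apply Finset.sum_le_sum
        intro p hp
        rw [← inv_pow, ← mul_pow]
        exact pow_le_pow_left₀ (norm_nonneg _) (norm_cc_inv H hh hs (Finset.mem_filter.mp hp).2) 2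
    _ ≤ ∑ p ∈ (Finset.Ioc (2 ^ a) (2 ^ c) : Finset ℕ), (b : ℝ) ^ 2 * ((p : ℝ) ^ 2)⁻¹ :=
        Finset.sum_le_sum_of_subset_of_nonneg (Finset.filter_subset _ _)
          (fun p _ _ => by positivity)
    _ = (b : ℝ) ^ 2 * ∑ p ∈ (Finset.Ioc (2 ^ a) (2 ^ c) : Finset ℕ), ((p : ℝ) ^ 2)⁻¹ := by
        rw [Finset.mul_sum]
    _ ≤ (b : ℝ) ^ 2 * (((2 ^ a : ℕ) : ℝ)⁻¹ - ((2 ^ c : ℕ) : ℝ)⁻¹) := by
        apply mul_le_mul_of_nonneg_left _ (by positivity)
        exact sum_Ioc_inv_sq_le_sub (by positivity) hle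
    _ ≤ (b : ℝ) ^ 2 / 2 ^ a := by
        rw [div_eq_mul_inv]
        apply mul_le_mul_of_nonneg_left _ (by positivity)
        have : 0 ≤ ((2 ^ c : ℕ) : ℝ)⁻¹ := by positivity
        push_cast at this ⊢
        linarith

/-- The splitting of the short sum. -/
lemma split_mid (f : ℕ → ℂ) {a c : ℕ} (hac : a ≤ c) :
    ∑ p ∈ (Finset.range (2 ^ c + 1)).filter Nat.Prime, f p =
      ∑ p ∈ (Finset.range (2 ^ a + 1)).filter Nat.Prime, f p +
      ∑ p ∈ (Finset.Ioc (2 ^ a) (2 ^ c)).filter Nat.Prime, f p := by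
  have hle : 2 ^ a ≤ 2 ^ c := Nat.pow_le_pow_right (by norm_num) hac
  have hdis : Disjoint ((Finset.range (2 ^ a + 1)).filter Nat.Prime)
      ((Finset.Ioc (2 ^ a) (2 ^ c)).filter Nat.Prime) := by
    rw [Finset.disjoint_left]
    intro p hp hp2
    rw [Finset.mem_filter, Finset.mem_range] at hp
    have := (Finset.mem_Ioc.mp (Finset.mem_filter.mp hp2).1).1
    omega
  rw [← Finset.sum_union hdis]
  apply Finset.sum_congr _ (fun _ _ => rfl)
  ext p
  rw [Finset.mem_union, Finset.mem_filter, Finset.mem_filter, Finset.mem_filter,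
    Finset.mem_range, Finset.mem_range, Finset.mem_Ioc]
  constructor
  · rintro ⟨h1, h2⟩
    by_cases h3 : p ≤ 2 ^ a
    · exact Or.inl ⟨by omega, h2⟩
    · exact Or.inr ⟨⟨by omega, by omega⟩, h2⟩
  · rintro (⟨h1, h2⟩ | ⟨⟨h1, h2⟩, h3⟩)
    · exact ⟨by omega, h2⟩
    · exact ⟨by omega, h3⟩

/-- Thresholds. -/
lemma thr2 (B : ℕ) {A1 : ℝ} (hA1 : 0 < A1) : ∀ᶠ L : ℝ in atTop, 16 ≤ L ∧
    2 * ((B : ℝ) + 1) ^ 2 ≤ L ∧ (88 + 1) * Real.log L ≤ L ∧
      (480 * B * (2 + L)) ^ 2 ≤ Real.exp (1 / 4 * L) ∧ 2 * A1 * L ≤ Real.exp (1 / 2 * L) ∧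
      (2 * Real.exp (1 / 2 * Real.log L) * |Real.log (A1 * ((88 + 1) * Real.log L))| + 1) *
        ((88 + 1) * Real.log L) ≤ L := by
  have h0 : Tendsto Real.log atTop atTop := Real.tendsto_log_atTop
  have g1 : ∀ᶠ u : ℝ in atTop, (88 + 1) * u ≤ Real.exp u := by
    filter_upwards [poly_exp (88 + 1) one_pos, eventually_ge_atTop 0] with u hu hu0
    rw [one_mul] at hu
    refine le_trans ?_ hu
    apply mul_le_mul_of_nonneg_left _ (by norm_num)
    nlinarith
  have g2 : ∀ᶠ u : ℝ in atTop,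
      (2 * Real.exp (1 / 2 * u) * |Real.log (A1 * ((88 + 1) * u))| + 1) * ((88 + 1) * u) ≤
        Real.exp u := by
    filter_upwards [poly_exp ((2 * (A1 * (88 + 1)) + 1) * (88 + 1)) (show (0:ℝ) < 1 / 2 by norm_num),
      eventually_ge_atTop 1, eventually_ge_atTop (1 / A1)] with u hu hu0 hu1
    have hA1u : 1 ≤ A1 * ((88 + 1) * u) := by
      rw [div_le_iff₀ hA1] at hu1
      nlinarith
    have e1 : |Real.log (A1 * ((88 + 1) * u))| ≤ A1 * ((88 + 1) * u) := by
      rw [abs_of_nonneg (Real.log_nonneg hA1u)]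
      have := Real.log_le_sub_one_of_pos (show 0 < A1 * ((88 + 1) * u) by positivity)
      linarith
    have hE1 : 1 ≤ Real.exp (1 / 2 * u) := Real.one_le_exp (by linarith)
    have e2 : 2 * Real.exp (1 / 2 * u) * |Real.log (A1 * ((88 + 1) * u))| + 1 ≤
        Real.exp (1 / 2 * u) * ((2 * (A1 * (88 + 1)) + 1) * (1 + u)) := by
      have e3 := mul_le_mul_of_nonneg_left e1 (show 0 ≤ 2 * Real.exp (1 / 2 * u) by positivity)
      have e4 : 2 * (A1 * ((88 + 1) * u)) + 1 ≤ (2 * (A1 * (88 + 1)) + 1) * (1 + u) := by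
        nlinarith
      have e5 := mul_le_mul_of_nonneg_left e4 (show 0 ≤ Real.exp (1 / 2 * u) by positivity)
      nlinarith
    have e6 : (88 + 1) * u ≤ (88 + 1) * (1 + u) := mul_le_mul_of_nonneg_left (by linarith) (by norm_num)
    calc (2 * Real.exp (1 / 2 * u) * |Real.log (A1 * ((88 + 1) * u))| + 1) * ((88 + 1) * u) ≤
          (Real.exp (1 / 2 * u) * ((2 * (A1 * (88 + 1)) + 1) * (1 + u))) * ((88 + 1) * u) :=
          mul_le_mul_of_nonneg_right e2 (by positivity)
      _ ≤ (Real.exp (1 / 2 * u) * ((2 * (A1 * (88 + 1)) + 1) * (1 + u))) * ((88 + 1) * (1 + u)) :=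
          mul_le_mul_of_nonneg_left e6 (by positivity)
      _ = Real.exp (1 / 2 * u) * (((2 * (A1 * (88 + 1)) + 1) * (88 + 1)) * (1 + u) ^ 2) := by ring
      _ ≤ Real.exp (1 / 2 * u) * Real.exp (1 / 2 * u) :=
          mul_le_mul_of_nonneg_left hu (Real.exp_pos _).le
      _ = Real.exp u := by
          rw [← Real.exp_add]
          congr 1
          ring
  have g1' := h0.eventually g1
  have g2' := h0.eventually g2
  have g3 := poly_exp ((480 * (B : ℝ) * 2) ^ 2) (show (0:ℝ) < 1 / 4 by norm_num)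
  have g4 := poly_exp (2 * A1) (show (0:ℝ) < 1 / 2 by norm_num)
  filter_upwards [g1', g2', g3, g4, eventually_ge_atTop 16,
    eventually_ge_atTop (2 * ((B : ℝ) + 1) ^ 2)] with L k1 k2 k3 k4 k5 k6
  have hL0 : 0 < L := by linarith
  rw [Real.exp_log hL0] at k1 k2
  refine ⟨k5, k6, k1, ?_, ?_, k2⟩
  · refine le_trans ?_ k3
    rw [← mul_pow]
    apply pow_le_pow_left₀ (by positivity)
    have h480 : (0 : ℝ) ≤ 480 * B := by positivity
    nlinarith
  · refine le_trans ?_ k4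
    apply mul_le_mul_of_nonneg_left _ (by positivity)
    nlinarith

lemma aux_sqrt {r L E : ℝ} (h0 : 0 < r) (h : r * r = L) (h16 : 16 ≤ L) (hE : E ≤ r) :
    E ≤ L / 4 := by
  have hr4 : 4 ≤ r := by nlinarith
  nlinarith

open Classical in
/-- The doubly exponential decay, at every distance `h > 0` from the edge. -/
theorem q_bound3 (B : ℕ) : ∃ C : ℝ, 21 ≤ C ∧
    ∀ (N i b : ℕ) (P : ℕ → Polynomial ℂ), Hyp N i b P → b ≤ B → ∀ (q : ℕ) [NeZero q], C ≤ q →
      ∀ h t V : ℝ, 0 < h → 1 ≤ V → V ≤ Real.log (Real.log q) →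
        ((Finset.univ.filter (fun ψ : DirichletCharacter ℂ q =>
          ¬ ((V ^ b)⁻¹ ≤ ‖∏' p : {p : ℕ // p.Prime ∧ ¬ p ∣ N}, ((P p).eval (ψ (p : ℕ) *
                ((p : ℕ) : ℂ) ^ (-(1 + (i:ℂ)/2 + h + t * I))))⁻¹‖ ∧
            ‖∏' p : {p : ℕ // p.Prime ∧ ¬ p ∣ N}, ((P p).eval (ψ (p : ℕ) *
                ((p : ℕ) : ℂ) ^ (-(1 + (i:ℂ)/2 + h + t * I))))⁻¹‖ ≤ V ^ b))).card : ℝ) ≤
          C * q.totient * Real.exp (-Real.exp (V / C)) + C * Real.log (2 + 1 / h) ^ 2 := by
  obtain ⟨A1, hA1, hm⟩ := mertens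
  have hA10 : 0 < A1 := by linarith
  have hl2 : 0 < Real.log 2 := Real.log_pos (by norm_num)
  have hl2g := Real.log_two_gt_d9
  have hl2l := Real.log_two_lt_d9
  have hC00 := C0_nonneg
  obtain ⟨K, hK⟩ : ∃ K : ℝ, K = A1 * Real.exp (C0 + 3) := ⟨_, rfl⟩
  have hK2 : 2 ≤ K := by
    rw [hK]
    have h1 : Real.exp 1 ≤ Real.exp (C0 + 3) := Real.exp_le_exp.mpr (by linarith)
    have h2 := Real.exp_one_gt_d9
    nlinarith
  have hK0 : 0 < K := by linarith
  obtain ⟨β, hβ⟩ : ∃ β : ℝ, β = (B : ℝ) + 1 := ⟨_, rfl⟩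
  have hβ1 : 1 ≤ β := by
    rw [hβ]
    have := Nat.cast_nonneg (α := ℝ) B
    linarith
  have hβ0 : 0 < β := by linarith
  obtain ⟨L0, hL0⟩ := eventually_atTop.mp (thr2 B hA10)
  obtain ⟨C, hC⟩ : ∃ C : ℝ, C = Real.exp L0 + 21 + 3 * K + 2 * K * Real.log (4 * β ^ 2) +
    (480 * (B : ℝ)) ^ 2 := ⟨_, rfl⟩
  have h480 : 0 ≤ (480 * (B : ℝ)) ^ 2 := by positivity
  have hlogβ : 0 ≤ Real.log (4 * β ^ 2) := Real.log_nonneg (by nlinarith)
  have hexpL0 := Real.exp_pos L0
  have hCL : Real.exp L0 ≤ C := by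
    rw [hC]
    have : 0 ≤ 2 * K * Real.log (4 * β ^ 2) := by positivity
    linarith
  have hC21 : 21 ≤ C := by
    rw [hC]
    have : 0 ≤ 2 * K * Real.log (4 * β ^ 2) := by positivity
    linarith
  have hC3K : 3 * K ≤ C := by
    rw [hC]
    have : 0 ≤ 2 * K * Real.log (4 * β ^ 2) := by positivity
    linarith
  have hClog : 2 * K * Real.log (4 * β ^ 2) ≤ C := by
    rw [hC]
    linarith
  have hC480 : (480 * (B : ℝ)) ^ 2 ≤ C := by
    rw [hC]
    have : 0 ≤ 2 * K * Real.log (4 * β ^ 2) := by positivity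
    linarith
  have hC0 : 0 < C := by linarith
  refine ⟨C, hC21, ?_⟩
  intro N i b P H hbB q _ hCq h t V hh hV1 hVℓ
  have hlog0 : 0 ≤ Real.log (2 + 1 / h) := by
    apply Real.log_nonneg
    have : 0 < 1 / h := by positivity
    linarith
  have htl0 : 0 ≤ C * Real.log (2 + 1 / h) ^ 2 := by positivity
  have hq : 0 < q := Nat.pos_of_ne_zero (NeZero.ne q)
  have hq0 : (0 : ℝ) < q := by exact_mod_cast hq
  have hq3 : 3 ≤ q := by
    have : (3 : ℝ) ≤ q := by linarith
    exact_mod_cast this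
  have hV0 : 0 < V := by linarith
  have htp := tot_pos q
  obtain ⟨L, hL⟩ : ∃ L : ℝ, L = Real.log q := ⟨_, rfl⟩
  rw [← hL] at hVℓ
  have hLlow : L0 ≤ L := by
    rw [hL, Real.le_log_iff_exp_le hq0]
    linarith
  obtain ⟨t1, t2, t3, t4, t5, t6⟩ := hL0 L hLlow
  obtain ⟨ℓ, hℓ⟩ : ∃ ℓ : ℝ, ℓ = Real.log L := ⟨_, rfl⟩
  rw [← hℓ] at t3 t6 hVℓ
  have hLp : 0 < L := by linarith
  have hLexp : L = Real.exp ℓ := by rw [hℓ, Real.exp_log hLp]
  have hℓ1 : 1 ≤ ℓ := hV1.trans hVℓ
  set BAD := Finset.univ.filter (fun ψ : DirichletCharacter ℂ q =>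
          ¬ ((V ^ b)⁻¹ ≤ ‖∏' p : {p : ℕ // p.Prime ∧ ¬ p ∣ N}, ((P p).eval (ψ (p : ℕ) *
                ((p : ℕ) : ℂ) ^ (-(1 + (i:ℂ)/2 + h + t * I))))⁻¹‖ ∧
            ‖∏' p : {p : ℕ // p.Prime ∧ ¬ p ∣ N}, ((P p).eval (ψ (p : ℕ) *
                ((p : ℕ) : ℂ) ^ (-(1 + (i:ℂ)/2 + h + t * I))))⁻¹‖ ≤ V ^ b)) with hBAD
  have htriv : (BAD.card : ℝ) ≤ q.totient := by
    have h1 : BAD.card ≤ Fintype.card (DirichletCharacter ℂ q) := Finset.card_le_univ _
    rw [card_char] at h1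
    exact_mod_cast h1
  by_cases hcase : V < 3 * K ∨ V < 2 * K * Real.log (4 * β ^ 2)
  · -- the trivial bound
    have hVC : V / C ≤ 1 := by
      rw [div_le_one hC0]
      rcases hcase with h1 | h1 <;> linarith
    have h1 : Real.exp (V / C) ≤ Real.exp 1 := Real.exp_le_exp.mpr hVC
    have h2 : Real.exp (Real.exp 1) ≤ 21 := by
      have h3 : Real.exp 1 ≤ 3 := by
        have := Real.exp_one_lt_d9
        linarith
      calc Real.exp (Real.exp 1) ≤ Real.exp 3 := Real.exp_le_exp.mpr h3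
        _ = Real.exp 1 ^ 3 := by
            rw [← Real.exp_nat_mul]
            norm_num
        _ ≤ (2.7182818286 : ℝ) ^ 3 := pow_le_pow_left₀ (Real.exp_pos _).le Real.exp_one_lt_d9.le 3
        _ ≤ 21 := by norm_num
    have h4 : 1 ≤ C * Real.exp (-Real.exp (V / C)) := by
      rw [Real.exp_neg, ← div_eq_mul_inv, le_div_iff₀ (Real.exp_pos _), one_mul]
      exact ((Real.exp_le_exp.mpr h1).trans h2).trans hC21
    have h5 : (BAD.card : ℝ) ≤ C * q.totient * Real.exp (-Real.exp (V / C)) := by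
      calc (BAD.card : ℝ) ≤ q.totient * 1 := by linarith
        _ ≤ q.totient * (C * Real.exp (-Real.exp (V / C))) := mul_le_mul_of_nonneg_left h4 htp.le
        _ = _ := by ring
    linarith
  push Not at hcase
  obtain ⟨hV3, hVβ⟩ := hcase
  -- the two cuts
  obtain ⟨a, ha⟩ : ∃ a : ℕ, a = ⌊V / (K * Real.log 2)⌋₊ := ⟨_, rfl⟩
  have hKl : 0 < K * Real.log 2 := by positivity
  have hale : (a : ℝ) * (K * Real.log 2) ≤ V := by
    have := Nat.floor_le (show 0 ≤ V / (K * Real.log 2) by positivity)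
    rw [← ha, le_div_iff₀ hKl] at this
    exact this
  have halt : V < ((a : ℝ) + 1) * (K * Real.log 2) := by
    have := Nat.lt_floor_add_one (V / (K * Real.log 2))
    rw [← ha, div_lt_iff₀ hKl] at this
    exact this
  have ha3 : 3 ≤ a := by
    have h1 : (3 : ℝ) < (a : ℝ) + 1 := by
      by_contra hcon
      push Not at hcon
      have h4 : ((a : ℝ) + 1) * (K * Real.log 2) ≤ 3 * (K * Real.log 2) :=
        mul_le_mul_of_nonneg_right hcon hKl.le
      have h5 : K * Real.log 2 ≤ K * 1 := mul_le_mul_of_nonneg_left (by linarith) hK0.le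
      linarith
    have h2 : (2 : ℝ) < a := by linarith
    exact_mod_cast h2
  obtain ⟨Ya, hYa⟩ : ∃ Ya : ℝ, Ya = a * Real.log 2 := ⟨_, rfl⟩
  have hKYa : K * Ya ≤ V := by
    rw [hYa]
    linarith
  have hYa0 : 0 < Ya := by
    rw [hYa]
    have : (0 : ℝ) < a := by exact_mod_cast (by omega : 0 < a)
    positivity
  have h2a : (2 : ℝ) ^ a = Real.exp Ya := by
    rw [hYa, Real.exp_nat_mul, Real.exp_log (by norm_num)]
  obtain ⟨a0, ha0⟩ : ∃ a0 : ℕ, a0 = ⌈88 * ℓ / Real.log 2⌉₊ := ⟨_, rfl⟩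
  obtain ⟨Y, hY⟩ : ∃ Y : ℝ, Y = a0 * Real.log 2 := ⟨_, rfl⟩
  have hYlow : 88 * ℓ ≤ Y := by
    have := Nat.le_ceil (88 * ℓ / Real.log 2)
    rw [div_le_iff₀ hl2, ← ha0] at this
    rw [hY]
    exact this
  have hYup : Y ≤ (88 + 1) * ℓ := by
    have h2 : (a0 : ℝ) < 88 * ℓ / Real.log 2 + 1 := by
      rw [ha0]
      exact Nat.ceil_lt_add_one (by positivity)
    have h3 := mul_lt_mul_of_pos_right h2 hl2
    have e : (88 * ℓ / Real.log 2 + 1) * Real.log 2 = 88 * ℓ + Real.log 2 := by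
      have e1 : 88 * ℓ / Real.log 2 * Real.log 2 = 88 * ℓ := div_mul_cancel₀ _ hl2.ne'
      linear_combination e1
    rw [e, ← hY] at h3
    linarith
  have hY0 : 0 < Y := by linarith
  have hYL : Y ≤ L := hYup.trans t3
  have hYa2 : 2 * Ya ≤ V := by
    have h1 : 2 * Ya ≤ K * Ya := mul_le_mul_of_nonneg_right hK2 hYa0.le
    linarith
  have hYaY : Ya ≤ Y := by linarith
  have haa0 : a ≤ a0 := by
    have h3 : (a : ℝ) * Real.log 2 ≤ a0 * Real.log 2 := by
      rw [← hYa, ← hY]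
      exact hYaY
    have h4 : (a : ℝ) ≤ a0 := le_of_mul_le_mul_right h3 hl2
    exact_mod_cast h4
  set s : ℂ := 1 + (i:ℂ)/2 + h + t * I with hs
  have hsre : s.re = 1 + (i:ℝ)/2 + h := by
    rw [hs]
    simp
  obtain ⟨U, hU, hUb⟩ := setupV (a0 := a0) (η := 1) H hh hsre hbB hL hℓ hY (by linarith) t2
    (by linarith) hYL one_pos
  -- the middle sum
  set R := (Finset.Ioc (2 ^ a) (2 ^ a0)).filter Nat.Prime with hR
  obtain ⟨lam, hlam⟩ : ∃ lam : ℝ, lam = 2 ^ a / (2 * β ^ 2) := ⟨_, rfl⟩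
  have hlam0 : 0 < lam := by
    rw [hlam]
    positivity
  have hbβ : (b : ℝ) ≤ β := by
    have : (b : ℝ) ≤ B := by exact_mod_cast hbB
    rw [hβ]
    linarith
  have hsqrt : (2 : ℝ) ^ a ≤ Real.exp (1 / 2 * ℓ) := by
    rw [h2a]
    apply Real.exp_le_exp.mpr
    linarith
  have hexp : ∀ ε : ℝ, |ε| = lam → ∑ ψ : DirichletCharacter ℂ q,
      ‖cexp (∑ p ∈ R, ((ε : ℂ) * cc N P s p) * ψ (p : ZMod q))‖ ^ 2 ≤
      (q.totient : ℝ) * (8 * Real.exp (2 ^ a / (2 * β ^ 2)) + 2) := by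
    intro ε hε
    obtain ⟨J, hJ⟩ : ∃ J : ℕ, J = ⌊L / Y⌋₊ := ⟨_, rfl⟩
    have hJ1 : (J : ℝ) * Y ≤ L := by
      have := Nat.floor_le (show 0 ≤ L / Y by positivity)
      rw [← hJ, le_div_iff₀ hY0] at this
      exact this
    have hJ2 : L / Y < J + 1 := by
      rw [hJ]
      exact Nat.lt_floor_add_one _
    have hn : ∀ p, ‖(ε : ℂ) * cc N P s p‖ = lam * ‖cc N P s p‖ := by
      intro p
      rw [norm_mul, Complex.norm_real, Real.norm_eq_abs, hε]
    have h2 := exp_moment (q := q) (2 ^ a0) J R (by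
      intro p hp
      rw [hR, Finset.mem_filter, Finset.mem_Ioc] at hp
      exact ⟨hp.2, hp.1.2⟩) (fun p => (ε : ℂ) * cc N P s p) (by positivity) (by
      have h3 : Real.log (((2 : ℝ) ^ a0) ^ J) ≤ Real.log (q : ℝ) := by
        rw [Real.log_pow, Real.log_pow, ← hL, ← hY]
        exact hJ1
      have h4 := (Real.log_le_log_iff (by positivity) hq0).mp h3
      exact_mod_cast h4) (by
      simp_rw [hn]
      rw [← Finset.mul_sum]
      have h3 : ∑ p ∈ R, ‖cc N P s p‖ ≤ b * Real.log (A1 * Y) := by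
        refine le_trans ?_ ((sum_norm_cc_le H hh hsre (2 ^ a0 + 1)).trans
          (mul_le_mul_of_nonneg_left ((sum_inv_le hm (show 2 ≤ a0 by omega)).trans_eq
            (by rw [← hY])) (Nat.cast_nonneg _)))
        apply Finset.sum_le_sum_of_subset_of_nonneg
        · intro p hp
          rw [hR, Finset.mem_filter, Finset.mem_Ioc] at hp
          rw [Finset.mem_filter, Finset.mem_range]
          exact ⟨by omega, hp.2⟩
        · intro p _ _
          exact norm_nonneg _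
      have h4 : Real.log (A1 * Y) ≤ |Real.log (A1 * ((88 + 1) * ℓ))| :=
        (Real.log_le_log (by positivity) (mul_le_mul_of_nonneg_left hYup hA10.le)).trans
          (le_abs_self _)
      have h5 : 4 * (lam * ∑ p ∈ R, ‖cc N P s p‖) ≤
          2 * Real.exp (1 / 2 * ℓ) * |Real.log (A1 * ((88 + 1) * ℓ))| := by
        have h6 : ∑ p ∈ R, ‖cc N P s p‖ ≤ β * |Real.log (A1 * ((88 + 1) * ℓ))| := by
          refine h3.trans ?_
          calc (b : ℝ) * Real.log (A1 * Y) ≤ b * |Real.log (A1 * ((88 + 1) * ℓ))| :=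
                mul_le_mul_of_nonneg_left h4 (Nat.cast_nonneg _)
            _ ≤ β * |Real.log (A1 * ((88 + 1) * ℓ))| :=
                mul_le_mul_of_nonneg_right hbβ (abs_nonneg _)
        have h7 : 4 * lam * β ≤ 2 * Real.exp (1 / 2 * ℓ) := by
          have e1 : 4 * lam * β = 2 * 2 ^ a / β := by
            rw [hlam]
            field_simp
            ring
          rw [e1, div_le_iff₀ hβ0]
          have h9 : Real.exp (1 / 2 * ℓ) * 1 ≤ Real.exp (1 / 2 * ℓ) * β :=
            mul_le_mul_of_nonneg_left hβ1 (Real.exp_pos _).le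
          linarith
        calc 4 * (lam * ∑ p ∈ R, ‖cc N P s p‖) ≤
              4 * (lam * (β * |Real.log (A1 * ((88 + 1) * ℓ))|)) := by
              apply mul_le_mul_of_nonneg_left _ (by norm_num)
              exact mul_le_mul_of_nonneg_left h6 hlam0.le
          _ = 4 * lam * β * |Real.log (A1 * ((88 + 1) * ℓ))| := by ring
          _ ≤ _ := mul_le_mul_of_nonneg_right h7 (abs_nonneg _)
      have h8 : 2 * Real.exp (1 / 2 * ℓ) * |Real.log (A1 * ((88 + 1) * ℓ))| + 1 ≤ L / Y := by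
        have h9 : 2 * Real.exp (1 / 2 * ℓ) * |Real.log (A1 * ((88 + 1) * ℓ))| + 1 ≤
            L / ((88 + 1) * ℓ) := by
          rw [le_div_iff₀ (by positivity)]
          exact t6
        exact h9.trans (div_le_div_of_nonneg_left hLp.le hY0 hYup)
      linarith)
    refine h2.trans ?_
    apply mul_le_mul_of_nonneg_left _ (Nat.cast_nonneg _)
    have h3 : 2 * ∑ p ∈ R, ‖(ε : ℂ) * cc N P s p‖ ^ 2 ≤ 2 ^ a / (2 * β ^ 2) := by
      simp_rw [hn, mul_pow]
      rw [← Finset.mul_sum]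
      have h4 := mid_sq H hh hsre haa0
      calc 2 * (lam ^ 2 * ∑ p ∈ R, ‖cc N P s p‖ ^ 2) ≤ 2 * (lam ^ 2 * (β ^ 2 / 2 ^ a)) := by
            apply mul_le_mul_of_nonneg_left _ (by norm_num)
            apply mul_le_mul_of_nonneg_left _ (by positivity)
            refine h4.trans ?_
            apply div_le_div_of_nonneg_right _ (by positivity)
            exact pow_le_pow_left₀ (Nat.cast_nonneg _) hbβ 2
        _ = 2 ^ a / (2 * β ^ 2) := by
            rw [hlam]
            field_simp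
    have h4 := Real.exp_le_exp.mpr h3
    linarith
  -- the bad characters of the middle sum
  have hmid : ∀ ε : ℝ, |ε| = lam → ((Finset.univ.filter (fun ψ : DirichletCharacter ℂ q =>
      lam < ((ε : ℂ) * ∑ p ∈ R, cc N P s p * ψ (p : ZMod q)).re)).card : ℝ) ≤
      q.totient * (10 * Real.exp (-(2 ^ a / (2 * β ^ 2)))) := by
    intro ε hε
    have h2 := hexp ε hε
    set G := Finset.univ.filter (fun ψ : DirichletCharacter ℂ q =>
      lam < ((ε : ℂ) * ∑ p ∈ R, cc N P s p * ψ (p : ZMod q)).re) with hG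
    have h3 : (G.card : ℝ) * Real.exp (2 * lam) ≤
        (q.totient : ℝ) * (8 * Real.exp (2 ^ a / (2 * β ^ 2)) + 2) := by
      refine le_trans ?_ h2
      rw [← nsmul_eq_mul, ← Finset.sum_const]
      calc ∑ _ψ ∈ G, Real.exp (2 * lam) ≤ ∑ ψ ∈ G,
            ‖cexp (∑ p ∈ R, ((ε : ℂ) * cc N P s p) * ψ (p : ZMod q))‖ ^ 2 := by
            apply Finset.sum_le_sum
            intro ψ hψ
            have h4 := (Finset.mem_filter.mp hψ).2
            have e1 : ∑ p ∈ R, ((ε : ℂ) * cc N P s p) * ψ (p : ZMod q) =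
                (ε : ℂ) * ∑ p ∈ R, cc N P s p * ψ (p : ZMod q) := by
              rw [Finset.mul_sum]
              apply Finset.sum_congr rfl
              intro p _
              ring
            rw [e1, Complex.norm_exp, ← Real.exp_nat_mul]
            apply Real.exp_le_exp.mpr
            push_cast
            linarith
        _ ≤ ∑ ψ : DirichletCharacter ℂ q,
            ‖cexp (∑ p ∈ R, ((ε : ℂ) * cc N P s p) * ψ (p : ZMod q))‖ ^ 2 :=
            Finset.sum_le_sum_of_subset_of_nonneg (Finset.subset_univ _)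
              (fun ψ _ _ => by positivity)
    obtain ⟨X, hX⟩ : ∃ X : ℝ, X = 2 ^ a / (2 * β ^ 2) := ⟨_, rfl⟩
    rw [← hX] at h3 ⊢
    rw [← hX] at hlam
    rw [hlam] at h3
    have hX0 : 0 < X := by rw [← hlam]; exact hlam0
    have h5 : (8 * Real.exp X + 2) ≤ 10 * Real.exp X := by
      have := Real.one_le_exp hX0.le
      linarith
    have h6 : (G.card : ℝ) * Real.exp (2 * X) ≤
        (q.totient * (10 * Real.exp (-X))) * Real.exp (2 * X) := by
      refine h3.trans ?_
      calc (q.totient : ℝ) * (8 * Real.exp X + 2) ≤ q.totient * (10 * Real.exp X) :=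
            mul_le_mul_of_nonneg_left h5 htp.le
        _ = _ := by
            rw [mul_assoc, mul_assoc, ← Real.exp_add]
            congr 3
            ring
    exact le_of_mul_le_mul_right h6 (Real.exp_pos _)
  set G1 := Finset.univ.filter (fun ψ : DirichletCharacter ℂ q =>
      lam < (((lam : ℝ) : ℂ) * ∑ p ∈ R, cc N P s p * ψ (p : ZMod q)).re) with hG1
  set G2 := Finset.univ.filter (fun ψ : DirichletCharacter ℂ q =>
      lam < (((-lam : ℝ) : ℂ) * ∑ p ∈ R, cc N P s p * ψ (p : ZMod q)).re) with hG2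
  have hsub : BAD ⊆ U ∪ (G1 ∪ G2) := by
    intro ψ hψ
    rw [hBAD, Finset.mem_filter] at hψ
    by_contra hcon
    rw [Finset.mem_union, Finset.mem_union] at hcon
    push Not at hcon
    obtain ⟨hc1, hc2, hc3⟩ := hcon
    apply hψ.2
    have hg := hUb ψ hc1
    have hLP : LP N P s ψ = cexp (TT N P s ψ) := LP_eq_exp H hh hsre ψ
    rw [split_mid _ haa0] at hg
    set W := ∑ p ∈ (Finset.range (2 ^ a + 1)).filter Nat.Prime, cc N P s p * ψ (p : ZMod q)
      with hW
    set W' := ∑ p ∈ R, cc N P s p * ψ (p : ZMod q) with hW'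
    rw [hG1, Finset.mem_filter] at hc2
    rw [hG2, Finset.mem_filter] at hc3
    push Not at hc2 hc3
    have f1 := hc2 (Finset.mem_univ _)
    have f2 := hc3 (Finset.mem_univ _)
    rw [Complex.re_ofReal_mul] at f1 f2
    have f3 : |W'.re| ≤ 1 := by
      rw [abs_le]
      constructor
      · have g1 : lam * (-W'.re) ≤ lam * 1 := by linarith
        have g2 := le_of_mul_le_mul_left g1 hlam0
        linarith
      · have g1 : lam * W'.re ≤ lam * 1 := by linarith
        exact le_of_mul_le_mul_left g1 hlam0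
    have hsum := sum_inv_le hm (show 2 ≤ a by omega)
    rw [← hYa] at hsum
    have hWn : ‖W‖ ≤ b * Real.log (A1 * Ya) := by
      refine (norm_sum_le _ _).trans ?_
      refine le_trans ?_ ((sum_norm_cc_le H hh hsre _).trans
        (mul_le_mul_of_nonneg_left hsum (Nat.cast_nonneg _)))
      apply Finset.sum_le_sum
      intro p _
      rw [norm_mul]
      exact mul_le_of_le_one_right (norm_nonneg _) (ψ.norm_le_one _)
    have hT : |(TT N P s ψ).re| ≤ b * Real.log V := by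
      by_cases hb : b = 0
      · subst hb
        rw [TT_zero H hsre ψ]
        simp
      · have hb1 : (1 : ℝ) ≤ b := by exact_mod_cast Nat.one_le_iff_ne_zero.mpr hb
        have e0 : |(TT N P s ψ).re| ≤ ‖TT N P s ψ - (W + W')‖ + (‖W‖ + |W'.re|) := by
          have e1 : (TT N P s ψ).re = (TT N P s ψ - (W + W')).re + (W.re + W'.re) := by
            rw [Complex.sub_re, Complex.add_re]
            ring
          rw [e1]
          refine (abs_add_le _ _).trans (add_le_add (Complex.abs_re_le_norm _) ?_)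
          exact (abs_add_le _ _).trans (add_le_add (Complex.abs_re_le_norm _) le_rfl)
        have e3 : Real.log (A1 * Ya) + (C0 + 3) = Real.log (K * Ya) := by
          rw [hK, Real.log_mul (by positivity) (by positivity),
            Real.log_mul (x := A1 * Real.exp (C0 + 3)) (by positivity) (by positivity),
            Real.log_mul (by positivity) (Real.exp_pos _).ne', Real.log_exp]
          ring
        have e4 : Real.log (K * Ya) ≤ Real.log V := Real.log_le_log (by positivity) hKYa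
        have e6 : (b : ℝ) * (Real.log (A1 * Ya) + (C0 + 3)) ≤ b * Real.log V :=
          mul_le_mul_of_nonneg_left (by linarith) (by linarith)
        have e7 : (b : ℝ) * (Real.log (A1 * Ya) + (C0 + 3)) =
            b * Real.log (A1 * Ya) + b * C0 + 3 * b := by ring
        linarith
    change (V ^ b)⁻¹ ≤ ‖LP N P s ψ‖ ∧ ‖LP N P s ψ‖ ≤ V ^ b
    rw [hLP, Complex.norm_exp]
    have hre := abs_le.mp hT
    have hpw : V ^ b = Real.exp (b * Real.log V) := by
      rw [Real.exp_nat_mul, Real.exp_log hV0]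
    rw [hpw, ← Real.exp_neg]
    exact ⟨Real.exp_le_exp.mpr (by linarith [hre.1]), Real.exp_le_exp.mpr hre.2⟩
  have hcard : (BAD.card : ℝ) ≤ U.card + (G1.card + G2.card) := by
    have e1 := (Finset.card_le_card hsub).trans (Finset.card_union_le _ _)
    have e2 := e1.trans (Nat.add_le_add_left (Finset.card_union_le G1 G2) _)
    exact_mod_cast e2
  have hc1 := hmid lam (abs_of_pos hlam0)
  have hc2 := hmid (-lam) (by rw [abs_neg, abs_of_pos hlam0])
  -- comparison of the exponents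
  have hmain : Real.exp (V / C) ≤ 2 ^ a / (2 * β ^ 2) := by
    have e1 : V / K - 1 ≤ Ya := by
      rw [hYa]
      have : V / K < ((a : ℝ) + 1) * Real.log 2 := by
        rw [div_lt_iff₀ hK0]
        linarith
      linarith
    have e2 : Real.exp (V / K) / 3 ≤ 2 ^ a := by
      rw [h2a, div_le_iff₀ (by norm_num)]
      have h3 : Real.exp 1 ≤ 3 := by
        have := Real.exp_one_lt_d9
        linarith
      calc Real.exp (V / K) = Real.exp (V / K - 1) * Real.exp 1 := by
            rw [← Real.exp_add]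
            congr 1
            ring
        _ ≤ Real.exp Ya * 3 := mul_le_mul (Real.exp_le_exp.mpr e1) h3 (Real.exp_pos _).le
            (Real.exp_pos _).le
    have e3 : 4 * β ^ 2 ≤ Real.exp (V / (2 * K)) := by
      rw [← Real.log_le_iff_le_exp (by positivity), le_div_iff₀ (by positivity)]
      linarith
    have e4 : Real.exp (V / K) = Real.exp (V / (2 * K)) * Real.exp (V / (2 * K)) := by
      rw [← Real.exp_add]
      congr 1
      field_simp
      ring
    have e5 : 3 / 2 * Real.exp (V / C) ≤ Real.exp (V / (2 * K)) := by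
      have f1 : V / C ≤ V / (3 * K) := div_le_div_of_nonneg_left hV0.le (by positivity) hC3K
      have f2 : V / (2 * K) = V / (6 * K) + V / (3 * K) := by
        field_simp
        norm_num
      rw [f2, Real.exp_add]
      have f3 : 3 / 2 ≤ Real.exp (V / (6 * K)) := by
        have g1 : 1 / 2 ≤ V / (6 * K) := by
          rw [le_div_iff₀ (by positivity)]
          linarith
        have g2 := Real.add_one_le_exp (V / (6 * K))
        linarith
      exact mul_le_mul f3 (Real.exp_le_exp.mpr f1) (Real.exp_pos _).le (Real.exp_pos _).le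
    rw [le_div_iff₀ (by positivity)]
    have e6 : Real.exp (V / (2 * K)) * (4 * β ^ 2) ≤ 3 * 2 ^ a := by
      have f1 := mul_le_mul_of_nonneg_left e3 (Real.exp_pos (V / (2 * K))).le
      rw [← e4] at f1
      linarith
    have e7 := mul_le_mul_of_nonneg_right e5 (show 0 ≤ 4 * β ^ 2 by positivity)
    linarith
  obtain ⟨E, hE⟩ : ∃ E : ℝ, E = Real.exp (V / C) := ⟨_, rfl⟩
  rw [← hE] at hmain ⊢
  have hE4 : E ≤ L / 4 := by
    obtain ⟨r, hr⟩ : ∃ r : ℝ, r = Real.exp (ℓ / 2) := ⟨_, rfl⟩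
    have hr2 : r * r = L := by
      rw [hr, ← Real.exp_add, hLexp]
      congr 1
      ring
    have hr0 : 0 < r := by
      rw [hr]
      exact Real.exp_pos _
    have h1 : E ≤ r := by
      rw [hE, hr]
      apply Real.exp_le_exp.mpr
      rw [div_le_div_iff₀ hC0 (by norm_num)]
      have g1 : ℓ * 2 ≤ ℓ * C := mul_le_mul_of_nonneg_left (by linarith) (by linarith)
      linarith
    exact aux_sqrt hr0 hr2 t1 h1
  have hUc : (U.card : ℝ) ≤ q.totient * Real.exp (-E) + C * Real.log (2 + 1 / h) ^ 2 := by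
    have h3 : (480 * b * Real.log (2 + 1 / h) / 1) ^ 2 ≤ C * Real.log (2 + 1 / h) ^ 2 := by
      rw [div_one, mul_pow]
      apply mul_le_mul_of_nonneg_right _ (by positivity)
      refine le_trans ?_ hC480
      have hbB' : (b : ℝ) ≤ B := by exact_mod_cast hbB
      exact pow_le_pow_left₀ (by positivity) (mul_le_mul_of_nonneg_left hbB' (by norm_num)) 2
    refine hU.trans (add_le_add ?_ h3)
    have h4 : Real.exp (22 * (ℓ * L / Y)) ≤ Real.exp (1 / 4 * L) := by
      apply Real.exp_le_exp.mpr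
      have e1 : 22 * (ℓ * L / Y) = 22 * ℓ / Y * L := by ring
      rw [e1]
      apply mul_le_mul_of_nonneg_right _ hLp.le
      rw [div_le_iff₀ hY0]
      linarith
    have hqe : (q : ℝ) = Real.exp L := by rw [hL, Real.exp_log hq0]
    have h6 := totient_ge hm hq3
    rw [← hL, hqe] at h6
    have hAL : 0 < A1 * L := by positivity
    have h7 : 2 * Real.exp (1 / 4 * L) * Real.exp (1 / 4 * L) ≤ q.totient := by
      have h8 : (2 * Real.exp (1 / 4 * L) * Real.exp (1 / 4 * L)) * (A1 * L) ≤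
          (q.totient : ℝ) * (A1 * L) := by
        refine le_trans ?_ h6
        have e1 : Real.exp (1 / 4 * L) * Real.exp (1 / 4 * L) = Real.exp (1 / 2 * L) := by
          rw [← Real.exp_add]
          congr 1
          ring
        have e2 : Real.exp (1 / 2 * L) * Real.exp (1 / 2 * L) = Real.exp L := by
          rw [← Real.exp_add]
          congr 1
          ring
        calc (2 * Real.exp (1 / 4 * L) * Real.exp (1 / 4 * L)) * (A1 * L) =
              (Real.exp (1 / 4 * L) * Real.exp (1 / 4 * L)) * (2 * A1 * L) := by ring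
          _ = Real.exp (1 / 2 * L) * (2 * A1 * L) := by rw [e1]
          _ ≤ Real.exp (1 / 2 * L) * Real.exp (1 / 2 * L) :=
              mul_le_mul_of_nonneg_left t5 (Real.exp_pos _).le
          _ = Real.exp L := e2
      exact le_of_mul_le_mul_right h8 hAL
    have h9 : Real.exp (-(1 / 4 * L)) ≤ Real.exp (-E) := Real.exp_le_exp.mpr (by linarith)
    calc Real.exp (22 * (ℓ * L / Y)) ≤ 2 * Real.exp (1 / 4 * L) := by
          have := Real.exp_pos (1 / 4 * L)
          linarith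
      _ = 2 * Real.exp (1 / 4 * L) * (Real.exp (1 / 4 * L) * Real.exp (-(1 / 4 * L))) := by
          rw [← Real.exp_add, add_neg_cancel, Real.exp_zero, mul_one]
      _ = (2 * Real.exp (1 / 4 * L) * Real.exp (1 / 4 * L)) * Real.exp (-(1 / 4 * L)) := by ring
      _ ≤ q.totient * Real.exp (-E) := mul_le_mul h7 h9 (Real.exp_pos _).le htp.le
  have hX : Real.exp (-(2 ^ a / (2 * β ^ 2))) ≤ Real.exp (-E) := Real.exp_le_exp.mpr (by linarith)
  have hG : ∀ x : ℝ, x ≤ q.totient * (10 * Real.exp (-(2 ^ a / (2 * β ^ 2)))) →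
      x ≤ q.totient * (10 * Real.exp (-E)) := by
    intro x hx
    refine hx.trans ?_
    apply mul_le_mul_of_nonneg_left _ htp.le
    linarith
  have hc1' := hG _ hc1
  have hc2' := hG _ hc2
  have hfin : (q.totient : ℝ) * Real.exp (-E) * 21 ≤ q.totient * Real.exp (-E) * C :=
    mul_le_mul_of_nonneg_left hC21 (by positivity)
  calc (BAD.card : ℝ) ≤ U.card + (G1.card + G2.card) := hcard
    _ ≤ (q.totient * Real.exp (-E) + C * Real.log (2 + 1 / h) ^ 2) +
          (q.totient * (10 * Real.exp (-E)) + q.totient * (10 * Real.exp (-E))) :=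
        add_le_add hUc (add_le_add hc1' hc2')
    _ = (q.totient : ℝ) * Real.exp (-E) * 21 + C * Real.log (2 + 1 / h) ^ 2 := by ring
    _ ≤ q.totient * Real.exp (-E) * C + C * Real.log (2 + 1 / h) ^ 2 := by linarith
    _ = C * q.totient * Real.exp (-E) + C * Real.log (2 + 1 / h) ^ 2 := by ring

lemma aux_cor {E L M φ Q A1 : ℝ} (hL : 0 < L) (hA : 0 < A1) (hE4 : E ≤ L / 4)
    (hφ : 0 ≤ φ) (hM : M ≤ Real.exp (1 / 4 * L)) (h6 : Q ≤ φ * (A1 * L)) (hQ : Q = Real.exp L)
    (ht : A1 * L ≤ Real.exp (1 / 2 * L)) : M ≤ φ * Real.exp (-E) := by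
  have h7 : Real.exp (1 / 4 * L) * Real.exp (1 / 4 * L) ≤ φ := by
    have h8 : (Real.exp (1 / 4 * L) * Real.exp (1 / 4 * L)) * (A1 * L) ≤ φ * (A1 * L) := by
      refine le_trans ?_ h6
      rw [hQ]
      have e1 : Real.exp (1 / 4 * L) * Real.exp (1 / 4 * L) = Real.exp (1 / 2 * L) := by
        rw [← Real.exp_add]
        congr 1
        ring
      have e2 : Real.exp (1 / 2 * L) * Real.exp (1 / 2 * L) = Real.exp L := by
        rw [← Real.exp_add]
        congr 1
        ring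
      calc (Real.exp (1 / 4 * L) * Real.exp (1 / 4 * L)) * (A1 * L) =
            Real.exp (1 / 2 * L) * (A1 * L) := by rw [e1]
        _ ≤ Real.exp (1 / 2 * L) * Real.exp (1 / 2 * L) :=
            mul_le_mul_of_nonneg_left ht (Real.exp_pos _).le
        _ = Real.exp L := e2
    exact le_of_mul_le_mul_right h8 (by positivity)
  have h9 : Real.exp (-(1 / 4 * L)) ≤ Real.exp (-E) := Real.exp_le_exp.mpr (by linarith)
  calc M ≤ Real.exp (1 / 4 * L) := hM
    _ = (Real.exp (1 / 4 * L) * Real.exp (1 / 4 * L)) * Real.exp (-(1 / 4 * L)) := by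
        rw [mul_assoc, ← Real.exp_add (1 / 4 * L) (-(1 / 4 * L)), add_neg_cancel, Real.exp_zero,
          mul_one]
    _ ≤ φ * Real.exp (-E) := mul_le_mul h7 h9 (Real.exp_pos _).le hφ

/-- Thresholds for the corollary. -/
lemma thr3 {C A1 : ℝ} (hC : 0 < C) (hA1 : 0 < A1) : ∀ᶠ L : ℝ in atTop, 16 ≤ L ∧
    C * (2 + L) ^ 2 ≤ Real.exp (1 / 4 * L) ∧ A1 * L ≤ Real.exp (1 / 2 * L) := by
  filter_upwards [poly_exp (4 * C) (show (0:ℝ) < 1 / 4 by norm_num),
    poly_exp A1 (show (0:ℝ) < 1 / 2 by norm_num), eventually_ge_atTop 16] with L k1 k2 k3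
  refine ⟨k3, le_trans ?_ k1, le_trans ?_ k2⟩
  · have h1 : (2 + L) ^ 2 ≤ 4 * (1 + L) ^ 2 := by nlinarith
    calc C * (2 + L) ^ 2 ≤ C * (4 * (1 + L) ^ 2) := mul_le_mul_of_nonneg_left h1 hC.le
      _ = 4 * C * (1 + L) ^ 2 := by ring
  · apply mul_le_mul_of_nonneg_left _ hA1.le
    nlinarith

open Classical in
/-- The doubly exponential decay, at a distance at least `1/q` from the edge. -/
theorem q_bound2 (B : ℕ) : ∃ C : ℝ, 1 ≤ C ∧
    ∀ (N i b : ℕ) (P : ℕ → Polynomial ℂ), Hyp N i b P → b ≤ B → ∀ (q : ℕ) [NeZero q], C ≤ q →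
      ∀ h t V : ℝ, 1 / (q : ℝ) ≤ h → 1 ≤ V → V ≤ Real.log (Real.log q) →
        ((Finset.univ.filter (fun ψ : DirichletCharacter ℂ q =>
          ¬ ((V ^ b)⁻¹ ≤ ‖∏' p : {p : ℕ // p.Prime ∧ ¬ p ∣ N}, ((P p).eval (ψ (p : ℕ) *
                ((p : ℕ) : ℂ) ^ (-(1 + (i:ℂ)/2 + h + t * I))))⁻¹‖ ∧
            ‖∏' p : {p : ℕ // p.Prime ∧ ¬ p ∣ N}, ((P p).eval (ψ (p : ℕ) *
                ((p : ℕ) : ℂ) ^ (-(1 + (i:ℂ)/2 + h + t * I))))⁻¹‖ ≤ V ^ b))).card : ℝ) ≤
          C * q.totient * Real.exp (-Real.exp (V / C)) := by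
  obtain ⟨A1, hA1, hm⟩ := mertens
  have hA10 : 0 < A1 := by linarith
  obtain ⟨C, hC21, hC⟩ := q_bound3 B
  have hC0 : 0 < C := by linarith
  obtain ⟨L0, hL0⟩ := eventually_atTop.mp (thr3 hC0 hA10)
  have hexpL0 := Real.exp_pos L0
  refine ⟨Real.exp L0 + C + 1, by linarith, ?_⟩
  intro N i b P H hbB q _ hCq h t V hh2 hV1 hVℓ
  have hq : 0 < q := Nat.pos_of_ne_zero (NeZero.ne q)
  have hq0 : (0 : ℝ) < q := by exact_mod_cast hq
  have hh : 0 < h := lt_of_lt_of_le (by positivity) hh2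
  have hV0 : 0 < V := by linarith
  have htp := tot_pos q
  refine (hC N i b P H hbB q (by linarith) h t V hh hV1 hVℓ).trans ?_
  have hq3 : 3 ≤ q := by
    have : (3 : ℝ) ≤ q := by linarith
    exact_mod_cast this
  obtain ⟨L, hL⟩ : ∃ L : ℝ, L = Real.log q := ⟨_, rfl⟩
  rw [← hL] at hVℓ
  have hLlow : L0 ≤ L := by
    rw [hL, Real.le_log_iff_exp_le hq0]
    linarith
  obtain ⟨t1, t2, t3⟩ := hL0 L hLlow
  have hLp : 0 < L := by linarith
  have h2 : Real.log (2 + 1 / h) ≤ 2 + L := by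
    have h3 : (q : ℝ) ^ (-(1:ℝ)) ≤ h := by
      rw [Real.rpow_neg_one, ← one_div]
      exact hh2
    have := log_h_le hq zero_le_one h3
    rw [one_mul, ← hL] at this
    exact this
  have hlog0 : 0 ≤ Real.log (2 + 1 / h) := by
    apply Real.log_nonneg
    have : 0 < 1 / h := by positivity
    linarith
  have hM : C * Real.log (2 + 1 / h) ^ 2 ≤ Real.exp (1 / 4 * L) := by
    refine le_trans ?_ t2
    apply mul_le_mul_of_nonneg_left _ hC0.le
    exact pow_le_pow_left₀ hlog0 h2 2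
  obtain ⟨E, hE⟩ : ∃ E : ℝ, E = Real.exp (V / C) := ⟨_, rfl⟩
  have hE4 : E ≤ L / 4 := by
    obtain ⟨r, hr⟩ : ∃ r : ℝ, r = Real.exp (Real.log L / 2) := ⟨_, rfl⟩
    have hr2 : r * r = L := by
      rw [hr, ← Real.exp_add]
      have : Real.log L / 2 + Real.log L / 2 = Real.log L := by ring
      rw [this, Real.exp_log hLp]
    have hr0 : 0 < r := by
      rw [hr]
      exact Real.exp_pos _
    have h1 : E ≤ r := by
      rw [hE, hr]
      apply Real.exp_le_exp.mpr
      rw [div_le_div_iff₀ hC0 (by norm_num)]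
      have g1 : Real.log L * 2 ≤ Real.log L * C := mul_le_mul_of_nonneg_left (by linarith) (by linarith)
      linarith
    exact aux_sqrt hr0 hr2 t1 h1
  have h6 := totient_ge hm hq3
  rw [← hL] at h6
  have hqe : (q : ℝ) = Real.exp L := by rw [hL, Real.exp_log hq0]
  have hkey := aux_cor hLp hA10 hE4 htp.le hM h6 hqe t3
  have hmono : Real.exp (-E) ≤ Real.exp (-Real.exp (V / (Real.exp L0 + C + 1))) := by
    apply Real.exp_le_exp.mpr
    rw [hE]
    have : Real.exp (V / (Real.exp L0 + C + 1)) ≤ Real.exp (V / C) := by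
      apply Real.exp_le_exp.mpr
      exact div_le_div_of_nonneg_left hV0.le hC0 (by linarith)
    linarith
  rw [← hE]
  calc C * q.totient * Real.exp (-E) + C * Real.log (2 + 1 / h) ^ 2 ≤
        C * q.totient * Real.exp (-E) + q.totient * Real.exp (-E) := by linarith
    _ = (C + 1) * q.totient * Real.exp (-E) := by ring
    _ ≤ (Real.exp L0 + C + 1) * q.totient * Real.exp (-Real.exp (V / (Real.exp L0 + C + 1))) := by
        apply mul_le_mul _ hmono (Real.exp_pos _).le (by positivity)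
        apply mul_le_mul_of_nonneg_right _ htp.le
        linarith

end Pool.Agent.H81.GR
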