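import Mathlib
import Pool.Agent.H81.GR.Mom
import Pool.Agent.H91.Edge.Dist2

/-!
# GR, Sec: the second moment of the logarithm without the small primes
-/

set_option autoImplicit false

open Finset Complex Filter Topology

namespace Pool.Agent.H81.GR

open Pool.Agent.H89.EdgeBasic
open Pool.Agent.H91.Edge (mertens zc zc_nonneg summable_zc hyp_fac)
open Pool.Agent.H81.ED (LP lc norm_lc_le TS EE nu)

variable {N i b : ℕ} {P : ℕ → Polynomial ℂ}

/-- The higher powers of the primes beyond `y`. -/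
noncomputable def hpw (y : ℕ) : ℝ := ∑' x : Nat.Primes × ℕ,
  if (x.1 : ℕ) ≤ y then 0 else (((x.1 : ℕ) : ℝ) ^ (-(2 : ℝ))) * (4 * (1 / 2 : ℝ) ^ x.2)

lemma hpw_nonneg (y : ℕ) : 0 ≤ hpw y := by
  unfold hpw
  apply tsum_nonneg
  intro x
  split_ifs <;> positivity

lemma tendsto_hpw : Tendsto hpw atTop (𝓝 0) := by
  have h1 : Tendsto (fun y : ℕ => ∑' x : Nat.Primes × ℕ,
      (if (x.1 : ℕ) ≤ y then (0 : ℝ) else
        (((x.1 : ℕ) : ℝ) ^ (-(2 : ℝ))) * (4 * (1 / 2 : ℝ) ^ x.2))) atTop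
      (𝓝 (∑' _x : Nat.Primes × ℕ, (0 : ℝ))) := by
    apply tendsto_tsum_of_dominated_convergence summable_C0
    · intro x
      apply tendsto_const_nhds.congr'
      filter_upwards [eventually_ge_atTop (x.1 : ℕ)] with y hy
      rw [if_pos hy]
    · filter_upwards with y x
      split_ifs
      · rw [norm_zero]
        positivity
      · rw [Real.norm_of_nonneg (by positivity)]
  rw [tsum_zero] at h1
  exact h1

/-- The inverse squares beyond `y`. -/
noncomputable def zt (y : ℕ) : ℝ := ∑' n : ℕ, if n ≤ y then 0 else ((n : ℝ)⁻¹) ^ 2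

lemma summable_zt (y : ℕ) : Summable fun n : ℕ => (if n ≤ y then 0 else ((n : ℝ)⁻¹) ^ 2 : ℝ) := by
  apply Summable.of_nonneg_of_le _ _ summable_Z2
  · intro n
    split_ifs <;> positivity
  · intro n
    split_ifs
    · positivity
    · exact le_rfl

lemma tendsto_zt : Tendsto zt atTop (𝓝 0) := by
  have h1 : Tendsto (fun y : ℕ => ∑' n : ℕ, (if n ≤ y then (0 : ℝ) else ((n : ℝ)⁻¹) ^ 2)) atTop
      (𝓝 (∑' _n : ℕ, (0 : ℝ))) := by
    apply tendsto_tsum_of_dominated_convergence summable_Z2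
    · intro n
      apply tendsto_const_nhds.congr'
      filter_upwards [eventually_ge_atTop n] with y hy
      rw [if_pos hy]
    · filter_upwards with y n
      split_ifs
      · rw [norm_zero]
        positivity
      · rw [Real.norm_of_nonneg (by positivity)]
  rw [tsum_zero] at h1
  exact h1

/-- The decomposition with the exact error term. -/
lemma decompX (H : Hyp N i b P) {s : ℂ} {h : ℝ} (hh : 0 < h) (hs : s.re = 1 + (i:ℝ)/2 + h)
    {q : ℕ} (ψ : DirichletCharacter ℂ q) (a1 : ℕ) :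
    ‖TT N P s ψ - (∑ a ∈ Finset.Ico 0 a1, ∑ p ∈ RR a, cc N P s p * ψ (p : ZMod q) +
      ∑' p : Nat.Primes, ff N P s a1 p * ψ ((p : ℕ) : ZMod q))‖ ≤
    ∑' x : Nat.Primes × ℕ, (if x.2 = 1 then 0 else ‖lc N P s x‖) := by
  rw [← blocks H hh hs ψ 0 a1 (Nat.zero_le _)]
  set c : Nat.Primes × ℕ → ℂ := fun x => lc N P s x * EE (fun (ψ : DirichletCharacter ℂ q) (n : ℕ) => ψ n) (nu x) ψ with hc
  have hEE : ∀ x : ℕ × ℕ, ‖EE (fun (ψ : DirichletCharacter ℂ q) (n : ℕ) => ψ n) x ψ‖ ≤ 1 := by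
    intro x
    unfold EE
    rw [norm_mul, RCLike.norm_conj]
    exact mul_le_one₀ (ψ.norm_le_one _) (norm_nonneg _) (ψ.norm_le_one _)
  have hcl : ∀ x, ‖c x‖ ≤ ‖lc N P s x‖ := by
    intro x
    rw [hc]
    simp only
    rw [norm_mul]
    exact mul_le_of_le_one_right (norm_nonneg _) (hEE _)
  have hzs : Summable fun x => (b : ℝ) * zc h x := (summable_zc hh).mul_left _
  have hls : Summable fun x => ‖lc N P s x‖ :=
    Summable.of_nonneg_of_le (fun x => norm_nonneg _) (fun x => norm_lc_le H hs x) hzs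
  have hcs : Summable c := Summable.of_norm_bounded hls hcl
  have hTT : TT N P s ψ = ∑' x, c x := rfl
  set U : Nat.Primes × ℕ → ℂ := fun x => if x.2 = 1 then c x else 0 with hU
  set V : Nat.Primes × ℕ → ℂ := fun x => if x.2 = 1 then 0 else c x with hV
  have hUs : Summable U := by
    apply Summable.of_norm_bounded hcs.norm
    intro x
    rw [hU]
    simp only
    split_ifs
    · exact le_rfl
    · rw [norm_zero]
      exact norm_nonneg _
  have hVs : Summable V := by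
    apply Summable.of_norm_bounded hcs.norm
    intro x
    rw [hV]
    simp only
    split_ifs
    · rw [norm_zero]
      exact norm_nonneg _
    · exact le_rfl
  have h1 : TT N P s ψ = ∑' x, U x + ∑' x, V x := by
    rw [hTT, ← hUs.tsum_add hVs]
    apply tsum_congr
    intro x
    rw [hU, hV]
    simp only
    split_ifs <;> ring
  have h2 : ∑' x, U x = ∑' p : Nat.Primes,
      (if 2 ^ 0 < (p : ℕ) then lc N P s (p, 1) * ψ ((p : ℕ) : ZMod q) else 0) := by
    set ι : Nat.Primes → Nat.Primes × ℕ := fun p => (p, 1) with hι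
    have hinj : Function.Injective ι := by
      intro p r hpr
      exact congrArg Prod.fst hpr
    have hsupp : Function.support U ⊆ Set.range ι := by
      intro x hx
      rw [Function.mem_support, hU] at hx
      simp only at hx
      have h3 : x.2 = 1 := by
        by_contra hcon
        exact hx (if_neg hcon)
      exact ⟨x.1, Prod.ext rfl h3.symm⟩
    rw [← hinj.tsum_eq hsupp]
    apply tsum_congr
    intro p
    have hp1 : 2 ^ 0 < (p : ℕ) := by
      rw [pow_zero]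
      exact p.2.one_lt
    rw [hU, hι, hc]
    simp only [if_true]
    rw [if_pos hp1]
    unfold EE nu
    simp
  rw [h1, h2, add_sub_cancel_left]
  have h3 : ∀ x, ‖V x‖ ≤ (if x.2 = 1 then 0 else ‖lc N P s x‖) := by
    intro x
    rw [hV]
    simp only
    split_ifs
    · simp
    · exact hcl x
  have hs3 : Summable fun x : Nat.Primes × ℕ => (if x.2 = 1 then 0 else ‖lc N P s x‖) := by
    apply Summable.of_nonneg_of_le _ _ hls
    · intro x
      split_ifs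
      · exact le_rfl
      · exact norm_nonneg _
    · intro x
      split_ifs
      · exact norm_nonneg _
      · exact le_rfl
  exact tsum_of_norm_bounded hs3.hasSum h3

lemma high_le (H : Hyp N i b P) {s : ℂ} {h : ℝ} (hh : 0 < h) (hs : s.re = 1 + (i:ℝ)/2 + h)
    (y : ℕ) : ∑' x : Nat.Primes × ℕ, (if x.2 = 1 then 0 else ‖lc (N * y.factorial) P s x‖) ≤
      b * hpw y := by
  unfold hpw
  rw [← tsum_mul_left]
  have hsum : Summable fun x : Nat.Primes × ℕ => (b : ℝ) * (if (x.1 : ℕ) ≤ y then 0 else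
      (((x.1 : ℕ) : ℝ) ^ (-(2 : ℝ))) * (4 * (1 / 2 : ℝ) ^ x.2)) := by
    apply Summable.mul_left
    apply Summable.of_nonneg_of_le _ _ summable_C0
    · intro x
      split_ifs <;> positivity
    · intro x
      split_ifs
      · positivity
      · exact le_rfl
  have hle : ∀ x : Nat.Primes × ℕ, (if x.2 = 1 then 0 else ‖lc (N * y.factorial) P s x‖) ≤
      (b : ℝ) * (if (x.1 : ℕ) ≤ y then 0 else
      (((x.1 : ℕ) : ℝ) ^ (-(2 : ℝ))) * (4 * (1 / 2 : ℝ) ^ x.2)) := by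
    intro x
    by_cases hx : (x.1 : ℕ) ≤ y
    · have h0 : lc (N * y.factorial) P s x = 0 := by
        unfold lc
        rw [if_pos]
        exact dvd_mul_of_dvd_right (Nat.dvd_factorial x.1.2.pos hx) _
      rw [h0, if_pos hx]
      simp
    · rw [if_neg hx]
      split_ifs with h2
      · positivity
      · exact (norm_lc_le (hyp_fac H y) hs x).trans
          (mul_le_mul_of_nonneg_left (zc_high hh x h2) (Nat.cast_nonneg _))
  apply Summable.tsum_le_tsum hle _ hsum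
  apply Summable.of_nonneg_of_le _ hle hsum
  intro x
  split_ifs
  · exact le_rfl
  · exact norm_nonneg _

lemma cc_fac_zero {y p : ℕ} (s : ℂ) (hp : p ≤ y) : cc (N * y.factorial) P s p = 0 := by
  unfold cc
  split_ifs with h
  · unfold lc
    rw [if_pos]
    exact dvd_mul_of_dvd_right (Nat.dvd_factorial h.pos hp) _
  · rfl

lemma sum_cc_fac_le (H : Hyp N i b P) {s : ℂ} {h : ℝ} (hh : 0 < h) (hs : s.re = 1 + (i:ℝ)/2 + h)
    (y n : ℕ) : ∑ p ∈ (Finset.range n).filter Nat.Prime, ‖cc (N * y.factorial) P s p‖ ^ 2 ≤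
      (b : ℝ) ^ 2 * zt y := by
  calc ∑ p ∈ (Finset.range n).filter Nat.Prime, ‖cc (N * y.factorial) P s p‖ ^ 2 ≤
        ∑ p ∈ (Finset.range n).filter Nat.Prime,
          (b : ℝ) ^ 2 * (if p ≤ y then 0 else ((p : ℝ)⁻¹) ^ 2) := by
        apply Finset.sum_le_sum
        intro p hp
        by_cases hpy : p ≤ y
        · rw [cc_fac_zero s hpy, if_pos hpy]
          simp
        · rw [if_neg hpy, ← mul_pow]
          exact pow_le_pow_left₀ (norm_nonneg _)
            (norm_cc_inv (hyp_fac H y) hh hs (Finset.mem_filter.mp hp).2) 2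
    _ = (b : ℝ) ^ 2 * ∑ p ∈ (Finset.range n).filter Nat.Prime,
          (if p ≤ y then 0 else ((p : ℝ)⁻¹) ^ 2) := by
        rw [Finset.mul_sum]
    _ ≤ (b : ℝ) ^ 2 * zt y := by
        apply mul_le_mul_of_nonneg_left _ (by positivity)
        apply (summable_zt y).sum_le_tsum
        intro n _
        split_ifs <;> positivity

/-- The second moment of one dyadic block beyond `q`. -/
lemma block_second (H : Hyp N i b P) {s : ℂ} {h : ℝ} (hh : 0 < h) (hs : s.re = 1 + (i:ℝ)/2 + h)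
    {q : ℕ} [NeZero q] {a : ℕ} (ha : q < 2 ^ (a + 1)) :
    ∑ ψ : DirichletCharacter ℂ q, ‖∑ p ∈ RR a, cc N P s p * ψ (p : ZMod q)‖ ^ 2 ≤
      (q.totient : ℝ) * (4 * (b : ℝ) ^ 2 / q) := by
  have hq : 0 < q := Nat.pos_of_ne_zero (NeZero.ne q)
  have hq0 : (0 : ℝ) < q := by exact_mod_cast hq
  have h1 := momentT (q := q) 1 (2 ^ (a + 1)) (RR a) (by
    intro p hp
    have h2 := Finset.mem_Ioc.mp (Finset.mem_filter.mp hp).1
    exact ⟨(Finset.mem_filter.mp hp).2, h2.2⟩) (cc N P s)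
  rw [mul_one, pow_one, pow_one, Nat.factorial_one, one_mul] at h1
  refine h1.trans ?_
  apply mul_le_mul_of_nonneg_left _ (Nat.cast_nonneg _)
  have hq2 : (q : ℝ) ≤ 2 * 2 ^ a := by
    have : (q : ℝ) ≤ 2 ^ (a + 1) := by exact_mod_cast ha.le
    rw [pow_succ] at this
    linarith
  have h2 : (((2 ^ (a + 1) / q + 1 : ℕ)) : ℝ) ≤ 4 * 2 ^ a / q := by
    have e1 : ((2 ^ (a + 1) / q : ℕ) : ℝ) ≤ ((2 ^ (a + 1) : ℕ) : ℝ) / q := Nat.cast_div_le
    have e2 : (1 : ℝ) ≤ 2 * 2 ^ a / q := by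
      rw [le_div_iff₀ hq0, one_mul]
      exact hq2
    push_cast at e1 ⊢
    have e3 : (2 : ℝ) ^ (a + 1) / q = 2 * 2 ^ a / q := by
      rw [pow_succ]
      ring
    rw [e3] at e1
    calc _ ≤ 2 * 2 ^ a / q + 2 * 2 ^ a / (q : ℝ) := by linarith
      _ = _ := by ring
  calc (((2 ^ (a + 1) / q + 1 : ℕ)) : ℝ) * ∑ p ∈ RR a, ‖cc N P s p‖ ^ 2 ≤
        (4 * 2 ^ a / q) * ((b : ℝ) ^ 2 * (1 / 2 ^ a)) :=
        mul_le_mul h2 (sum_sq_le H hh hs a) (Finset.sum_nonneg fun p _ => by positivity)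
          (by positivity)
    _ = 4 * (b : ℝ) ^ 2 / q := by
        field_simp

/-- The second moment of the logarithm without the primes up to `y`. -/
theorem second_TT (H : Hyp N i b P) {s : ℂ} {h : ℝ} (hh : 0 < h) (hs : s.re = 1 + (i:ℝ)/2 + h)
    (y : ℕ) {q : ℕ} [NeZero q] {L : ℝ} (hL : L = Real.log q) (hL8 : 8 ≤ L) :
    ∑ ψ : DirichletCharacter ℂ q, ‖TT (N * y.factorial) P s ψ‖ ^ 2 ≤
      (q.totient : ℝ) * (4 * (2 * ((b : ℝ) ^ 2 * zt y) + 64 * L ^ 2 * (b : ℝ) ^ 2 / q +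
        (b * hpw y) ^ 2)) + 4 * (480 * b * Real.log (2 + 1 / h)) ^ 2 := by
  have hq : 0 < q := Nat.pos_of_ne_zero (NeZero.ne q)
  have hq0 : (0 : ℝ) < q := by exact_mod_cast hq
  have hL0 : 0 < L := by linarith
  have hl2 : 0 < Real.log 2 := Real.log_pos (by norm_num)
  have hl2g := Real.log_two_gt_d9
  have H' := hyp_fac H y
  obtain ⟨a1, ha1⟩ : ∃ a1 : ℕ, a1 = ⌈2 * L / Real.log 2⌉₊ := ⟨_, rfl⟩
  have h1le : 2 * L ≤ a1 * Real.log 2 := by
    have := Nat.le_ceil (2 * L / Real.log 2)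
    rw [div_le_iff₀ hl2, ← ha1] at this
    exact this
  have h1lt : (a1 : ℝ) ≤ 4 * L := by
    have h1 : (a1 : ℝ) < 2 * L / Real.log 2 + 1 := by
      rw [ha1]
      exact Nat.ceil_lt_add_one (by positivity)
    have h2 : 2 * L / Real.log 2 ≤ 3 * L := by
      rw [div_le_iff₀ hl2]
      nlinarith
    linarith
  have hqa1 : q ^ 2 ≤ 2 ^ a1 := by
    have h3 : Real.log ((q : ℝ) ^ 2) ≤ Real.log ((2 : ℝ) ^ a1) := by
      rw [Real.log_pow, Real.log_pow, ← hL]
      push_cast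
      linarith
    have h4 := (Real.log_le_log_iff (by positivity) (by positivity)).mp h3
    exact_mod_cast h4
  obtain ⟨a2, ha2⟩ : ∃ a2 : ℕ, a2 = Nat.log 2 q := ⟨_, rfl⟩
  have ha2le : 2 ^ a2 ≤ q := by
    rw [ha2]
    exact Nat.pow_log_le_self 2 hq.ne'
  have ha2lt : q < 2 ^ (a2 + 1) := by
    rw [ha2]
    exact Nat.lt_pow_succ_log_self (by norm_num) q
  have ha21 : a2 ≤ a1 := by
    by_contra hcon
    push Not at hcon
    have e1 : 2 ^ a1 < 2 ^ a2 := Nat.pow_lt_pow_right (by norm_num) hcon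
    have e2 : q ≤ q ^ 2 := by
      rw [pow_two]
      exact Nat.le_mul_of_pos_left q hq
    omega
  set S1 : DirichletCharacter ℂ q → ℂ := fun ψ =>
    ∑ p ∈ (Finset.range (2 ^ a2 + 1)).filter Nat.Prime,
      cc (N * y.factorial) P s p * ψ (p : ZMod q) with hS1
  set Sg : ℕ → DirichletCharacter ℂ q → ℂ := fun a ψ =>
    ∑ p ∈ RR a, cc (N * y.factorial) P s p * ψ (p : ZMod q) with hSg
  set Tl : DirichletCharacter ℂ q → ℂ := fun ψ =>
    ∑' p : Nat.Primes, ff (N * y.factorial) P s a1 p * ψ ((p : ℕ) : ZMod q) with hTl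
  set Hp : ℝ := b * hpw y with hHp
  have hHp0 : 0 ≤ Hp := mul_nonneg (Nat.cast_nonneg _) (hpw_nonneg y)
  have hpt : ∀ ψ : DirichletCharacter ℂ q, ‖TT (N * y.factorial) P s ψ‖ ^ 2 ≤
      4 * (‖S1 ψ‖ ^ 2 + 4 * L * ∑ a ∈ Finset.Ico a2 a1, ‖Sg a ψ‖ ^ 2 + ‖Tl ψ‖ ^ 2 + Hp ^ 2) := by
    intro ψ
    have hd := (decompX H' hh hs ψ a1).trans (high_le H hh hs y)
    rw [← Finset.sum_Ico_consecutive _ (Nat.zero_le a2) ha21, small_sum] at hd
    set X := ∑ a ∈ Finset.Ico a2 a1, Sg a ψ with hX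
    have hX2 : ‖X‖ ^ 2 ≤ 4 * L * ∑ a ∈ Finset.Ico a2 a1, ‖Sg a ψ‖ ^ 2 := by
      have e1 : ‖X‖ ≤ ∑ a ∈ Finset.Ico a2 a1, ‖Sg a ψ‖ := norm_sum_le _ _
      have e2 := pow_le_pow_left₀ (norm_nonneg _) e1 2
      have e3 := sq_sum_le_card_mul_sum_sq (s := Finset.Ico a2 a1) (f := fun a => ‖Sg a ψ‖)
      have e4 : ((Finset.Ico a2 a1).card : ℝ) ≤ 4 * L := by
        have e5 : ((Finset.Ico a2 a1).card : ℝ) ≤ a1 := by
          rw [Nat.card_Ico]
          exact_mod_cast Nat.sub_le _ _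
        linarith
      refine (e2.trans e3).trans ?_
      exact mul_le_mul_of_nonneg_right e4 (Finset.sum_nonneg fun a _ => by positivity)
    have h4 : ‖TT (N * y.factorial) P s ψ‖ ≤ ‖S1 ψ‖ + ‖X‖ + ‖Tl ψ‖ + Hp := by
      calc ‖TT (N * y.factorial) P s ψ‖ = ‖(TT (N * y.factorial) P s ψ - (S1 ψ + X + Tl ψ)) +
            (S1 ψ + X + Tl ψ)‖ := by rw [sub_add_cancel]
        _ ≤ ‖TT (N * y.factorial) P s ψ - (S1 ψ + X + Tl ψ)‖ + ‖S1 ψ + X + Tl ψ‖ :=
            norm_add_le _ _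
        _ ≤ Hp + (‖S1 ψ‖ + ‖X‖ + ‖Tl ψ‖) := add_le_add hd norm_add₃_le
        _ = _ := by ring
    have h5 := pow_le_pow_left₀ (norm_nonneg _) h4 2
    have h6 : (‖S1 ψ‖ + ‖X‖ + ‖Tl ψ‖ + Hp) ^ 2 ≤
        4 * (‖S1 ψ‖ ^ 2 + ‖X‖ ^ 2 + ‖Tl ψ‖ ^ 2 + Hp ^ 2) := by
      nlinarith [sq_nonneg (‖S1 ψ‖ - ‖X‖), sq_nonneg (‖S1 ψ‖ - ‖Tl ψ‖), sq_nonneg (‖S1 ψ‖ - Hp),
        sq_nonneg (‖X‖ - ‖Tl ψ‖), sq_nonneg (‖X‖ - Hp), sq_nonneg (‖Tl ψ‖ - Hp)]
    linarith
  have hcardψ : (∑ _ψ : DirichletCharacter ℂ q, Hp ^ 2) = q.totient * Hp ^ 2 := by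
    rw [Finset.sum_const, nsmul_eq_mul, Finset.card_univ]
    have h1 := DirichletCharacter.card_eq_totient_of_hasEnoughRootsOfUnity ℂ q
    rw [Nat.card_eq_fintype_card] at h1
    rw [h1]
  have hm1 : ∑ ψ : DirichletCharacter ℂ q, ‖S1 ψ‖ ^ 2 ≤
      (q.totient : ℝ) * (2 * ((b : ℝ) ^ 2 * zt y)) := by
    have h1 := momentT (q := q) 1 (2 ^ a2) ((Finset.range (2 ^ a2 + 1)).filter Nat.Prime) (by
      intro p hp
      rw [Finset.mem_filter, Finset.mem_range] at hp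
      exact ⟨hp.2, by omega⟩) (cc (N * y.factorial) P s)
    rw [mul_one, pow_one, pow_one, Nat.factorial_one, one_mul] at h1
    refine h1.trans ?_
    apply mul_le_mul_of_nonneg_left _ (Nat.cast_nonneg _)
    have e1 : 2 ^ a2 / q + 1 ≤ 2 := by
      have := (Nat.div_le_div_right (c := q) ha2le).trans (Nat.div_self hq).le
      omega
    exact mul_le_mul (by exact_mod_cast e1) (sum_cc_fac_le H hh hs y _)
      (Finset.sum_nonneg fun p _ => by positivity) (by norm_num)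
  have hm2 : ∑ ψ : DirichletCharacter ℂ q, 4 * L * ∑ a ∈ Finset.Ico a2 a1, ‖Sg a ψ‖ ^ 2 ≤
      (q.totient : ℝ) * (64 * L ^ 2 * (b : ℝ) ^ 2 / q) := by
    rw [← Finset.mul_sum, Finset.sum_comm]
    calc 4 * L * ∑ a ∈ Finset.Ico a2 a1, ∑ ψ : DirichletCharacter ℂ q, ‖Sg a ψ‖ ^ 2 ≤
          4 * L * ∑ _a ∈ Finset.Ico a2 a1, (q.totient : ℝ) * (4 * (b : ℝ) ^ 2 / q) := by
          apply mul_le_mul_of_nonneg_left _ (by positivity)
          apply Finset.sum_le_sum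
          intro a ha
          apply block_second H' hh hs
          refine ha2lt.trans_le (Nat.pow_le_pow_right (by norm_num) ?_)
          have := (Finset.mem_Ico.mp ha).1
          omega
      _ = 4 * L * ((Finset.Ico a2 a1).card * ((q.totient : ℝ) * (4 * (b : ℝ) ^ 2 / q))) := by
          rw [Finset.sum_const, nsmul_eq_mul]
      _ ≤ 4 * L * (4 * L * ((q.totient : ℝ) * (4 * (b : ℝ) ^ 2 / q))) := by
          apply mul_le_mul_of_nonneg_left _ (by positivity)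
          apply mul_le_mul_of_nonneg_right _ (by positivity)
          have e5 : ((Finset.Ico a2 a1).card : ℝ) ≤ a1 := by
            rw [Nat.card_Ico]
            exact_mod_cast Nat.sub_le _ _
          linarith
      _ = _ := by ring
  have hm3 : ∑ ψ : DirichletCharacter ℂ q, ‖Tl ψ‖ ^ 2 ≤ (480 * b * Real.log (2 + 1 / h)) ^ 2 :=
    tailT (q := q) hh (Nat.cast_nonneg b) (ff (N * y.factorial) P s a1) hqa1 (norm_ff_leT H' hs a1)
  calc ∑ ψ : DirichletCharacter ℂ q, ‖TT (N * y.factorial) P s ψ‖ ^ 2 ≤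
        ∑ ψ : DirichletCharacter ℂ q, 4 * (‖S1 ψ‖ ^ 2 + 4 * L *
          ∑ a ∈ Finset.Ico a2 a1, ‖Sg a ψ‖ ^ 2 + ‖Tl ψ‖ ^ 2 + Hp ^ 2) :=
        Finset.sum_le_sum fun ψ _ => hpt ψ
    _ = 4 * (∑ ψ : DirichletCharacter ℂ q, ‖S1 ψ‖ ^ 2 +
          ∑ ψ : DirichletCharacter ℂ q, 4 * L * ∑ a ∈ Finset.Ico a2 a1, ‖Sg a ψ‖ ^ 2 +
          ∑ ψ : DirichletCharacter ℂ q, ‖Tl ψ‖ ^ 2 + q.totient * Hp ^ 2) := by
        rw [← Finset.mul_sum, Finset.sum_add_distrib, Finset.sum_add_distrib,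
          Finset.sum_add_distrib, hcardψ]
    _ ≤ 4 * ((q.totient : ℝ) * (2 * ((b : ℝ) ^ 2 * zt y)) +
          (q.totient : ℝ) * (64 * L ^ 2 * (b : ℝ) ^ 2 / q) +
          (480 * b * Real.log (2 + 1 / h)) ^ 2 + q.totient * Hp ^ 2) := by linarith
    _ = _ := by ring

open Classical in
/-- The law of small deviations: the product over the primes beyond `y` is close to one. -/
theorem sec_small (b : ℕ) {d ε : ℝ} (hd : 0 ≤ d) (hε : 0 < ε) : ∃ (y0 : ℕ) (q0 : ℝ),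
    ∀ y : ℕ, y0 ≤ y → ∀ (q : ℕ) [NeZero q], q0 ≤ q → ∀ (N i : ℕ) (P : ℕ → Polynomial ℂ),
      Hyp N i b P → ∀ (s : ℂ) (h : ℝ), s.re = 1 + (i:ℝ)/2 + h → (q : ℝ) ^ (-d) ≤ h →
        ∑ ψ : DirichletCharacter ℂ q, min 1 (‖LP (N * y.factorial) P s ψ - 1‖ ^ 2) ≤
          ε * q.totient := by
  obtain ⟨A1, hA1, hm⟩ := mertens
  have hA10 : 0 < A1 := by linarith
  have hy : Tendsto (fun y : ℕ => 16 * (2 * ((b : ℝ) ^ 2 * zt y) + (b * hpw y) ^ 2)) atTop (𝓝 0) := by
    have h1 := ((tendsto_zt.const_mul ((b : ℝ) ^ 2)).const_mul 2)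
    have h2 := (tendsto_hpw.const_mul (b : ℝ)).pow 2
    have h3 := (h1.add h2).const_mul 16
    simpa using h3
  obtain ⟨y0, hy0⟩ := eventually_atTop.mp
    (hy.eventually (ge_mem_nhds (show (0:ℝ) < ε / 2 by linarith)))
  have e1 := poly_exp (16 * 64 * (b : ℝ) ^ 2 / (ε / 4)) one_pos
  have e2 := poly_exp (16 * (480 * b * (2 + d)) ^ 2) (show (0:ℝ) < 1 / 2 by norm_num)
  have e3 := poly_exp (A1 / (ε / 4)) (show (0:ℝ) < 1 / 2 by norm_num)
  obtain ⟨L0, hL0⟩ := eventually_atTop.mp (e1.and (e2.and e3))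
  refine ⟨y0, Real.exp (max L0 8) + 3, ?_⟩
  intro y hyy q _ hqq N i P H s h hs hlow
  have hq : 0 < q := Nat.pos_of_ne_zero (NeZero.ne q)
  have hq0 : (0 : ℝ) < q := by exact_mod_cast hq
  have hqd : 0 < (q : ℝ) ^ (-d) := by positivity
  have hh : 0 < h := lt_of_lt_of_le hqd hlow
  have hq3 : 3 ≤ q := by
    have : (3 : ℝ) ≤ q := by
      have := Real.exp_pos (max L0 8)
      linarith
    exact_mod_cast this
  obtain ⟨L, hL⟩ : ∃ L : ℝ, L = Real.log q := ⟨_, rfl⟩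
  have hLlow : max L0 8 ≤ L := by
    rw [hL, Real.le_log_iff_exp_le hq0]
    linarith
  have hL8 : 8 ≤ L := (le_max_right _ _).trans hLlow
  obtain ⟨k1, k2, k3⟩ := hL0 L ((le_max_left _ _).trans hLlow)
  have hqe : (q : ℝ) = Real.exp L := by rw [hL, Real.exp_log hq0]
  have hmin : ∀ ψ : DirichletCharacter ℂ q, min 1 (‖LP (N * y.factorial) P s ψ - 1‖ ^ 2) ≤
      4 * ‖TT (N * y.factorial) P s ψ‖ ^ 2 := by
    intro ψ
    rw [LP_eq_exp (hyp_fac H y) hh hs ψ]
    set D := TT (N * y.factorial) P s ψ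
    rcases le_total ‖D‖ 1 with h4 | h4
    · have h5 := Complex.norm_exp_sub_one_le h4
      calc min 1 (‖Complex.exp D - 1‖ ^ 2) ≤ ‖Complex.exp D - 1‖ ^ 2 := min_le_right _ _
        _ ≤ (2 * ‖D‖) ^ 2 := pow_le_pow_left₀ (norm_nonneg _) h5 2
        _ = 4 * ‖D‖ ^ 2 := by ring
    · calc min 1 (‖Complex.exp D - 1‖ ^ 2) ≤ 1 := min_le_left _ _
        _ ≤ 4 * ‖D‖ ^ 2 := by nlinarith
  have hsec := second_TT H hh hs y hL hL8
  have hyb := hy0 y hyy
  have htp : (0 : ℝ) < q.totient := by exact_mod_cast Nat.totient_pos.2 hq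
  have f1 : 16 * (64 * L ^ 2 * (b : ℝ) ^ 2 / q) ≤ ε / 4 := by
    rw [one_mul, ← hqe, div_mul_eq_mul_div, div_le_iff₀ (by positivity)] at k1
    rw [← mul_div_assoc, div_le_iff₀ hq0]
    have : L ^ 2 ≤ (1 + L) ^ 2 := by nlinarith
    have hb2 : 0 ≤ 16 * 64 * (b : ℝ) ^ 2 := by positivity
    nlinarith
  have f2 : 16 * (480 * b * Real.log (2 + 1 / h)) ^ 2 ≤ ε / 4 * q.totient := by
    have hlog0 : 0 ≤ Real.log (2 + 1 / h) := by
      apply Real.log_nonneg
      have : 0 < 1 / h := by positivity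
      linarith
    have g1 : Real.log (2 + 1 / h) ≤ (2 + d) * (1 + L) := by
      have := log_h_le hq hd hlow
      rw [← hL] at this
      nlinarith
    have g2 : 16 * (480 * b * Real.log (2 + 1 / h)) ^ 2 ≤ Real.exp (1 / 2 * L) := by
      refine le_trans ?_ k2
      have : (480 * b * Real.log (2 + 1 / h)) ^ 2 ≤ (480 * b * ((2 + d) * (1 + L))) ^ 2 := by
        apply pow_le_pow_left₀ (by positivity)
        exact mul_le_mul_of_nonneg_left g1 (by positivity)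
      nlinarith
    have g3 : A1 * L ≤ ε / 4 * Real.exp (1 / 2 * L) := by
      rw [div_mul_eq_mul_div, div_le_iff₀ (by positivity)] at k3
      have : L ≤ (1 + L) ^ 2 := by nlinarith
      nlinarith
    have g4 := totient_ge hm hq3
    rw [← hL, hqe] at g4
    have g5 : Real.exp L = Real.exp (1 / 2 * L) * Real.exp (1 / 2 * L) := by
      rw [← Real.exp_add]
      congr 1
      ring
    have hep := Real.exp_pos (1 / 2 * L)
    have g6 : Real.exp (1 / 2 * L) * Real.exp (1 / 2 * L) ≤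
        (ε / 4 * q.totient) * Real.exp (1 / 2 * L) := by
      rw [← g5]
      refine g4.trans ?_
      calc (q.totient : ℝ) * (A1 * L) ≤ q.totient * (ε / 4 * Real.exp (1 / 2 * L)) :=
            mul_le_mul_of_nonneg_left g3 htp.le
        _ = _ := by ring
    exact g2.trans (le_of_mul_le_mul_right g6 hep)
  calc ∑ ψ : DirichletCharacter ℂ q, min 1 (‖LP (N * y.factorial) P s ψ - 1‖ ^ 2) ≤
        ∑ ψ : DirichletCharacter ℂ q, 4 * ‖TT (N * y.factorial) P s ψ‖ ^ 2 :=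
        Finset.sum_le_sum fun ψ _ => hmin ψ
    _ = 4 * ∑ ψ : DirichletCharacter ℂ q, ‖TT (N * y.factorial) P s ψ‖ ^ 2 := by
        rw [Finset.mul_sum]
    _ ≤ 4 * ((q.totient : ℝ) * (4 * (2 * ((b : ℝ) ^ 2 * zt y) + 64 * L ^ 2 * (b : ℝ) ^ 2 / q +
        (b * hpw y) ^ 2)) + 4 * (480 * b * Real.log (2 + 1 / h)) ^ 2) :=
        mul_le_mul_of_nonneg_left hsec (by norm_num)
    _ = q.totient * (16 * (2 * ((b : ℝ) ^ 2 * zt y) + (b * hpw y) ^ 2)) +
        q.totient * (16 * (64 * L ^ 2 * (b : ℝ) ^ 2 / q)) +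
        16 * (480 * b * Real.log (2 + 1 / h)) ^ 2 := by ring
    _ ≤ q.totient * (ε / 2) + q.totient * (ε / 4) + ε / 4 * q.totient := by
        have := mul_le_mul_of_nonneg_left hyb htp.le
        have := mul_le_mul_of_nonneg_left f1 htp.le
        linarith
    _ = ε * q.totient := by ring

end Pool.Agent.H81.GR
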