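import Mathlib
import Pool.Agent.H81.GR.Sec
import Pool.Agent.H81.ED.Law

/-!
# GR, Law2: the limiting law over all characters modulo `q`, at distance at least `q^(-d)` from the
edge
-/

set_option autoImplicit false

open MeasureTheory Filter Topology
open scoped ENNReal

namespace Pool.Agent.H81.GR

open Pool.Agent.H89.EdgeBasic
open Pool.Agent.H91.Edge (hyp_fac cutP hyp_cut Psi continuous_phi_Psi Psi_mk tmean gg gg_nonneg
  mult_cont cube Psi_ne)
open Pool.Agent.H81.ED (LP LP_ne LP_mul LP_cut Psh shift_small equi tp card_char tot_pos Cop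
  large_of_primes cop_of_primes)

variable {κ : Type} [Fintype κ] {N i b : κ → ℕ} {P : κ → ℕ → Polynomial ℂ}

lemma exists_exp2 {l d : ℝ} (hbl : ∀ k, d * ((b k : ℝ) * l) < 1) :
    ∃ l' : ℝ, l < l' ∧ ∀ k, d * ((b k : ℝ) * l') < 1 := by
  have h1 : ∀ k, ∀ᶠ x : ℝ in 𝓝[>] l, d * ((b k : ℝ) * x) < 1 := by
    intro k
    have hc : Continuous fun x : ℝ => d * ((b k : ℝ) * x) := by fun_prop
    exact nhdsWithin_le_nhds ((hc.tendsto l).eventually (gt_mem_nhds (hbl k)))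
  have h2 := (Filter.eventually_all.mpr h1).and (self_mem_nhdsWithin (s := Set.Ioi l) (a := l))
  obtain ⟨x, hx1, hx2⟩ := h2.exists
  exact ⟨x, hx2, hx1⟩

/-- The comparison with the random products. -/
theorem compare2 (H : ∀ k, Hyp (N k) (i k) (b k) (P k)) {φ : (κ → ℂ) → ℂ} {l C : ℝ} (hl : 0 ≤ l)
    (hC : 0 ≤ C) (hφ : ContinuousOn φ {z | ∀ k, z k ≠ 0})
    (hgr : ∀ z : κ → ℂ, (∀ k, z k ≠ 0) → ‖φ z‖ ≤ C * (1 + gg l z)) {d : ℝ} (hd : 0 ≤ d)
    (hbl : ∀ k, d * ((b k : ℝ) * l) < 1) {ε : ℝ} (hε : 0 < ε) :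
    ∃ y0 : ℕ, ∀ y : ℕ, y0 ≤ y → ∃ (Q : ℕ) (δ : ℝ), 0 < δ ∧ ∀ (q : ℕ) [NeZero q], Q ≤ q → Cop y q →
      ∀ h : ℝ, (q : ℝ) ^ (-d) ≤ h → h ≤ δ → ∀ t : ℝ,
        ‖(∑ ψ : DirichletCharacter ℂ q,
          φ (fun k => LP (N k) (P k) (1 + (i k:ℂ)/2 + (h:ℂ) + t * Complex.I) ψ)) / q.totient -
          tmean ⟨fun x => φ (fun k => Psi (N k) (i k) (P k) y x), continuous_phi_Psi H hφ y⟩‖ ≤
            ε := by
  obtain ⟨l', hll, hbl'⟩ := exists_exp2 hbl
  have hl'0 : 0 < l' := by linarith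
  choose Mf qf hMf0 hMf using fun k => mom (b k) hl'0.le hd (hbl' k)
  set M : ℝ := ∑ k, Mf k with hM
  have hM : 0 ≤ M := Finset.sum_nonneg fun k _ => hMf0 k
  set K : ℝ := ((Fintype.card κ : ℕ) : ℝ) with hK
  have hK0 : 0 ≤ K := Nat.cast_nonneg _
  set ε1 : ℝ := ε / (4 * (1 + 2 * M)) with hε1
  have hε1p : 0 < ε1 := by positivity
  obtain ⟨A, hA0, hA⟩ := mult_cont hl hll hC hφ hgr hε1p
  set ε2 : ℝ := ε / (4 * ((A + 1) * (K + 1))) with hε2
  have hε2p : 0 < ε2 := by positivity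
  choose yf qg hsec using fun k => sec_small (b k) hd hε2p
  set y0 : ℕ := ∑ k, yf k with hy0
  have hyk : ∀ k, yf k ≤ y0 := fun k =>
    Finset.single_le_sum (f := yf) (fun k _ => Nat.zero_le _) (Finset.mem_univ k)
  refine ⟨y0, fun y hy => ?_⟩
  obtain ⟨δ1, hδ1, h1⟩ := shift_small H hφ y (show (0:ℝ) < ε / 4 by linarith)
  set F : C(UnitAddTorus (Nat.primesBelow (y + 1)), ℂ) :=
    ⟨fun x => φ (fun k => Psi (N k) (i k) (P k) y x), continuous_phi_Psi H hφ y⟩ with hF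
  obtain ⟨Q1, hQ1⟩ := equi y F (ε / 4) (by linarith)
  obtain ⟨Q2, hQ2⟩ := exists_nat_gt (∑ k, (|qf k| + |qg k|))
  refine ⟨max Q1 Q2, min δ1 1, lt_min hδ1 one_pos, ?_⟩
  intro q hqz hq hcop h hlow hle t
  have hq0 : 0 < q := Nat.pos_of_ne_zero (NeZero.ne q)
  have hqr : (0:ℝ) < q := by exact_mod_cast hq0
  have hh : 0 < h := (Real.rpow_pos_of_pos hqr _).trans_le hlow
  have hh1 : h ≤ 1 := hle.trans (min_le_right _ _)
  have hhδ : h ≤ δ1 := hle.trans (min_le_left _ _)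
  have htp := tot_pos q
  have hsre : ∀ k, (1 + (i k:ℂ)/2 + (h:ℂ) + t * Complex.I).re = 1 + (i k:ℝ)/2 + h := by
    intro k
    simp
  have hQk : ∀ k, qf k ≤ q ∧ qg k ≤ q := by
    intro k
    have h1 : |qf k| + |qg k| ≤ ∑ k, (|qf k| + |qg k|) :=
      Finset.single_le_sum (f := fun k => |qf k| + |qg k|) (fun k _ => by positivity)
        (Finset.mem_univ k)
    have h2 : (Q2 : ℝ) ≤ q := by exact_mod_cast (le_max_right _ _).trans hq
    have h3 := le_abs_self (qf k)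
    have h4 := le_abs_self (qg k)
    have h5 := abs_nonneg (qf k)
    have h6 := abs_nonneg (qg k)
    constructor <;> linarith
  -- the moments
  have hcardκ : ∀ c : ℝ, ∑ _k : κ, c = K * c := by
    intro c
    rw [Finset.sum_const, Finset.card_univ, nsmul_eq_mul]
  have hmom : ∀ P' : κ → ℕ → Polynomial ℂ, (∀ k, Hyp (N k) (i k) (b k) (P' k)) →
      ∑ ψ : DirichletCharacter ℂ q,
        gg l' (fun k => LP (N k) (P' k) (1 + (i k:ℂ)/2 + (h:ℂ) + t * Complex.I) ψ) ≤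
        M * q.totient := by
    intro P' H'
    unfold gg
    rw [Finset.sum_comm, Finset.sum_mul]
    apply Finset.sum_le_sum
    intro k _
    exact hMf k q (hQk k).1 (N k) (i k) (P' k) (H' k) _ h (hsre k) hlow hh1
  -- first comparison
  have hpt : ∀ ψ : DirichletCharacter ℂ q,
      ‖φ (fun k => LP (N k) (P k) (1 + (i k:ℂ)/2 + (h:ℂ) + t * Complex.I) ψ) -
        φ (fun k => LP (N k) (cutP (P k) y) (1 + (i k:ℂ)/2 + (h:ℂ) + t * Complex.I) ψ)‖ ≤
      ε1 * (1 + gg l' (fun k => LP (N k) (P k) (1 + (i k:ℂ)/2 + (h:ℂ) + t * Complex.I) ψ) +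
        gg l' (fun k => LP (N k) (cutP (P k) y) (1 + (i k:ℂ)/2 + (h:ℂ) + t * Complex.I) ψ)) +
      A * ∑ k, min 1 (‖LP (N k * y.factorial) (P k)
        (1 + (i k:ℂ)/2 + (h:ℂ) + t * Complex.I) ψ - 1‖ ^ 2) := by
    intro ψ
    have h2 := hA (fun k => LP (N k) (cutP (P k) y) (1 + (i k:ℂ)/2 + (h:ℂ) + t * Complex.I) ψ)
      (fun k => LP (N k * y.factorial) (P k) (1 + (i k:ℂ)/2 + (h:ℂ) + t * Complex.I) ψ)
      (fun k => LP_ne (hyp_cut (H k) y) hh (hsre k) ψ)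
      (fun k => LP_ne (hyp_fac (H k) y) hh (hsre k) ψ)
    have h3 : (fun k => LP (N k) (cutP (P k) y) (1 + (i k:ℂ)/2 + (h:ℂ) + t * Complex.I) ψ *
        LP (N k * y.factorial) (P k) (1 + (i k:ℂ)/2 + (h:ℂ) + t * Complex.I) ψ) =
        fun k => LP (N k) (P k) (1 + (i k:ℂ)/2 + (h:ℂ) + t * Complex.I) ψ := by
      funext k
      exact (LP_mul (H k) hh (hsre k) y ψ).symm
    simp only [h3] at h2
    exact h2
  have hcmp1 : ∑ ψ : DirichletCharacter ℂ q,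
      ‖φ (fun k => LP (N k) (P k) (1 + (i k:ℂ)/2 + (h:ℂ) + t * Complex.I) ψ) -
        φ (fun k => LP (N k) (cutP (P k) y) (1 + (i k:ℂ)/2 + (h:ℂ) + t * Complex.I) ψ)‖ ≤
      ε / 2 * q.totient := by
    have h2 := Finset.sum_le_sum fun ψ (_ : ψ ∈ Finset.univ) => hpt ψ
    refine h2.trans ?_
    rw [Finset.sum_add_distrib, ← Finset.mul_sum, ← Finset.mul_sum, Finset.sum_add_distrib,
      Finset.sum_add_distrib, Finset.sum_const, Finset.card_univ, card_char, nsmul_eq_mul, mul_one,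
      Finset.sum_comm]
    have h3 := hmom P H
    have h4 := hmom (fun k => cutP (P k) y) (fun k => hyp_cut (H k) y)
    have h5 : ∑ k, ∑ ψ : DirichletCharacter ℂ q, min 1 (‖LP (N k * y.factorial) (P k)
        (1 + (i k:ℂ)/2 + (h:ℂ) + t * Complex.I) ψ - 1‖ ^ 2) ≤ K * (ε2 * q.totient) := by
      rw [← hcardκ]
      exact Finset.sum_le_sum fun k _ => hsec k y ((hyk k).trans hy) q (hQk k).2 (N k) (i k) (P k)
        (H k) _ h (hsre k) hlow
    have h9 : A * (K * (ε2 * q.totient)) ≤ ε / 4 * q.totient := by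
      have e1 : (A + 1) * (K + 1) * ε2 = ε / 4 := by
        rw [hε2]
        field_simp
      have e2 : A * K ≤ (A + 1) * (K + 1) := by nlinarith
      have e3 : A * K * ε2 ≤ ε / 4 := by
        rw [← e1]
        exact mul_le_mul_of_nonneg_right e2 hε2p.le
      calc A * (K * (ε2 * q.totient)) = A * K * ε2 * q.totient := by ring
        _ ≤ ε / 4 * q.totient := mul_le_mul_of_nonneg_right e3 htp.le
    calc _ ≤ ε1 * (q.totient + M * q.totient + M * q.totient) +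
          A * (K * (ε2 * q.totient)) := by gcongr
      _ = ε1 * (1 + 2 * M) * q.totient + A * (K * (ε2 * q.totient)) := by ring
      _ ≤ ε / 4 * q.totient + ε / 4 * q.totient := by
          have e1 : ε1 * (1 + 2 * M) = ε / 4 := by
            rw [hε1]
            field_simp
          rw [e1]
          linarith
      _ = ε / 2 * q.totient := by ring
  -- second comparison
  have hcmp2 : ∑ ψ : DirichletCharacter ℂ q,
      ‖φ (fun k => LP (N k) (cutP (P k) y) (1 + (i k:ℂ)/2 + (h:ℂ) + t * Complex.I) ψ) -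
        F (tp y t ψ)‖ ≤ ε / 4 * q.totient := by
    calc _ ≤ ∑ _ψ : DirichletCharacter ℂ q, ε / 4 := by
          apply Finset.sum_le_sum
          intro ψ _
          simp_rw [LP_cut hcop]
          exact h1 h hh.le hhδ (tp y t ψ)
      _ = ε / 4 * q.totient := by
          rw [Finset.sum_const, Finset.card_univ, card_char, nsmul_eq_mul]
          ring
  have hthree := hQ1 q ((le_max_left _ _).trans hq) hcop t
  set a1 := fun ψ : DirichletCharacter ℂ q =>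
    φ (fun k => LP (N k) (P k) (1 + (i k:ℂ)/2 + (h:ℂ) + t * Complex.I) ψ) with ha1
  set a2 := fun ψ : DirichletCharacter ℂ q =>
    φ (fun k => LP (N k) (cutP (P k) y) (1 + (i k:ℂ)/2 + (h:ℂ) + t * Complex.I) ψ) with ha2
  have e : (∑ ψ, a1 ψ) / (q.totient : ℂ) - tmean F = (∑ ψ, (a1 ψ - a2 ψ)) / (q.totient : ℂ) +
      (∑ ψ, (a2 ψ - F (tp y t ψ))) / (q.totient : ℂ) +
      ((∑ ψ : DirichletCharacter ℂ q, F (tp y t ψ)) / (q.totient : ℂ) - tmean F) := by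
    rw [Finset.sum_sub_distrib, Finset.sum_sub_distrib]
    ring
  rw [e]
  have g1 : ‖(∑ ψ, (a1 ψ - a2 ψ)) / (q.totient : ℂ)‖ ≤ ε / 2 := by
    rw [norm_div, Complex.norm_natCast, div_le_iff₀ htp]
    exact (norm_sum_le _ _).trans hcmp1
  have g2 : ‖(∑ ψ, (a2 ψ - F (tp y t ψ))) / (q.totient : ℂ)‖ ≤ ε / 4 := by
    rw [norm_div, Complex.norm_natCast, div_le_iff₀ htp]
    exact (norm_sum_le _ _).trans hcmp2
  refine norm_add₃_le.trans ?_
  linarith


/-- The law in the modulus aspect: all characters modulo `q`, at distance at least `q^(-d)` from the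
edge, for functions of growth `l` with `d b l < 1`. -/
theorem q_law (n : ℕ) (N i b : Fin n → ℕ) (P : Fin n → ℕ → Polynomial ℂ)
    (H : ∀ j, Hyp (N j) (i j) (b j) (P j)) (φ : (Fin n → ℂ) → ℂ) (l C : ℝ) (hl : 0 ≤ l)
    (hφ : ContinuousOn φ {z | ∀ j, z j ≠ 0})
    (hgr : ∀ z : Fin n → ℂ, (∀ j, z j ≠ 0) →
      ‖φ z‖ ≤ C * (1 + ∑ j, (‖z j‖ ^ l + ‖z j‖ ^ (-l)))) :
    ∃ m : ℂ,
      Tendsto (fun y : ℕ => ∫ θ in {x : Nat.primesBelow (y + 1) → ℝ | ∀ p, x p ∈ Set.Ioc (0:ℝ) 1},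
        φ (fun k => ∏ p : Nat.primesBelow (y + 1), if (p:ℕ) ∣ N k then 1 else
          ((P k p).eval (Complex.exp (2 * Real.pi * θ p * Complex.I) *
            ((p:ℕ):ℂ) ^ (-(1 + (i k:ℂ)/2))))⁻¹)) atTop (𝓝 m) ∧
      ∀ d : ℝ, 0 ≤ d → (∀ j, d * ((b j : ℝ) * l) < 1) → ∀ ε : ℝ, 0 < ε →
        ∃ (Q : ℕ) (δ : ℝ), 0 < δ ∧ ∀ (q : ℕ) [NeZero q], (∀ p : ℕ, p.Prime → p ∣ q → Q ≤ p) →
          ∀ h t : ℝ, (q : ℝ) ^ (-d) ≤ h → h ≤ δ →
            ‖(∑ ψ : DirichletCharacter ℂ q,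
              φ (fun j => ∏' p : {p : ℕ // p.Prime ∧ ¬ p ∣ N j},
                ((P j p).eval (ψ (p : ℕ) * ((p : ℕ):ℂ) ^
                  (-(1 + (i j:ℂ)/2 + (h:ℂ) + t * Complex.I))))⁻¹)) / (Nat.totient q : ℂ) - m‖ ≤ ε := by
  obtain ⟨m, hmlim0, -⟩ := Pool.Agent.H81.ED.q_law n N i b P H φ l C hl hφ hgr
  refine ⟨m, hmlim0, ?_⟩
  have hgr' : ∀ z : Fin n → ℂ, (∀ j, z j ≠ 0) → ‖φ z‖ ≤ |C| * (1 + gg l z) := by
    intro z hz
    refine (hgr z hz).trans ?_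
    have h1 : 0 ≤ gg l z := gg_nonneg l z
    have h2 : 0 ≤ 1 + gg l z := by linarith
    exact mul_le_mul_of_nonneg_right (le_abs_self C) h2
  set M : ℕ → ℂ := fun y => tmean ⟨fun x => φ (fun k => Psi (N k) (i k) (P k) y x),
    continuous_phi_Psi H hφ y⟩ with hM
  have hMe : ∀ y : ℕ, (∫ θ in {x : Nat.primesBelow (y + 1) → ℝ | ∀ p, x p ∈ Set.Ioc (0:ℝ) 1},
        φ (fun k => ∏ p : Nat.primesBelow (y + 1), if (p:ℕ) ∣ N k then 1 else
          ((P k p).eval (Complex.exp (2 * Real.pi * θ p * Complex.I) *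
            ((p:ℕ):ℂ) ^ (-(1 + (i k:ℂ)/2))))⁻¹)) = M y := by
    intro y
    simp only [hM, tmean, ContinuousMap.coe_mk, Psi_mk]
    rfl
  have hmlim : Tendsto M atTop (𝓝 m) := by
    simp_rw [hMe] at hmlim0
    exact hmlim0
  intro d hd hbl ε hε
  obtain ⟨y0, hy0⟩ := compare2 H hl (abs_nonneg C) hφ hgr' hd hbl (show 0 < ε / 2 by linarith)
  have h5 := hmlim.eventually (Metric.closedBall_mem_nhds m (show (0:ℝ) < ε / 2 by linarith))
  obtain ⟨y, hy1, hy2⟩ := (h5.and (eventually_ge_atTop y0)).exists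
  obtain ⟨Q, δ, hδ, hQ⟩ := hy0 y hy2
  refine ⟨max Q (y + 1), min δ (1/2), lt_min hδ (by norm_num), ?_⟩
  intro q hqz hq h t hlow hle
  have hq0 : 0 < q := Nat.pos_of_ne_zero (NeZero.ne q)
  have hq1 : 1 < q := by
    by_contra hcon
    have hq' : q = 1 := by omega
    subst hq'
    have h1 : h ≤ 1/2 := hle.trans (min_le_right _ _)
    rw [Nat.cast_one, Real.one_rpow] at hlow
    linarith
  have h1 := large_of_primes hq1 hq
  have h2 := hQ q ((le_max_left _ _).trans h1)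
    (cop_of_primes (Q := max Q (y + 1)) (lt_of_lt_of_le (Nat.lt_succ_self y) (le_max_right _ _)) hq)
    h hlow (hle.trans (min_le_left _ _)) t
  rw [dist_eq_norm] at hy1
  set a := (∑ ψ : DirichletCharacter ℂ q, φ (fun j => LP (N j) (P j)
      (1 + (i j:ℂ)/2 + (h : ℂ) + (t : ℂ) * Complex.I) ψ)) / (Nat.totient q : ℂ) with ha
  have h3 : ‖a - m‖ ≤ ε := by
    calc ‖a - m‖ = ‖(a - M y) + (M y - m)‖ := by
          congr 1
          ring
      _ ≤ ε / 2 + ε / 2 := (norm_add_le _ _).trans (add_le_add h2 hy1)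
      _ = ε := by ring
  exact h3

end Pool.Agent.H81.GR
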